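import Pool.Agent.Helper48.QH.Core

/-!
# QH, block A1: the displacement of a matrix

`A = (p q; r s)`, `t = p + s`, `Qf A z = (r |z|^2 + (s - p) x - q) / y`.

PROOF.
`sinh_disp`: `A • z = (p z + q)/(r z + s)`, `z - A • z = (r z^2 + (s - p) z - q)/(r z + s)`, `im (A • z) = y / |r z + s|^2`, and
`sinh_half_dist` of Mathlib gives `4 sinh^2 (d/2) = |z - A z|^2 / (im z * im (A z)) = |r z^2 + (s - p) z - q|^2 / y^2`. With
`P = r (x^2 + y^2) + (s - p) x - q` the real part of `r z^2 + (s - p) z - q` is `P - 2 r y^2`, the imaginary part is `y (2 r x + s - p)`, and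
`(P - 2 r y^2)^2 + y^2 (2 r x + s - p)^2 = P^2 + y^2 ((p + s)^2 - 4)` by `p s - q r = 1` (polynomial identity).
`trace_bound`: by `sinh_disp`, `4 sinh^2 (ℓ/2) ≤ Q(z)^2 + t^2 - 4` for all `z`. If `r ≠ 0` and `t^2 > 4`: at `x = (p - s)/(2 r)`,
`y = sqrt (t^2 - 4) / (2 |r|)` we have `Q = 0`. If `r ≠ 0` and `t^2 < 4`: at `x = (p - s)/(2 r)`, `y = sqrt (4 - t^2)/(2 |r|)` we get
`Q^2 = 4 - t^2`, so the right side is `0`, contradiction. If `r ≠ 0`, `t^2 = 4`: at `x = (p - s)/(2 r)` we get `Q = r y`, let `y` be small.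
If `r = 0`: `p s = 1`; if `p ≠ s` take `x = q/(s - p)`, `y = 1`: `Q = 0`; if `p = s` then `t^2 = 4` and `Q = - q / y`, let `y` be large.
At the end `cosh^2 = 1 + sinh^2`.
`b_le_disp`: `4 sinh^2 (d/2) ≥ t^2 - 4 = 4 cosh^2 (b/2) - 4 = 4 sinh^2 (b/2)`, and `sinh` is increasing.
-/

set_option autoImplicit false

open MeasureTheory UpperHalfPlane
open scoped ContDiff MatrixGroups

noncomputable section

namespace Pool.Agent.Helper48.QH

private lemma disp_alg65 {p q r s x y u v : ℝ} (hdet : p * s - q * r = 1) (hy : 0 < y) (hv : 0 < v)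
    (e1 : u * (r * x + s) - v * (r * y) = p * x + q) (e2 : u * (r * y) + v * (r * x + s) = p * y) :
    ((x - u) ^ 2 + (y - v) ^ 2) / (y * v) =
      ((r * (x ^ 2 + y ^ 2) + (s - p) * x - q) / y) ^ 2 + (p + s) ^ 2 - 4 := by
  have hvD : v * ((r * x + s) ^ 2 + (r * y) ^ 2) = y := by
    linear_combination (r * x + s) * e2 - r * y * e1 + y * hdet
  have hD : ((r * x + s) ^ 2 + (r * y) ^ 2) ≠ 0 := by
    intro h
    rw [h, mul_zero] at hvD
    exact hy.ne hvD
  have hN : ((x - u) ^ 2 + (y - v) ^ 2) * ((r * x + s) ^ 2 + (r * y) ^ 2) =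
      (r * (x ^ 2 + y ^ 2) + (s - p) * x - q) ^ 2 + y ^ 2 * ((p + s) ^ 2 - 4) := by
    have h1 : (x - u) * (r * x + s) - (y - v) * (r * y) = x * (r * x + s) - y * (r * y) - (p * x + q) := by
      linear_combination -e1
    have h2 : (x - u) * (r * y) + (y - v) * (r * x + s) = x * (r * y) + y * (r * x + s) - p * y := by
      linear_combination -e2
    have h3 : ((x - u) ^ 2 + (y - v) ^ 2) * ((r * x + s) ^ 2 + (r * y) ^ 2) =
        ((x - u) * (r * x + s) - (y - v) * (r * y)) ^ 2 + ((x - u) * (r * y) + (y - v) * (r * x + s)) ^ 2 := by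
      ring
    rw [h3, h1, h2]
    linear_combination (-4 * y ^ 2) * hdet
  rw [div_eq_iff (mul_pos hy hv).ne']
  apply mul_right_cancel₀ hD
  rw [hN]
  have h4 : (((r * (x ^ 2 + y ^ 2) + (s - p) * x - q) / y) ^ 2 + (p + s) ^ 2 - 4) * (y * v) *
      ((r * x + s) ^ 2 + (r * y) ^ 2) =
      (((r * (x ^ 2 + y ^ 2) + (s - p) * x - q) / y) ^ 2 + (p + s) ^ 2 - 4) * y *
        (v * ((r * x + s) ^ 2 + (r * y) ^ 2)) := by ring
  rw [h4, hvD]
  field_simp
  ring

private lemma sinh_sq65 (z w : ℍ) :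
    4 * Real.sinh (dist z w / 2) ^ 2 = ((z.re - w.re) ^ 2 + (z.im - w.im) ^ 2) / (z.im * w.im) := by
  rw [sinh_half_dist, Complex.dist_eq, div_pow, mul_pow, Real.sq_sqrt (mul_pos z.im_pos w.im_pos).le,
    Complex.sq_norm, Complex.normSq_apply]
  have h1 : ((z : ℂ) - (w : ℂ)).re = z.re - w.re := rfl
  have h2 : ((z : ℂ) - (w : ℂ)).im = z.im - w.im := rfl
  rw [h1, h2]
  have h3 : z.im * w.im ≠ 0 := (mul_pos z.im_pos w.im_pos).ne'
  field_simp
  ring

theorem sinh_disp (A : SL(2, ℝ)) (z : ℍ) :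
    4 * Real.sinh (dist z (A • z) / 2) ^ 2 = Qf A z ^ 2 + tr A ^ 2 - 4 := by
  have hdet : A 0 0 * A 1 1 - A 0 1 * A 1 0 = 1 := by
    have := A.det_coe
    rw [Matrix.det_fin_two] at this
    exact this
  have hz := z.im_pos
  have hw := (A • z).im_pos
  have hne : ((A 1 0 : ℝ) : ℂ) * z + ((A 1 1 : ℝ) : ℂ) ≠ 0 := by
    intro h
    have h1 := congrArg Complex.re h
    have h2 := congrArg Complex.im h
    simp at h1 h2
    rcases h2 with h2 | h2
    · rw [h2] at h1 hdet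
      have h3 : A 1 1 = 0 := by linarith
      rw [h3] at hdet
      norm_num at hdet
    · exact hz.ne' h2
  have hmul : ((A • z : ℍ) : ℂ) * (((A 1 0 : ℝ) : ℂ) * z + ((A 1 1 : ℝ) : ℂ)) =
      ((A 0 0 : ℝ) : ℂ) * z + ((A 0 1 : ℝ) : ℂ) := by
    rw [coe_specialLinearGroup_apply]
    exact div_mul_cancel₀ _ hne
  rw [sinh_sq65]
  have e1 := congrArg Complex.re hmul
  have e2 := congrArg Complex.im hmul
  simp only [Complex.mul_re, Complex.mul_im, Complex.add_re, Complex.add_im, Complex.ofReal_re,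
    Complex.ofReal_im, zero_mul, sub_zero, add_zero, coe_re, coe_im] at e1 e2
  have h5 := disp_alg65 (p := A 0 0) (q := A 0 1) (r := A 1 0) (s := A 1 1) (x := z.re) (y := z.im)
    (u := (A • z).re) (v := (A • z).im) hdet hz hw (by linarith) (by linarith)
  rw [h5]
  rfl

private lemma trace_real65 {S c : ℝ} (hS : 0 < S)
    (h : ∀ u : ℝ, 0 < u → 4 * S ^ 2 ≤ (u + c / u) ^ 2) : S ^ 2 ≤ c := by
  by_contra hcon
  push Not at hcon
  rcases lt_or_ge c 0 with hc | hc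
  · have h1 := h (Real.sqrt (-c)) (Real.sqrt_pos.mpr (by linarith))
    have h2 : Real.sqrt (-c) + c / Real.sqrt (-c) = 0 := by
      have h3 : Real.sqrt (-c) ≠ 0 := (Real.sqrt_pos.mpr (by linarith)).ne'
      have h4 : Real.sqrt (-c) * Real.sqrt (-c) = -c := Real.mul_self_sqrt (by linarith)
      field_simp
      nlinarith
    rw [h2] at h1
    nlinarith
  · have h1 := h S hS
    have h2 : c / S < S := by
      rw [div_lt_iff₀ hS]
      nlinarith
    have h3 : 0 ≤ c / S := div_nonneg hc hS.le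
    nlinarith

theorem trace_bound (A : SL(2, ℝ)) (l : ℝ) (hl : 0 < l) (h : ∀ z : ℍ, l ≤ dist z (A • z)) :
    4 * Real.cosh (l / 2) ^ 2 ≤ tr A ^ 2 := by
  have hdet : A 0 0 * A 1 1 - A 0 1 * A 1 0 = 1 := by
    have := A.det_coe
    rw [Matrix.det_fin_two] at this
    exact this
  have hS : 0 < Real.sinh (l / 2) := Real.sinh_pos_iff.mpr (by linarith)
  have hmain : ∀ x y : ℝ, 0 < y → 4 * Real.sinh (l / 2) ^ 2 ≤
      ((A 1 0 * (x ^ 2 + y ^ 2) + (A 1 1 - A 0 0) * x - A 0 1) / y) ^ 2 + (A 0 0 + A 1 1) ^ 2 - 4 := by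
    intro x y hy
    have h1 := sinh_disp A ⟨⟨x, y⟩, hy⟩
    have h2 := h ⟨⟨x, y⟩, hy⟩
    have h3 : Real.sinh (l / 2) ≤ Real.sinh (dist (⟨⟨x, y⟩, hy⟩ : ℍ) (A • (⟨⟨x, y⟩, hy⟩ : ℍ)) / 2) :=
      Real.sinh_le_sinh.mpr (by linarith)
    have h4 := pow_le_pow_left₀ hS.le h3 2
    have h5 : Qf A (⟨⟨x, y⟩, hy⟩ : ℍ) =
      (A 1 0 * (x ^ 2 + y ^ 2) + (A 1 1 - A 0 0) * x - A 0 1) / y := rfl
    rw [h5] at h1
    unfold tr at h1
    linarith
  rw [Real.cosh_sq]
  unfold tr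
  generalize A 0 0 = p at *
  generalize A 0 1 = q at *
  generalize A 1 0 = r at *
  generalize A 1 1 = s at *
  by_cases hr : r = 0
  · subst hr
    by_cases hps : p = s
    · exfalso
      subst hps
      have h1 := hmain 0 ((|q| + 1) / Real.sinh (l / 2)) (by positivity)
      have h2 : ((0 * (0 ^ 2 + ((|q| + 1) / Real.sinh (l / 2)) ^ 2) + (p - p) * 0 - q) /
          ((|q| + 1) / Real.sinh (l / 2))) ^ 2 = (q / (|q| + 1)) ^ 2 * Real.sinh (l / 2) ^ 2 := by
        have : |q| + 1 ≠ 0 := by positivity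
        field_simp
        ring
      rw [h2] at h1
      have h3 : (q / (|q| + 1)) ^ 2 ≤ 1 := by
        rw [div_pow, div_le_one (by positivity), ← sq_abs q]
        have := abs_nonneg q
        nlinarith
      nlinarith [sq_nonneg (Real.sinh (l / 2)), pow_pos hS 2]
    · have h1 := hmain (q / (s - p)) 1 one_pos
      have h4 : s - p ≠ 0 := fun h => hps (by linarith)
      have h2 : ((0 * ((q / (s - p)) ^ 2 + 1 ^ 2) + (s - p) * (q / (s - p)) - q) / 1) ^ 2 = 0 := by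
        rw [mul_div_cancel₀ q h4]
        ring
      rw [h2] at h1
      linarith
  · have h6 := trace_real65 (S := Real.sinh (l / 2)) (c := ((p + s) ^ 2 - 4) / 4) hS (by
      intro u hu
      have hra : 0 < |r| := abs_pos.mpr hr
      have h1 := hmain ((p - s) / (2 * r)) (u / |r|) (by positivity)
      refine h1.trans (le_of_eq ?_)
      have h7 : (r * (((p - s) / (2 * r)) ^ 2 + (u / |r|) ^ 2) + (s - p) * ((p - s) / (2 * r)) - q) =
          (u ^ 2 - ((p + s) ^ 2 - 4) / 4) / r := by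
        rw [div_pow u, sq_abs]
        field_simp
        linear_combination (16 : ℝ) * hdet
      have h8 : ((u ^ 2 - ((p + s) ^ 2 - 4) / 4) / r / (u / |r|)) ^ 2 =
          ((u ^ 2 - ((p + s) ^ 2 - 4) / 4) / u) ^ 2 := by
        have h9 : (u ^ 2 - ((p + s) ^ 2 - 4) / 4) / r / (u / |r|) =
          ((u ^ 2 - ((p + s) ^ 2 - 4) / 4) / u) * (|r| / r) := by
          field_simp
        rw [h9, mul_pow, div_pow |r| r, sq_abs, div_self (pow_ne_zero 2 hr), mul_one]
      rw [h7, h8]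
      field_simp
      ring)
    linarith

theorem b_le_disp (A : SL(2, ℝ)) (b : ℝ) (hb : 0 ≤ b) (ht : |tr A| = 2 * Real.cosh (b / 2)) (z : ℍ) :
    b ≤ dist z (A • z) := by
  have h1 := sinh_disp A z
  have h2 : tr A ^ 2 = 4 * Real.cosh (b / 2) ^ 2 := by
    rw [← sq_abs, ht]; ring
  rw [h2, Real.cosh_sq] at h1
  have h3 : Real.sinh (b / 2) ^ 2 ≤ Real.sinh (dist z (A • z) / 2) ^ 2 := by
    have := sq_nonneg (Qf A z)
    linarith
  have h4 : 0 ≤ Real.sinh (dist z (A • z) / 2) := Real.sinh_nonneg_iff.mpr (by positivity)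
  have h5 : Real.sinh (b / 2) ≤ Real.sinh (dist z (A • z) / 2) := le_of_sq_le_sq h3 h4
  have h6 := Real.sinh_le_sinh.mp h5
  linarith

end Pool.Agent.Helper48.QH
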