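import Pool.Agent.Helper48.QH.Core
import Pool.Agent.Helper48.QH.Disp

/-!
# QH, block A4: the form `Qf` in terms of the argument

PROOF. `SL(2, ℝ)` acts by isometries, so `dist y (A • y) = dist (M • y) (M • (A • y)) = dist w w'`, `w = M • y`, `w' = exp b * w`. By
`sinh_half_dist`, `sinh (d/2) = |w - w'| / (2 sqrt (im w * im w')) = (exp b - 1) |w| / (2 exp (b/2) im w) = sinh (b/2) |w| / im w` and
`im w / |w| = sin (arg w)` (`Complex.sin_arg`). So `4 sinh^2 (d/2) sin^2 φ = 4 sinh^2 (b/2) = tr^2 - 4`; with `sinh_disp`: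
`(Q^2 + tr^2 - 4) sin^2 φ = tr^2 - 4`, so `Q^2 sin^2 φ = (tr^2 - 4) (1 - sin^2 φ)`.
-/

set_option autoImplicit false

open MeasureTheory UpperHalfPlane
open scoped ContDiff MatrixGroups

noncomputable section

namespace Pool.Agent.Helper48.QH

theorem Qf_arg (A M : SL(2, ℝ)) (b : ℝ) (hb : 0 < b) (ht : |tr A| = 2 * Real.cosh (b / 2))
    (h : ∀ z : ℍ, ((M • (A • z) : ℍ) : ℂ) = (Real.exp b : ℂ) * ((M • z : ℍ) : ℂ)) (y : ℍ) :
    Qf A y ^ 2 * Real.sin (Complex.arg ((M • y : ℍ) : ℂ)) ^ 2 =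
      (tr A ^ 2 - 4) * Real.cos (Complex.arg ((M • y : ℍ) : ℂ)) ^ 2 := by
  have h1 := h y
  have hd : dist y (A • y) = dist (M • y) (M • (A • y)) := (dist_smul M y (A • y)).symm
  have h2 := sinh_disp A y
  rw [hd] at h2
  generalize hw : M • y = w at h1 h2 ⊢
  generalize hw' : M • (A • y) = w' at h1 h2
  have him : w'.im = Real.exp b * w.im := by
    have := congrArg Complex.im h1
    rw [Complex.im_ofReal_mul] at this
    exact this
  have hwim := w.im_pos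
  have hwne : (w : ℂ) ≠ 0 := w.ne_zero
  have hn : 0 < ‖(w : ℂ)‖ := norm_pos_iff.2 hwne
  have hn2 : ‖(w : ℂ)‖ ^ 2 = (w : ℂ).re ^ 2 + (w : ℂ).im ^ 2 := by
    rw [← Complex.normSq_eq_norm_sq, Complex.normSq_apply]
    ring
  have hdist : dist (w : ℂ) (w' : ℂ) ^ 2 = (Real.exp b - 1) ^ 2 * ‖(w : ℂ)‖ ^ 2 := by
    rw [h1, dist_eq_norm]
    have : (w : ℂ) - (Real.exp b : ℂ) * (w : ℂ) = ((1 - Real.exp b : ℝ) : ℂ) * (w : ℂ) := by
      push_cast
      ring
    rw [this, norm_mul, Complex.norm_real, Real.norm_eq_abs, mul_pow, sq_abs]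
    ring
  have h3 := UpperHalfPlane.sinh_half_dist w w'
  have hE : 0 < Real.exp b := Real.exp_pos b
  have h4 : Real.sinh (dist w w' / 2) ^ 2 = (Real.exp b - 1) ^ 2 * ‖(w : ℂ)‖ ^ 2 / (4 * (Real.exp b * w.im ^ 2)) := by
    rw [h3, div_pow, hdist, mul_pow, Real.sq_sqrt (by rw [him]; positivity), him]
    congr 1
    ring
  have hb2 : Real.exp b = Real.exp (b / 2) ^ 2 := by
    rw [← Real.exp_nat_mul]
    congr 1
    push_cast
    ring
  have hE2 : 0 < Real.exp (b / 2) := Real.exp_pos _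
  have h5 : tr A ^ 2 - 4 = (Real.exp b - 1) ^ 2 / Real.exp b := by
    rw [← sq_abs, ht, Real.cosh_eq, Real.exp_neg, hb2]
    field_simp
    ring
  have h6 : (Qf A y ^ 2 + tr A ^ 2 - 4) * w.im ^ 2 = (tr A ^ 2 - 4) * ‖(w : ℂ)‖ ^ 2 := by
    rw [← h2, h4, h5]
    field_simp
  have hre : (w : ℂ).im = w.im := rfl
  have h7 : Qf A y ^ 2 * (w : ℂ).im ^ 2 = (tr A ^ 2 - 4) * (w : ℂ).re ^ 2 := by
    rw [hn2, hre] at h6
    rw [hre]
    linear_combination h6
  rw [Complex.sin_arg, Complex.cos_arg hwne, div_pow, div_pow, mul_div_assoc', mul_div_assoc', h7]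

end Pool.Agent.Helper48.QH
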