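import Pool.Agent.Helper48.QH.Core

/-!
# QH, block A3: diagonalisation of a hyperbolic matrix

PROOF. `A = (p q; r s)`, `t = p + s`, `t^2 > 4`. The eigenvalues are real, `λ₁ λ₂ = 1`, `|λ₁| > 1`. Let `b = 2 log |λ₁| > 0`, so
`|t| = |λ₁| + 1/|λ₁| = 2 cosh (b/2)`. Left eigenvectors (rows) `v A = λ v`: if `r ≠ 0` take `v = (r, λ - p)` (the characteristic equation
`λ^2 - t λ + 1 = 0`); the determinant of the two rows is `r (λ₂ - λ₁) ≠ 0`. If `r = 0`, then `p s = 1`, `p ≠ s`, and the rows `(p - s, q)`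
(eigenvalue `p`) and `(0, 1)` (eigenvalue `s`) have determinant `p - s ≠ 0`. Let `M` have the row of `λ₁` as first row and the row of `λ₂` as second
row, one row scaled so that `det M = 1`. Then `M A = diag (λ₁, λ₂) M`, so `M • (A • z) = (M A) • z = diag (λ₁, λ₂) • (M • z) = (λ₁/λ₂) (M • z)` and
`λ₁/λ₂ = λ₁^2 = exp b`. (Without inverses: `M • (A • z) = (v₁ A (z,1)) / (v₂ A (z,1)) = λ₁ (v₁ (z,1)) / (λ₂ (v₂ (z,1)))`.)
-/

set_option autoImplicit false

open MeasureTheory UpperHalfPlane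
open scoped ContDiff MatrixGroups

noncomputable section

namespace Pool.Agent.Helper48.QH

/-- eigenvalues with `1 < λ^2` -/
private theorem eigen_h12 {t : ℝ} (h : 4 < t ^ 2) :
    ∃ l m : ℝ, l * m = 1 ∧ l + m = t ∧ 1 < l ^ 2 := by
  have hD : 0 < t ^ 2 - 4 := by linarith
  have hs := Real.sq_sqrt hD.le
  have hs0 := Real.sqrt_pos.mpr hD
  set D := Real.sqrt (t ^ 2 - 4) with hDdef
  have h1 : (t + D) / 2 * ((t - D) / 2) = 1 := by nlinarith
  have h2 : ((t + D) / 2) ^ 2 - ((t - D) / 2) ^ 2 = t * D := by ring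
  rcases lt_trichotomy t 0 with ht | ht | ht
  · refine ⟨(t - D) / 2, (t + D) / 2, by linarith [h1], by ring, ?_⟩
    have h3 : t * D < 0 := mul_neg_of_neg_of_pos ht hs0
    have h4 : ((t + D) / 2) ^ 2 * ((t - D) / 2) ^ 2 = 1 := by rw [← mul_pow, h1, one_pow]
    by_contra hn
    push Not at hn
    nlinarith [sq_nonneg ((t + D) / 2), sq_nonneg ((t - D) / 2)]
  · rw [ht] at h; norm_num at h
  · refine ⟨(t + D) / 2, (t - D) / 2, h1, by ring, ?_⟩
    have h3 : 0 < t * D := mul_pos ht hs0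
    have h4 : ((t + D) / 2) ^ 2 * ((t - D) / 2) ^ 2 = 1 := by rw [← mul_pow, h1, one_pow]
    by_contra hn
    push Not at hn
    nlinarith [sq_nonneg ((t + D) / 2), sq_nonneg ((t - D) / 2)]

/-- left eigenvectors -/
private theorem rows_h12 {p q r s l m : ℝ} (hdet : p * s - q * r = 1) (hlm : l * m = 1)
    (hsum : l + m = p + s) (hl : 1 < l ^ 2) :
    ∃ u1 u2 v1 v2 : ℝ, u1 * v2 - u2 * v1 ≠ 0 ∧ u1 * p + u2 * r = l * u1 ∧
      u1 * q + u2 * s = l * u2 ∧ v1 * p + v2 * r = m * v1 ∧ v1 * q + v2 * s = m * v2 := by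
  have hne : l ≠ m := by
    intro h
    rw [← h] at hlm
    nlinarith
  have hm : m = p + s - l := by linarith
  rcases eq_or_ne r 0 with hr | hr
  · have h0 : (l - p) * (l - s) = 0 := by
      rw [hr] at hdet
      rw [hm] at hlm
      linear_combination hdet - hlm
    rcases mul_eq_zero.mp h0 with h1 | h1
    · have hlp : l = p := by linarith
      have hms : m = s := by linarith
      refine ⟨p - s, q, 0, 1, ?_, ?_, ?_, ?_, ?_⟩
      · rw [mul_zero, sub_zero, mul_one, ← hlp, ← hms]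
        exact sub_ne_zero.mpr hne
      · rw [hr, hlp]; ring
      · rw [hlp]; ring
      · rw [hr]; ring
      · rw [hms]; ring
    · have hls : l = s := by linarith
      have hmp : m = p := by linarith
      refine ⟨0, 1, p - s, q, ?_, ?_, ?_, ?_, ?_⟩
      · rw [zero_mul, one_mul, zero_sub, ← hls, ← hmp, neg_sub]
        exact sub_ne_zero.mpr hne
      · rw [hr]; ring
      · rw [hls]; ring
      · rw [hr, hmp]; ring
      · rw [hmp]; ring
  · refine ⟨r, l - p, r, m - p, ?_, by ring, ?_, by ring, ?_⟩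
    · have h1 : r * (m - p) - (l - p) * r = r * (m - l) := by ring
      rw [h1]
      exact mul_ne_zero hr (sub_ne_zero.mpr hne.symm)
    · rw [hm] at hlm
      linear_combination hlm - hdet
    · have hl2 : l = p + s - m := by linarith
      rw [hl2] at hlm
      linear_combination hlm - hdet

theorem exists_diag (A : SL(2, ℝ)) (h : 4 < tr A ^ 2) :
    ∃ (M : SL(2, ℝ)) (b : ℝ), 0 < b ∧ |tr A| = 2 * Real.cosh (b / 2) ∧
      ∀ z : ℍ, ((M • (A • z) : ℍ) : ℂ) = (Real.exp b : ℂ) * ((M • z : ℍ) : ℂ) := by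
  obtain ⟨l, m, hlm, hsum, hl⟩ := eigen_h12 h
  have hdet : A 0 0 * A 1 1 - A 0 1 * A 1 0 = 1 := by
    have h1 := A.det_coe
    rw [Matrix.det_fin_two] at h1
    exact h1
  obtain ⟨u1, u2, v1, v2, hd, hu1, hu2, hv1, hv2⟩ := rows_h12 hdet hlm hsum hl
  have hl0 : l ≠ 0 := by
    rintro rfl
    norm_num at hl
  have hm0 : m ≠ 0 := by
    rintro rfl
    norm_num at hlm
  set δ := u1 * v2 - u2 * v1 with hδ
  let M : SL(2, ℝ) := ⟨!![u1 / δ, u2 / δ; v1, v2], by
    rw [Matrix.det_fin_two_of]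
    field_simp
    rw [hδ]⟩
  have hM00 : M 0 0 = u1 / δ := rfl
  have hM01 : M 0 1 = u2 / δ := rfl
  have hM10 : M 1 0 = v1 := rfl
  have hM11 : M 1 1 = v2 := rfl
  have hexp : Real.exp (2 * Real.log |l|) = l ^ 2 := by
    rw [mul_comm, ← Real.rpow_def_of_pos (abs_pos.mpr hl0)]
    rw [Real.rpow_two, sq_abs]
  refine ⟨M, 2 * Real.log |l|, ?_, ?_, ?_⟩
  · have h1 : 1 < |l| := by
      rw [← one_lt_sq_iff₀ (abs_nonneg l), sq_abs]
      exact hl
    have := Real.log_pos h1
    linarith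
  · have h1 : 2 * Real.log |l| / 2 = Real.log |l| := by ring
    rw [h1, Real.cosh_eq, Real.exp_neg, Real.exp_log (abs_pos.mpr hl0)]
    have h2 : tr A = l + m := hsum.symm
    have h3 : m = l⁻¹ := by
      field_simp
      linarith
    rw [h2, h3]
    rcases lt_or_gt_of_ne hl0 with h4 | h4
    · have h5 : l⁻¹ < 0 := inv_lt_zero.mpr h4
      rw [abs_of_neg h4, abs_of_neg (by linarith), inv_neg]
      ring
    · have h5 : 0 < l⁻¹ := inv_pos.mpr h4
      rw [abs_of_pos h4, abs_of_pos (by linarith)]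
      ring
  · intro z
    have e00 : (M * A) 0 0 = l * (u1 / δ) := by
      rw [Matrix.SpecialLinearGroup.coe_mul, Matrix.mul_apply, Fin.sum_univ_two]
      rw [hM00, hM01]
      field_simp
      linarith
    have e01 : (M * A) 0 1 = l * (u2 / δ) := by
      rw [Matrix.SpecialLinearGroup.coe_mul, Matrix.mul_apply, Fin.sum_univ_two]
      rw [hM00, hM01]
      field_simp
      linarith
    have e10 : (M * A) 1 0 = m * v1 := by
      rw [Matrix.SpecialLinearGroup.coe_mul, Matrix.mul_apply, Fin.sum_univ_two]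
      rw [hM10, hM11]
      linarith
    have e11 : (M * A) 1 1 = m * v2 := by
      rw [Matrix.SpecialLinearGroup.coe_mul, Matrix.mul_apply, Fin.sum_univ_two]
      rw [hM10, hM11]
      linarith
    have hden : (v1 : ℂ) * z + v2 ≠ 0 := by
      have h1 := denom_ne_zero (M : GL (Fin 2) ℝ) z
      simpa [denom, hM10, hM11] using h1
    rw [← mul_smul, coe_specialLinearGroup_apply, coe_specialLinearGroup_apply, hexp, e00, e01,
      e10, e11, hM00, hM01, hM10, hM11]
    simp only [Algebra.algebraMap_self, RingHom.id_apply]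
    have hmC : (m : ℂ) = (l : ℂ)⁻¹ := by
      have h1 : (l : ℂ) * m = 1 := by exact_mod_cast hlm
      have h2 : (l : ℂ) ≠ 0 := by exact_mod_cast hl0
      field_simp
      rw [mul_comm]; exact h1
    have hlC : (l : ℂ) ≠ 0 := by exact_mod_cast hl0
    have hδC : (δ : ℂ) ≠ 0 := by exact_mod_cast hd
    push_cast
    rw [hmC]
    have hden2 : (l : ℂ)⁻¹ * v1 * z + (l : ℂ)⁻¹ * v2 ≠ 0 := by
      have : (l : ℂ)⁻¹ * v1 * z + (l : ℂ)⁻¹ * v2 = (l : ℂ)⁻¹ * (v1 * z + v2) := by ring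
      rw [this]
      exact mul_ne_zero (inv_ne_zero hlC) hden
    field_simp

end Pool.Agent.Helper48.QH
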