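import Pool.Agent.Helper48.QH.Core

/-!
# QH, block B1a: pull-back of a vector field by a conformal map

`pull φ Ω q z = q (φ z) * conj (φ' z)` on `Ω`, zero outside.

PROOF. Support: `pull φ Ω q` vanishes outside `ψ '' tsupport q`, which is compact (image of a compact subset of `V` under the map `ψ`, continuous on `V`)
and contained in `Ω`; so it is closed and contains `tsupport`. Smoothness: on the open set `Ω` the functions `φ` and `deriv φ` are holomorphic, hence
`ContDiffOn ℂ`, restrict scalars to `ℝ`; on the open complement of `ψ '' tsupport q` the function is zero; the two open sets cover `ℂ`.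
`dvg_pull`: at `z ∈ Ω`, `D(pull)(h) = Dq(φ z)(φ' h) * conj φ' + q(φ z) * conj (φ'' h)` (product rule and chain rule, `φ` and `deriv φ` are complex
differentiable at `z`). With `φ' = a + b i`, `X = Dq 1`, `Y = Dq i`, `Dq (φ') = a X + b Y`, `Dq (φ' i) = a Y - b X` (real linear), and
`re ((a - b i)(a X + b Y)) + im ((a - b i)(a Y - b X)) = (a^2 + b^2) (re X + im Y)`, `re (q conj φ'') + im (q conj (φ'' i)) = 0`.
`dvg_pull_out`: for `z ∉ Ω` the function is zero near `z` (as `z ∉ ψ '' tsupport q`), so `fderiv = 0`.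
-/

set_option autoImplicit false

open MeasureTheory UpperHalfPlane
open scoped ContDiff MatrixGroups

noncomputable section

namespace Pool.Agent.Helper48.QH

variable {φ ψ : ℂ → ℂ} {Ω V : Set ℂ}

theorem tsupport_pull (h : Conf φ ψ Ω V) {q : ℂ → ℂ} (hc : HasCompactSupport q)
    (hs : tsupport q ⊆ V) : IsCompact (ψ '' tsupport q) ∧ tsupport (pull φ Ω q) ⊆ ψ '' tsupport q := by
  have hK : IsCompact (ψ '' tsupport q) :=
    hc.isCompact.image_of_continuousOn (h.diffψ.continuousOn.mono hs)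
  refine ⟨hK, ?_⟩
  apply closure_minimal _ hK.isClosed
  intro z hz
  rw [Function.mem_support] at hz
  unfold pull at hz
  split_ifs at hz with hzΩ
  · have : q (φ z) ≠ 0 := left_ne_zero_of_mul hz
    exact ⟨φ z, subset_tsupport q this, h.ψφ z hzΩ⟩
  · exact absurd rfl hz

theorem pull_eventually_zero (h : Conf φ ψ Ω V) {q : ℂ → ℂ} (hc : HasCompactSupport q)
    (hs : tsupport q ⊆ V) {z : ℂ} (hz : z ∉ Ω) : pull φ Ω q =ᶠ[nhds z] 0 := by
  rw [← notMem_tsupport_iff_eventuallyEq]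
  intro hz1
  obtain ⟨w, hw, rfl⟩ := (tsupport_pull h hc hs).2 hz1
  exact hz (h.mapsψ w (hs hw))

theorem pull_eventually_eq (h : Conf φ ψ Ω V) (q : ℂ → ℂ) {z : ℂ} (hz : z ∈ Ω) :
    pull φ Ω q =ᶠ[nhds z] fun w => q (φ w) * (starRingEnd ℂ) (deriv φ w) := by
  filter_upwards [h.openΩ.mem_nhds hz] with w hw
  unfold pull
  rw [if_pos hw]

theorem contDiff_pull (h : Conf φ ψ Ω V) {q : ℂ → ℂ} (hq : ContDiff ℝ ∞ q) (hc : HasCompactSupport q)
    (hs : tsupport q ⊆ V) : ContDiff ℝ ∞ (pull φ Ω q) := by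
  rw [contDiff_iff_contDiffAt]
  intro z
  by_cases hz : z ∈ Ω
  · refine ContDiffAt.congr_of_eventuallyEq ?_ (pull_eventually_eq h q hz)
    have h1 : ContDiffAt ℝ ∞ φ z :=
      ((h.diffφ.contDiffOn h.openΩ).contDiffAt (h.openΩ.mem_nhds hz)).restrict_scalars ℝ
    have h2 : ContDiffAt ℝ ∞ (deriv φ) z :=
      (((h.diffφ.deriv h.openΩ).contDiffOn h.openΩ).contDiffAt
        (h.openΩ.mem_nhds hz)).restrict_scalars ℝ
    have h3 : ContDiffAt ℝ ∞ (fun w => (starRingEnd ℂ) (deriv φ w)) z :=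
      Complex.conjCLE.contDiff.contDiffAt.comp z h2
    exact (hq.contDiffAt.comp z h1).mul h3
  · exact contDiffAt_const.congr_of_eventuallyEq (pull_eventually_zero h hc hs hz)

theorem dvg_pull (h : Conf φ ψ Ω V) {q : ℂ → ℂ} (hq : ContDiff ℝ ∞ q) {z : ℂ} (hz : z ∈ Ω) :
    dvg (pull φ Ω q) z = ‖deriv φ z‖ ^ 2 * dvg q (φ z) := by
  have h1 : HasFDerivAt φ (deriv φ z • (1 : ℂ →L[ℝ] ℂ)) z :=
    (h.diffφ.hasDerivAt (h.openΩ.mem_nhds hz)).complexToReal_fderiv
  have h2 : HasFDerivAt (deriv φ) (deriv (deriv φ) z • (1 : ℂ →L[ℝ] ℂ)) z :=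
    ((h.diffφ.deriv h.openΩ).hasDerivAt (h.openΩ.mem_nhds hz)).complexToReal_fderiv
  have h3 : HasFDerivAt (fun w => (starRingEnd ℂ) (deriv φ w))
      ((Complex.conjCLE : ℂ →L[ℝ] ℂ).comp (deriv (deriv φ) z • (1 : ℂ →L[ℝ] ℂ))) z :=
    (Complex.conjCLE : ℂ →L[ℝ] ℂ).hasFDerivAt.comp z h2
  have h4 : HasFDerivAt (fun w => q (φ w))
      ((fderiv ℝ q (φ z)).comp (deriv φ z • (1 : ℂ →L[ℝ] ℂ))) z :=
    (hq.differentiable (by simp) (φ z)).hasFDerivAt.comp z h1
  have h5 := (h4.mul h3).fderiv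
  have h6 : fderiv ℝ (pull φ Ω q) z = _ := (pull_eventually_eq h q hz).fderiv_eq.trans h5
  have e1 : fderiv ℝ q (φ z) (deriv φ z) =
      (deriv φ z).re • fderiv ℝ q (φ z) 1 + (deriv φ z).im • fderiv ℝ q (φ z) Complex.I := by
    rw [← map_smul, ← map_smul, ← map_add]
    congr 1
    apply Complex.ext <;> simp
  have e2 : fderiv ℝ q (φ z) (deriv φ z * Complex.I) =
      (deriv φ z).re • fderiv ℝ q (φ z) Complex.I - (deriv φ z).im • fderiv ℝ q (φ z) 1 := by
    rw [← map_smul, ← map_smul, ← map_sub]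
    congr 1
    apply Complex.ext <;> simp
  unfold dvg
  rw [h6, Complex.sq_norm, Complex.normSq_apply]
  simp only [ContinuousLinearMap.add_apply, ContinuousLinearMap.smul_apply,
    ContinuousLinearMap.comp_apply, ContinuousLinearMap.one_apply, smul_eq_mul, mul_one,
    ContinuousLinearEquiv.coe_coe, Complex.conjCLE_apply, e1, e2]
  simp only [Complex.add_re, Complex.add_im, Complex.sub_re, Complex.sub_im, Complex.mul_re,
    Complex.mul_im, Complex.real_smul, Complex.ofReal_re, Complex.ofReal_im, Complex.conj_re,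
    Complex.conj_im, Complex.I_re, Complex.I_im]
  ring

theorem dvg_pull_out (h : Conf φ ψ Ω V) {q : ℂ → ℂ} (hc : HasCompactSupport q)
    (hs : tsupport q ⊆ V) {z : ℂ} (hz : z ∉ Ω) : dvg (pull φ Ω q) z = 0 := by
  have h1 : fderiv ℝ (pull φ Ω q) z = 0 := by
    rw [(pull_eventually_zero h hc hs hz).fderiv_eq]
    simp
  unfold dvg
  rw [h1]
  simp

end Pool.Agent.Helper48.QH
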