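import Pool.Agent.Helper48.QH.Core
import Pool.Agent.Helper48.QH.Pull

/-!
# QH, block B1b: change of variables for a conformal map

PROOF. `φ` is injective on `Ω` (left inverse `ψ`), `φ '' Ω = V`, and at `z ∈ Ω` it has the real derivative multiplication by `deriv φ z`, of
determinant `‖deriv φ z‖^2` (see `Mathlib/Analysis/Complex/UpperHalfPlane/Measure.lean` and `Manifold.lean` for the determinant;
`LinearMap.det` of `Complex` multiplication is `Complex.normSq`). So `integral_image_eq_integral_abs_det_fderiv_smul` (for `Ω`, all functions) and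
`lintegral_image_eq_lintegral_abs_det_fderiv_mul` (for measurable `S ⊆ Ω`) apply.
`integral_dvg_pull`: `∫ v dvg (pull) = ∫_Ω v(z) ‖φ'‖^2 dvg q (φ z)` by `dvg_pull`, `dvg_pull_out` `= ∫_Ω ‖φ'‖^2 (v ∘ ψ · dvg q)(φ z) = ∫_V v (ψ w) dvg q w`, and
`dvg q = 0` outside `tsupport q ⊆ V`. `integral_norm_pull`: the same with `‖pull‖^2 = ‖q (φ z)‖^2 ‖φ'‖^2`.
-/

set_option autoImplicit false

open MeasureTheory UpperHalfPlane
open scoped ContDiff MatrixGroups

noncomputable section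

namespace Pool.Agent.Helper48.QH

variable {φ ψ : ℂ → ℂ} {Ω V : Set ℂ}

private theorem det_smul_one85 (c : ℂ) : (c • (1 : ℂ →L[ℝ] ℂ)).det = ‖c‖ ^ 2 := by
  rw [Complex.sq_norm, ← Algebra.norm_complex_apply, Algebra.norm_apply]
  unfold ContinuousLinearMap.det
  congr 1

private theorem conf_fderiv85 (h : Conf φ ψ Ω V) {S : Set ℂ} (hS : S ⊆ Ω) : ∀ z ∈ S,
    HasFDerivWithinAt φ (deriv φ z • (1 : ℂ →L[ℝ] ℂ)) S z := fun _ hz =>
  ((h.diffφ.hasDerivAt (h.openΩ.mem_nhds (hS hz))).complexToReal_fderiv).hasFDerivWithinAt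

private theorem conf_inj85 (h : Conf φ ψ Ω V) {S : Set ℂ} (hS : S ⊆ Ω) : Set.InjOn φ S := by
  intro x hx y hy hxy
  rw [← h.ψφ x (hS hx), hxy, h.ψφ y (hS hy)]

private theorem conf_image85 (h : Conf φ ψ Ω V) : φ '' Ω = V := by
  ext w
  constructor
  · rintro ⟨z, hz, rfl⟩
    exact h.mapsφ z hz
  · intro hw
    exact ⟨ψ w, h.mapsψ w hw, h.φψ w hw⟩

private theorem conf_integral85 (h : Conf φ ψ Ω V) (g : ℂ → ℝ) :
    ∫ w in V, g w = ∫ z in Ω, ‖deriv φ z‖ ^ 2 * g (φ z) := by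
  have h1 := integral_image_eq_integral_abs_det_fderiv_smul volume h.openΩ.measurableSet
    (conf_fderiv85 h subset_rfl) (conf_inj85 h subset_rfl) g
  rw [conf_image85 h] at h1
  rw [h1]
  refine integral_congr_ae (Filter.Eventually.of_forall fun z => ?_)
  simp only
  rw [det_smul_one85, abs_of_nonneg (by positivity), smul_eq_mul]

theorem integral_dvg_pull (h : Conf φ ψ Ω V) {q : ℂ → ℂ} (hq : ContDiff ℝ ∞ q)
    (hc : HasCompactSupport q) (hs : tsupport q ⊆ V) (v : ℂ → ℝ) :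
    ∫ z, v z * dvg (pull φ Ω q) z = ∫ w, v (ψ w) * dvg q w := by
  have h1 : ∫ z, v z * dvg (pull φ Ω q) z = ∫ z in Ω, ‖deriv φ z‖ ^ 2 * (v (ψ (φ z)) * dvg q (φ z)) := by
    rw [← setIntegral_eq_integral_of_forall_compl_eq_zero (s := Ω)]
    · apply setIntegral_congr_fun h.openΩ.measurableSet
      intro z hz
      simp only
      rw [dvg_pull h hq hz, h.ψφ z hz]
      ring
    · intro z hz
      rw [dvg_pull_out h hc hs hz, mul_zero]
  rw [h1, ← conf_integral85 h (fun w => v (ψ w) * dvg q w)]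
  apply setIntegral_eq_integral_of_forall_compl_eq_zero
  intro w hw
  have h2 : q =ᶠ[nhds w] 0 := by
    rw [← notMem_tsupport_iff_eventuallyEq]
    exact fun h3 => hw (hs h3)
  have h3 : dvg q w = 0 := by
    unfold dvg
    rw [h2.fderiv_eq]
    simp
  rw [h3, mul_zero]

theorem integral_norm_pull (h : Conf φ ψ Ω V) {q : ℂ → ℂ} (hs : tsupport q ⊆ V) :
    ∫ z, ‖pull φ Ω q z‖ ^ 2 = ∫ w, ‖q w‖ ^ 2 := by
  have h1 : ∫ z, ‖pull φ Ω q z‖ ^ 2 = ∫ z in Ω, ‖deriv φ z‖ ^ 2 * ‖q (φ z)‖ ^ 2 := by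
    rw [← setIntegral_eq_integral_of_forall_compl_eq_zero (s := Ω)]
    · apply setIntegral_congr_fun h.openΩ.measurableSet
      intro z hz
      simp only
      unfold pull
      rw [if_pos hz, norm_mul, mul_pow, RCLike.norm_conj, mul_comm]
    · intro z hz
      unfold pull
      rw [if_neg hz]
      simp
  rw [h1, ← conf_integral85 h (fun w => ‖q w‖ ^ 2)]
  apply setIntegral_eq_integral_of_forall_compl_eq_zero
  intro w hw
  have h2 : q w = 0 := by
    by_contra h3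
    exact hw (hs (subset_tsupport q h3))
  rw [h2]
  simp

theorem volume_image_conf (h : Conf φ ψ Ω V) {S : Set ℂ} (hS : MeasurableSet S) (hSΩ : S ⊆ Ω) :
    volume (φ '' S) = ∫⁻ z in S, ENNReal.ofReal (‖deriv φ z‖ ^ 2) := by
  rw [← lintegral_abs_det_fderiv_eq_addHaar_image volume hS (conf_fderiv85 h hSΩ) (conf_inj85 h hSΩ)]
  refine lintegral_congr fun z => ?_
  rw [det_smul_one85, abs_of_nonneg (by positivity)]

end Pool.Agent.Helper48.QH
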