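import Pool.Agent.Helper48.QH.Core

/-!
# QH, block B2: the logarithmic chart of the upper half-plane

`chart M z = log (M • z)`, a conformal equivalence of `{0 < im}` onto `Strip`, with inverse `chartInv M w = M⁻¹ • exp w`.

PROOF. `ofComplex` is the identity on `{0 < im}`; `z ↦ ((M • ofComplex z : ℍ) : ℂ)` is differentiable there (`hasStrictDerivAt_smul`,
`mdifferentiable_smul` in `Mathlib/Analysis/Complex/UpperHalfPlane/Manifold.lean`, for `M` viewed in `GL(2, ℝ)` of determinant `1 > 0`) with values in `{0 < im}`, on which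
`Complex.log` is differentiable (`slitPlane`) with imaginary part `arg ∈ (0, π)` (`Complex.arg_mem_Ioo`-type lemmas; `0 < im z ↔ 0 < arg z < π`). For `w ∈ Strip`,
`exp w` has imaginary part `exp (re w) sin (im w) > 0`, `log (exp w) = w` as `im w ∈ (-π, π]`, `exp (log z) = z`.
`chart_re_im`: for `u = re ∘ chart N` or `im ∘ chart N`: smooth on `{0 < im}` (holomorphic), and `‖fderiv ℝ u w‖ = ‖deriv (chart N) w‖`
(`fderiv ℝ u w h = re (c h)` or `im (c h)` with `c = deriv (chart N) w`, and the norm of `h ↦ re (c h)` is `‖c‖`: take `h = conj c`, or `h = i conj c`).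
`chart_smul`: if `N • (h • z) = exp b * (N • z)` then `log` adds `b` (`Complex.log_ofReal_mul` or `log (exp b * w) = b + log w` for `w ∈ ℍ`).
-/

set_option autoImplicit false

open MeasureTheory UpperHalfPlane
open scoped ContDiff MatrixGroups

noncomputable section

namespace Pool.Agent.Helper48.QH

/-! helper lemmas -/

private theorem ch_mob_analytic (M : SL(2, ℝ)) {z : ℂ} (hz : 0 < z.im) :
    AnalyticAt ℂ (fun w : ℂ => ((M • ofComplex w : ℍ) : ℂ)) z := by
  have h := analyticAt_smul (g := Matrix.SpecialLinearGroup.mapGL ℝ M) (by simp) (⟨z, hz⟩ : ℍ)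
  exact h

private theorem ch_mob_im (M : SL(2, ℝ)) (z : ℂ) : 0 < (((M • ofComplex z : ℍ) : ℂ)).im :=
  (M • ofComplex z : ℍ).im_pos

private theorem ch_slit {z : ℂ} (hz : 0 < z.im) : z ∈ Complex.slitPlane :=
  Complex.mem_slitPlane_iff.2 (Or.inr hz.ne')

private theorem ch_arg_pos {z : ℂ} (hz : 0 < z.im) : 0 < Complex.arg z := by
  rcases (Complex.arg_nonneg_iff.2 hz.le).lt_or_eq with h | h
  · exact h
  · exfalso
    have h2 := (Complex.arg_eq_zero_iff.1 h.symm).2
    exact hz.ne' h2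

private theorem ch_arg_lt {z : ℂ} (hz : 0 < z.im) : Complex.arg z < Real.pi :=
  Complex.arg_lt_pi_iff.2 (Or.inr hz.ne')

private theorem ch_exp_im {w : ℂ} (hw : w ∈ Strip) : 0 < (Complex.exp w).im := by
  rw [Complex.exp_im]
  exact mul_pos (Real.exp_pos _) (Real.sin_pos_of_pos_of_lt_pi hw.1 hw.2)

private theorem ch_log_strip {z : ℂ} (hz : 0 < z.im) : Complex.log z ∈ Strip := by
  refine ⟨?_, ?_⟩
  · rw [Complex.log_im]; exact ch_arg_pos hz
  · rw [Complex.log_im]; exact ch_arg_lt hz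

private theorem ch_analytic (M : SL(2, ℝ)) {z : ℂ} (hz : 0 < z.im) :
    AnalyticAt ℂ (chart M) z := by
  have h := (ch_mob_analytic M hz).clog (ch_slit (ch_mob_im M z))
  exact h

private theorem ch_cn {z : ℂ} (hz : 0 < z.im) : ((ofComplex z : ℍ) : ℂ) = z := by
  rw [ofComplex_apply_of_im_pos hz]

private theorem ch_inv_diff (M : SL(2, ℝ)) {w : ℂ} (hw : w ∈ Strip) :
    DifferentiableAt ℂ (chartInv M) w := by
  have h1 := (ch_mob_analytic M⁻¹ (ch_exp_im hw)).differentiableAt
  exact h1.comp w Complex.differentiable_exp.differentiableAt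

theorem conf_chart (M : SL(2, ℝ)) : Conf (chart M) (chartInv M) {z | 0 < z.im} Strip where
  openΩ := isOpen_lt continuous_const Complex.continuous_im
  openV := (isOpen_lt continuous_const Complex.continuous_im).inter
    (isOpen_lt Complex.continuous_im continuous_const)
  diffφ := fun _ hz => (ch_analytic M hz).differentiableAt.differentiableWithinAt
  diffψ := fun _ hw => (ch_inv_diff M hw).differentiableWithinAt
  mapsφ := fun z _ => ch_log_strip (ch_mob_im M z)
  mapsψ := fun w _ => (M⁻¹ • ofComplex (Complex.exp w) : ℍ).im_pos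
  ψφ := by
    intro z hz
    have h0 : ((M • ofComplex z : ℍ) : ℂ) ≠ 0 := by
      intro h
      have h2 := ch_mob_im M z
      rw [h] at h2
      simp at h2
    change ((M⁻¹ • ofComplex (Complex.exp (Complex.log ((M • ofComplex z : ℍ) : ℂ))) : ℍ) : ℂ) = z
    rw [Complex.exp_log h0, ofComplex_apply, inv_smul_smul]
    exact ch_cn hz
  φψ := by
    intro w hw
    change Complex.log ((M • ofComplex (((M⁻¹ • ofComplex (Complex.exp w) : ℍ) : ℂ)) : ℍ) : ℂ) = w
    rw [ofComplex_apply, smul_inv_smul, ch_cn (ch_exp_im hw)]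
    exact Complex.log_exp (by linarith [hw.1, Real.pi_pos]) hw.2.le

theorem chart_coe (M : SL(2, ℝ)) (z : ℍ) : chart M (z : ℂ) = Complex.log ((M • z : ℍ) : ℂ) := by
  rw [chart, ofComplex_apply]

theorem chart_im (M : SL(2, ℝ)) (z : ℍ) : (chart M (z : ℂ)).im = Complex.arg ((M • z : ℍ) : ℂ) := by
  rw [chart_coe, Complex.log_im]

theorem chart_smul (N h : SL(2, ℝ)) (b : ℝ)
    (hN : ∀ z : ℍ, ((N • (h • z) : ℍ) : ℂ) = (Real.exp b : ℂ) * ((N • z : ℍ) : ℂ)) (z : ℍ) :
    chart N ((h • z : ℍ) : ℂ) = chart N (z : ℂ) + b := by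
  rw [chart_coe, chart_coe, hN z]
  rw [Complex.log_ofReal_mul (Real.exp_pos b) (ne_zero (N • z)), Real.log_exp, add_comm]

private theorem ch_smooth (N : SL(2, ℝ)) : ContDiffOn ℝ ∞ (chart N) {z | 0 < z.im} := by
  intro z hz
  have h : ContDiffAt ℂ ∞ (chart N) z := (ch_analytic N hz).contDiffAt
  exact (h.restrict_scalars ℝ).contDiffWithinAt

theorem chart_re_smooth (N : SL(2, ℝ)) : ContDiffOn ℝ ∞ (fun z => (chart N z).re) {z | 0 < z.im} :=
  Complex.reCLM.contDiff.comp_contDiffOn (ch_smooth N)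

theorem chart_im_smooth (N : SL(2, ℝ)) : ContDiffOn ℝ ∞ (fun z => (chart N z).im) {z | 0 < z.im} :=
  Complex.imCLM.contDiff.comp_contDiffOn (ch_smooth N)

private theorem ch_fd (N : SL(2, ℝ)) {w : ℂ} (hw : 0 < w.im) :
    HasFDerivAt (chart N) ((ContinuousLinearMap.toSpanSingleton ℂ (deriv (chart N) w)).restrictScalars ℝ) w := by
  have h := (ch_analytic N hw).differentiableAt.hasDerivAt.hasFDerivAt
  exact h.restrictScalars ℝ

private theorem ch_norm_re (c : ℂ) (L : ℂ →L[ℝ] ℝ) (hL : ∀ h, L h = (c * h).re) : ‖L‖ = ‖c‖ := by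
  apply le_antisymm
  · refine L.opNorm_le_bound (norm_nonneg _) fun h => ?_
    rw [hL, Real.norm_eq_abs, ← norm_mul]
    exact Complex.abs_re_le_norm _
  · by_cases hc : c = 0
    · rw [hc, norm_zero]; exact norm_nonneg _
    · have h1 := L.le_opNorm ((starRingEnd ℂ) c)
      rw [hL, Complex.mul_conj, Complex.ofReal_re, Real.norm_eq_abs, Complex.norm_conj,
        Complex.normSq_eq_norm_sq, abs_of_nonneg (by positivity), pow_two] at h1
      exact le_of_mul_le_mul_right h1 (norm_pos_iff.2 hc)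

private theorem ch_norm_im (c : ℂ) (L : ℂ →L[ℝ] ℝ) (hL : ∀ h, L h = (c * h).im) : ‖L‖ = ‖c‖ := by
  have h := ch_norm_re (-Complex.I * c) L (fun h => by
    rw [hL]; simp)
  rw [h, norm_mul]; simp

theorem chart_re_fderiv (N : SL(2, ℝ)) {w : ℂ} (hw : 0 < w.im) :
    ‖fderiv ℝ (fun z => (chart N z).re) w‖ = ‖deriv (chart N) w‖ := by
  have h : HasFDerivAt (fun z => (chart N z).re) (Complex.reCLM.comp
      ((ContinuousLinearMap.toSpanSingleton ℂ (deriv (chart N) w)).restrictScalars ℝ)) w :=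
    Complex.reCLM.hasFDerivAt.comp w (ch_fd N hw)
  rw [h.fderiv]
  refine ch_norm_re _ _ (fun h => ?_)
  simp [mul_comm]

theorem chart_im_fderiv (N : SL(2, ℝ)) {w : ℂ} (hw : 0 < w.im) :
    ‖fderiv ℝ (fun z => (chart N z).im) w‖ = ‖deriv (chart N) w‖ := by
  have h : HasFDerivAt (fun z => (chart N z).im) (Complex.imCLM.comp
      ((ContinuousLinearMap.toSpanSingleton ℂ (deriv (chart N) w)).restrictScalars ℝ)) w :=
    Complex.imCLM.hasFDerivAt.comp w (ch_fd N hw)
  rw [h.fderiv]
  refine ch_norm_im _ _ (fun h => ?_)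
  simp [mul_comm]

end Pool.Agent.Helper48.QH
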