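import Pool.Agent.Helper48.QH.Core
import Pool.Agent.Helper48.QH.Pull
import Pool.Agent.Helper48.QH.Change
import Pool.Agent.Helper48.QH.Chart

/-!
# QH, block B3: a quasiconformal map read in the strip

`stripF M N f w = chart N (f (chartInv M w))`, with inverse `stripG M N f w = chart M (f.symm (chartInv N w))`.

PROOF. `stripMap_of_qc`: continuity, `mapsTo`, inverses from `conf_chart` (for `z` with `0 < im z`, `ofComplex z` has coercion `z`). Periodicity: for `w ∈ Strip`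
let `z : ℍ` be `ofComplex (chartInv M w)`; `chart M (γ • z) = chart M z + a = w + a` (`chart_smul`), so `chartInv M (w + a) = γ • z`, `f (γ • z) = h • f z` and
`chart N (h • f z) = chart N (f z) + b`.
`stripEn_re`, `stripEn_im`: let `U ⊆ Strip` open, `q` a test field with `tsupport q ⊆ U`, `p = pull (chart M) {0 < im} q`, `U' = chartInv M '' U` (open: it is
`{0 < im} ∩ (chart M)⁻¹' U`). Then `p` is smooth, of compact support contained in `chartInv M '' tsupport q ⊆ U'` (`Pull.lean`), and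
`∫ u (f z) dvg p = ∫ u (f (chartInv M w)) dvg q w` (`integral_dvg_pull` with `v z = u (f (ofComplex z))`), `∫ ‖p‖^2 = ∫ ‖q‖^2`; for `u = re ∘ chart N` we have
`u (f (chartInv M w)) = re (stripF M N f w)`. The set `T = {w | ∃ z : ℍ, z ∈ U' ∧ f z = w}` on the right of `IsQC` is open, contained in `{0 < im}`, and
`∫⁻_T ‖fderiv u‖^2 = ∫⁻_T ‖deriv (chart N)‖^2 = volume (chart N '' T)` (`chart_re_fderiv`, `volume_image_conf`) and `chart N '' T = stripF '' U`.
So `ofReal (LHS) ≤ ofReal K * ofReal A = ofReal (K A)`, hence `LHS ≤ K A` as `0 ≤ K A`.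
-/

set_option autoImplicit false

open MeasureTheory UpperHalfPlane
open scoped ContDiff MatrixGroups

noncomputable section

namespace Pool.Agent.Helper48.QH

/-- `f` read in the strip -/
def stripF (M N : SL(2, ℝ)) (f : ℍ ≃ₜ ℍ) (w : ℂ) : ℂ :=
  chart N ((f (ofComplex (chartInv M w)) : ℍ) : ℂ)

private theorem ofC32 {z : ℂ} (hz : 0 < z.im) : ((ofComplex z : ℍ) : ℂ) = z := by
  rw [ofComplex_apply_of_im_pos hz]

private theorem im_pos32 (z : ℍ) : 0 < (z : ℂ).im := z.im_pos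

private theorem cont_ofC32 : ContinuousOn (fun z : ℂ => (ofComplex z : ℍ)) {z : ℂ | 0 < z.im} := by
  intro z hz
  exact (contMDiffAt_ofComplex (n := 0) hz).continuousAt.continuousWithinAt

private theorem cont_f32 (M N : SL(2, ℝ)) (f : ℍ ≃ₜ ℍ) : ContinuousOn (stripF M N f) Strip := by
  have hM := conf_chart M
  have hN := conf_chart N
  have h1 : ContinuousOn (fun w => (ofComplex (chartInv M w) : ℍ)) Strip :=
    cont_ofC32.comp hM.diffψ.continuousOn hM.mapsψ
  have h2 : ContinuousOn (fun w => ((f (ofComplex (chartInv M w)) : ℍ) : ℂ)) Strip := by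
    have h3 : Continuous (fun z : ℍ => ((f z : ℍ) : ℂ)) := continuous_coe.comp f.continuous
    exact h3.comp_continuousOn h1
  exact hN.diffφ.continuousOn.comp h2 fun w _ => im_pos32 _

private theorem maps_f32 (M N : SL(2, ℝ)) (f : ℍ ≃ₜ ℍ) (w : ℂ) : stripF M N f w ∈ Strip :=
  (conf_chart N).mapsφ _ (im_pos32 _)

private theorem inv_f32 (M N : SL(2, ℝ)) (f : ℍ ≃ₜ ℍ) {w : ℂ} (hw : w ∈ Strip) :
    stripF N M f.symm (stripF M N f w) = w := by
  have hM := conf_chart M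
  have hN := conf_chart N
  unfold stripF
  rw [hN.ψφ _ (im_pos32 _), ofComplex_apply, Homeomorph.symm_apply_apply, ofC32 (hM.mapsψ w hw),
    hM.φψ w hw]

private theorem stripF_coe32 (M N : SL(2, ℝ)) (f : ℍ ≃ₜ ℍ) (z : ℍ) :
    stripF M N f (chart M (z : ℂ)) = chart N ((f z : ℍ) : ℂ) := by
  unfold stripF
  rw [(conf_chart M).ψφ _ (im_pos32 z), ofComplex_apply]

theorem stripMap_of_qc {f : ℍ ≃ₜ ℍ} (M N γ h : SL(2, ℝ)) (a b : ℝ) (ha : 0 < a) (hb : 0 < b)
    (hM : ∀ z : ℍ, ((M • (γ • z) : ℍ) : ℂ) = (Real.exp a : ℂ) * ((M • z : ℍ) : ℂ))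
    (hN : ∀ z : ℍ, ((N • (h • z) : ℍ) : ℂ) = (Real.exp b : ℂ) * ((N • z : ℍ) : ℂ))
    (hf : ∀ z : ℍ, f (γ • z) = h • f z) :
    StripMap a b (stripF M N f) (stripF N M f.symm) := by
  refine ⟨ha, hb, cont_f32 M N f, cont_f32 N M f.symm, fun w _ => maps_f32 M N f w,
    fun w _ => maps_f32 N M f.symm w, fun w hw => inv_f32 M N f hw, fun w hw => ?_, fun w hw => ?_⟩
  · have h1 := inv_f32 N M f.symm hw
    rwa [Homeomorph.symm_symm] at h1
  · have hz := (conf_chart M).mapsψ w hw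
    obtain ⟨z, hzz⟩ : ∃ z : ℍ, (z : ℂ) = chartInv M w := ⟨ofComplex (chartInv M w), ofC32 hz⟩
    have h1 : chart M (z : ℂ) = w := by rw [hzz, (conf_chart M).φψ w hw]
    have h2 : chart M ((γ • z : ℍ) : ℂ) = w + a := by rw [chart_smul M γ a hM z, h1]
    rw [← h2, stripF_coe32, hf, chart_smul N h b hN, ← stripF_coe32 M N f z, h1]

private theorem energy32 {K : ℝ} (hK : 0 ≤ K) {f : ℍ ≃ₜ ℍ} (hf : IsQC K f) (M N : SL(2, ℝ))
    (u : ℂ → ℝ) (hu : ContDiffOn ℝ ∞ u {z | 0 < z.im})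
    (hfd : ∀ w : ℂ, 0 < w.im → ‖fderiv ℝ u w‖ = ‖deriv (chart N) w‖) :
    StripEn K (stripF M N f) (fun w => u ((f (ofComplex (chartInv M w)) : ℍ) : ℂ)) := by
  intro U hU hUS A hA hvol q hq hqc hqs
  have hM := conf_chart M
  have hN := conf_chart N
  have hqS : tsupport q ⊆ Strip := hqs.trans hUS
  obtain ⟨hcomp, hsub⟩ := tsupport_pull hM hqc hqS
  have hpc : HasCompactSupport (pull (chart M) {z | 0 < z.im} q) :=
    hcomp.of_isClosed_subset (isClosed_tsupport _) hsub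
  have hUeq : chartInv M '' U = {z : ℂ | 0 < z.im} ∩ chart M ⁻¹' U := by
    ext z
    constructor
    · rintro ⟨w, hw, rfl⟩
      refine ⟨hM.mapsψ w (hUS hw), ?_⟩
      rw [Set.mem_preimage, hM.φψ w (hUS hw)]
      exact hw
    · rintro ⟨hz, hzU⟩
      exact ⟨chart M z, hzU, hM.ψφ z hz⟩
  have hU' : IsOpen (chartInv M '' U) := by
    rw [hUeq]
    exact hM.diffφ.continuousOn.isOpen_inter_preimage hM.openΩ hU
  have hU's : chartInv M '' U ⊆ {z : ℂ | 0 < z.im} := by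
    rw [hUeq]
    exact Set.inter_subset_left
  have hmain := hf (chartInv M '' U) u (pull (chart M) {z | 0 < z.im} q) hU' hU's hu
    (contDiff_pull hM hq hqc hqS) hpc (hsub.trans (Set.image_mono hqs))
  rw [integral_norm_pull hM hqS,
    integral_dvg_pull hM hq hqc hqS (fun z => u ((f (ofComplex z) : ℍ) : ℂ))] at hmain
  -- the image set
  obtain ⟨T, hT⟩ : ∃ T : Set ℂ, T = {w : ℂ | ∃ z : ℍ, (z : ℂ) ∈ chartInv M '' U ∧ ((f z : ℍ) : ℂ) = w} :=
    ⟨_, rfl⟩
  rw [← hT] at hmain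
  have hTH : T ⊆ {z : ℂ | 0 < z.im} := by
    rw [hT]
    rintro w ⟨z, -, rfl⟩
    exact im_pos32 _
  have hTo : IsOpen T := by
    have h1 : T = (fun z : ℍ => (z : ℂ)) '' (f '' ((fun z : ℍ => (z : ℂ)) ⁻¹' (chartInv M '' U))) := by
      rw [hT]
      ext w
      constructor
      · rintro ⟨z, hz, rfl⟩
        exact ⟨f z, ⟨z, hz, rfl⟩, rfl⟩
      · rintro ⟨_, ⟨z, hz, rfl⟩, rfl⟩
        exact ⟨z, hz, rfl⟩
    rw [h1]
    exact isOpenEmbedding_coe.isOpenMap _ (f.isOpenMap _ (hU'.preimage continuous_coe))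
  have hTim : chart N '' T = stripF M N f '' U := by
    rw [hT]
    ext w
    constructor
    · rintro ⟨_, ⟨z, ⟨v, hv, hvz⟩, rfl⟩, rfl⟩
      refine ⟨v, hv, ?_⟩
      have h1 : chart M (z : ℂ) = v := by rw [← hvz, hM.φψ v (hUS hv)]
      rw [← h1, stripF_coe32]
    · rintro ⟨v, hv, rfl⟩
      refine ⟨((f (ofComplex (chartInv M v)) : ℍ) : ℂ), ⟨ofComplex (chartInv M v), ?_, rfl⟩, rfl⟩
      rw [ofC32 (hM.mapsψ v (hUS hv))]
      exact ⟨v, hv, rfl⟩
  have hint : ∫⁻ w in T, ENNReal.ofReal (‖fderiv ℝ u w‖ ^ 2) = volume (stripF M N f '' U) := by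
    rw [← hTim, volume_image_conf hN hTo.measurableSet hTH]
    apply setLIntegral_congr_fun hTo.measurableSet
    intro w hw
    simp only [hfd w (hTH hw)]
  rw [hint] at hmain
  have h2 : ENNReal.ofReal K * volume (stripF M N f '' U) ≤ ENNReal.ofReal (K * A) := by
    rw [ENNReal.ofReal_mul hK]
    exact mul_le_mul_right hvol _
  exact (ENNReal.ofReal_le_ofReal_iff (mul_nonneg hK hA)).1 (hmain.trans h2)

theorem stripEn_re {K : ℝ} (hK : 0 ≤ K) {f : ℍ ≃ₜ ℍ} (hf : IsQC K f) (M N : SL(2, ℝ)) :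
    StripEn K (stripF M N f) (fun w => (stripF M N f w).re) :=
  energy32 hK hf M N (fun z => (chart N z).re) (chart_re_smooth N) fun _ hw => chart_re_fderiv N hw

theorem stripEn_im {K : ℝ} (hK : 0 ≤ K) {f : ℍ ≃ₜ ℍ} (hf : IsQC K f) (M N : SL(2, ℝ)) :
    StripEn K (stripF M N f) (fun w => (stripF M N f w).im) :=
  energy32 hK hf M N (fun z => (chart N z).im) (chart_im_smooth N) fun _ hw => chart_im_fderiv N hw

end Pool.Agent.Helper48.QH
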