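import Pool.Agent.Helper48.QH.Core

/-!
# QH, block C6: the calculus estimate

PROOF. Let `Γ (s + i θ) = g (s + i θ) - θ`, `R = [0, a] × [r, π - r]`. `‖fderiv ℝ g‖^2 = g_s^2 + g_θ^2`. Then
`∫_R (Γ_s^2 + Γ_θ^2) = ∫_R ‖∇g‖^2 - 2 ∫_R g_θ + a (π - 2 r) ≤ E - 2 a (π - 2 κ) + a π = E - π a + 4 κ a =: ε`, because
`∫_r^{π - r} g_θ dθ = g (s, π - r) - g (s, r) ≥ π - 2 κ`.
(1) There is `θ ∈ (π/2, π/2 + δ/2)` with `∫_0^a g_s (s, θ)^2 ds ≤ 2 ε / δ` (otherwise the integral over `[0, a] × [π/2, π/2 + δ/2] ⊆ R` is `> ε`; note `Γ_s = g_s`).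
By `hpath` there is `s*` with `Γ (s*, θ) ≥ π/2 + δ - κ - θ ≥ δ/2 - κ`; by periodicity `s* ∈ [0, a)`. For `s ∈ [0, a]`, Cauchy-Schwarz:
`|g (s, θ) - g (s*, θ)| ≤ ∫_0^a |g_s| ≤ sqrt (a * 2 ε / δ)`.
(2) There is `s ∈ [0, a]` with `∫_r^{π - r} Γ_θ (s, θ')^2 dθ' ≤ ε / a`. So
`Γ (s, θ) = Γ (s, π - r) - ∫_θ^{π - r} Γ_θ ≤ r + sqrt (π ε / a)`, as `Γ (s, π - r) = g (s, π - r) - (π - r) ≤ r`.
(3) `δ/2 - κ - sqrt (2 a ε / δ) ≤ Γ (s, θ) ≤ r + sqrt (π ε / a)`.
(`ε ≥ 0` follows from (0): it bounds an integral of squares.)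
-/

set_option autoImplicit false

open MeasureTheory UpperHalfPlane
open scoped ContDiff MatrixGroups

noncomputable section

namespace Pool.Agent.Helper48.QH

private theorem swap69 {f : ℝ → ℝ → ℝ} (hf : Continuous (Function.uncurry f)) {a b c d : ℝ}
    (hab : a ≤ b) (hcd : c ≤ d) :
    ∫ x in a..b, ∫ y in c..d, f x y = ∫ y in c..d, ∫ x in a..b, f x y := by
  simp only [intervalIntegral.integral_of_le hab, intervalIntegral.integral_of_le hcd]
  apply integral_integral_swap
  rw [Measure.prod_restrict]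
  exact (hf.continuousOn.integrableOn_compact (isCompact_Icc.prod isCompact_Icc)).mono_set
    (Set.prod_mono Set.Ioc_subset_Icc_self Set.Ioc_subset_Icc_self)

private theorem mv69 {J : ℝ → ℝ} (hJ : Continuous J) {x y : ℝ} (hxy : x < y) :
    ∃ c ∈ Set.Ioo x y, (y - x) * J c = ∫ t in x..y, J t := by
  obtain ⟨c, hc, h⟩ := exists_hasDerivAt_eq_slope (fun u => ∫ t in x..u, J t) J hxy
    (intervalIntegral.continuous_primitive (fun _ _ => hJ.intervalIntegrable _ _) x).continuousOn
    (fun u _ => intervalIntegral.integral_hasDerivAt_right (hJ.intervalIntegrable _ _)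
      (hJ.stronglyMeasurableAtFilter _ _) hJ.continuousAt)
  refine ⟨c, hc, ?_⟩
  have h1 : (∫ t in x..x, J t) = 0 := intervalIntegral.integral_same
  have h2 : 0 < y - x := by linarith
  rw [h]
  simp only [h1, sub_zero]
  field_simp

private theorem cs69 {φ φ' : ℝ → ℝ} (hφ : ∀ x, HasDerivAt φ (φ' x) x) (hc : Continuous φ')
    {p q x y : ℝ} (hpx : p ≤ x) (hxy : x ≤ y) (hyq : y ≤ q) :
    (φ y - φ x) ^ 2 ≤ (q - p) * ∫ t in p..q, φ' t ^ 2 := by
  have h1 : ∫ t in x..y, φ' t = φ y - φ x :=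
    intervalIntegral.integral_eq_sub_of_hasDerivAt (fun t _ => hφ t) (hc.intervalIntegrable _ _)
  have hc2 : Continuous fun t => φ' t ^ 2 := hc.pow 2
  have h3 : ∫ t in x..y, φ' t ^ 2 ≤ ∫ t in p..q, φ' t ^ 2 :=
    intervalIntegral.integral_mono_interval hpx hxy hyq
      (Filter.Eventually.of_forall fun t => sq_nonneg _) (hc2.intervalIntegrable _ _)
  have h4 : 0 ≤ ∫ t in x..y, φ' t ^ 2 :=
    intervalIntegral.integral_nonneg hxy fun t _ => sq_nonneg _
  have key : ∀ c : ℝ, 0 ≤ (∫ t in x..y, φ' t ^ 2) - 2 * c * (∫ t in x..y, φ' t) + c ^ 2 * (y - x) := by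
    intro c
    have h5 : 0 ≤ ∫ t in x..y, (φ' t - c) ^ 2 :=
      intervalIntegral.integral_nonneg hxy fun t _ => sq_nonneg _
    have h6 : ∫ t in x..y, (φ' t - c) ^ 2 =
        (∫ t in x..y, φ' t ^ 2) - 2 * c * (∫ t in x..y, φ' t) + c ^ 2 * (y - x) := by
      have h7 : ∀ t, (φ' t - c) ^ 2 = φ' t ^ 2 - 2 * c * φ' t + c ^ 2 := fun t => by ring
      simp only [h7]
      rw [intervalIntegral.integral_add, intervalIntegral.integral_sub,
        intervalIntegral.integral_const_mul, intervalIntegral.integral_const, smul_eq_mul]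
      · ring
      · exact hc2.intervalIntegrable _ _
      · exact (continuous_const.mul hc).intervalIntegrable _ _
      · exact (hc2.sub (continuous_const.mul hc)).intervalIntegrable _ _
      · exact continuous_const.intervalIntegrable _ _
    rw [← h6]
    exact h5
  rw [← h1]
  set I := ∫ t in x..y, φ' t with hI
  set I2 := ∫ t in x..y, φ' t ^ 2 with hI2
  have h8 : I ^ 2 ≤ (y - x) * I2 := by
    rcases hxy.lt_or_eq with hlt | heq
    · have hD : 0 < y - x := by linarith
      have h9 := key (I / (y - x))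
      have h10 : I2 - 2 * (I / (y - x)) * I + (I / (y - x)) ^ 2 * (y - x) = I2 - I ^ 2 / (y - x) := by
        field_simp
        ring
      rw [h10, sub_nonneg, div_le_iff₀ hD] at h9
      linarith
    · have h9 : I = 0 := by
        rw [hI, heq]
        exact intervalIntegral.integral_same
      rw [h9, heq]
      simp
  have h11 : (y - x) * I2 ≤ (q - p) * I2 := mul_le_mul_of_nonneg_right (by linarith) h4
  have h12 : (q - p) * I2 ≤ (q - p) * ∫ t in p..q, φ' t ^ 2 :=
    mul_le_mul_of_nonneg_left h3 (by linarith)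
  linarith

private theorem norm69 (L : ℂ →L[ℝ] ℝ) : L 1 ^ 2 + L Complex.I ^ 2 ≤ ‖L‖ ^ 2 := by
  set v : ℂ := (L 1 : ℂ) + (L Complex.I : ℂ) * Complex.I with hv
  have h1 : L v = L 1 ^ 2 + L Complex.I ^ 2 := by
    have h2 : v = (L 1) • (1 : ℂ) + (L Complex.I) • Complex.I := by
      rw [hv, Complex.real_smul, Complex.real_smul, mul_one]
    rw [h2, map_add, map_smul, map_smul]
    simp only [smul_eq_mul]
    ring
  have h3 : ‖v‖ ^ 2 = L 1 ^ 2 + L Complex.I ^ 2 := by
    rw [hv, Complex.sq_norm, Complex.normSq_apply]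
    simp
    ring
  have h4 : |L v| ≤ ‖L‖ * ‖v‖ := by
    rw [← Real.norm_eq_abs]
    exact L.le_opNorm v
  rw [h1] at h4
  have h5 : ‖v‖ ^ 2 ≤ ‖L‖ * ‖v‖ := by
    rw [h3]
    exact (le_abs_self _).trans h4
  rw [← h3]
  have h6 : 0 ≤ ‖v‖ := norm_nonneg v
  have h7 : 0 ≤ ‖L‖ := norm_nonneg L
  have h8 : ‖v‖ ≤ ‖L‖ := by
    rcases h6.lt_or_eq with h9 | h9
    · have h10 : ‖v‖ * ‖v‖ ≤ ‖L‖ * ‖v‖ := by nlinarith
      exact le_of_mul_le_mul_right h10 h9
    · rw [← h9]
      exact h7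
  exact pow_le_pow_left₀ h6 h8 2

theorem calc_bound {g : ℂ → ℝ} (hg : ContDiff ℝ 1 g) {a r κ δ E : ℝ} (ha : 0 < a)
    (hper : ∀ z, g (z + a) = g z) (hr : 0 < r) (hκ : 0 ≤ κ) (hδ : 0 < δ)
    (hrδ : Real.pi / 2 + δ / 2 ≤ Real.pi - r)
    (hE : ∫ s in (0 : ℝ)..a, ∫ θ in r..(Real.pi - r), ‖fderiv ℝ g (s + θ * Complex.I)‖ ^ 2 ≤ E)
    (htop : ∀ s : ℝ, Real.pi - κ ≤ g (s + (Real.pi - r : ℝ) * Complex.I))
    (htop' : ∀ s : ℝ, g (s + (Real.pi - r : ℝ) * Complex.I) ≤ Real.pi)
    (hbot : ∀ s : ℝ, g (s + r * Complex.I) ≤ κ)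
    (hpath : ∀ θ : ℝ, Real.pi / 2 < θ → θ < Real.pi / 2 + δ / 2 →
      ∃ s : ℝ, Real.pi / 2 + δ - κ ≤ g (s + θ * Complex.I)) :
    δ / 2 - κ - r ≤ Real.sqrt (2 * a * (E - Real.pi * a + 4 * κ * a) / δ) +
      Real.sqrt (Real.pi * (E - Real.pi * a + 4 * κ * a) / a) := by
  have hπ := Real.pi_pos
  set ε : ℝ := E - Real.pi * a + 4 * κ * a with hε
  -- the partial derivatives
  have hfd : Continuous (fderiv ℝ g) := hg.continuous_fderiv (by norm_num)
  have hdiff : Differentiable ℝ g := hg.differentiable (by norm_num)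
  have hz : Continuous fun p : ℝ × ℝ => ((p.1 : ℂ) + (p.2 : ℂ) * Complex.I) := by fun_prop
  obtain ⟨Gs, hGs⟩ : ∃ Gs : ℝ → ℝ → ℝ, ∀ s θ : ℝ, Gs s θ = fderiv ℝ g (s + θ * Complex.I) 1 :=
    ⟨fun s θ => fderiv ℝ g (s + θ * Complex.I) 1, fun _ _ => rfl⟩
  obtain ⟨Gt, hGt⟩ : ∃ Gt : ℝ → ℝ → ℝ, ∀ s θ : ℝ,
      Gt s θ = fderiv ℝ g (s + θ * Complex.I) Complex.I :=
    ⟨fun s θ => fderiv ℝ g (s + θ * Complex.I) Complex.I, fun _ _ => rfl⟩
  have cGs : Continuous (Function.uncurry Gs) := by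
    have h1 : Continuous fun p : ℝ × ℝ => fderiv ℝ g ((p.1 : ℂ) + (p.2 : ℂ) * Complex.I) 1 :=
      (hfd.comp hz).clm_apply continuous_const
    have h2 : Function.uncurry Gs = fun p : ℝ × ℝ =>
        fderiv ℝ g ((p.1 : ℂ) + (p.2 : ℂ) * Complex.I) 1 := funext fun p => hGs p.1 p.2
    rw [h2]
    exact h1
  have cGt : Continuous (Function.uncurry Gt) := by
    have h1 : Continuous fun p : ℝ × ℝ =>
        fderiv ℝ g ((p.1 : ℂ) + (p.2 : ℂ) * Complex.I) Complex.I :=
      (hfd.comp hz).clm_apply continuous_const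
    have h2 : Function.uncurry Gt = fun p : ℝ × ℝ =>
        fderiv ℝ g ((p.1 : ℂ) + (p.2 : ℂ) * Complex.I) Complex.I := funext fun p => hGt p.1 p.2
    rw [h2]
    exact h1
  have cN : Continuous (Function.uncurry fun s θ : ℝ => ‖fderiv ℝ g (s + θ * Complex.I)‖ ^ 2) := by
    have : Continuous fun p : ℝ × ℝ => ‖fderiv ℝ g ((p.1 : ℂ) + (p.2 : ℂ) * Complex.I)‖ ^ 2 :=
      (hfd.comp hz).norm.pow 2
    exact this
  have dGs : ∀ s θ : ℝ, HasDerivAt (fun s : ℝ => g (s + θ * Complex.I)) (Gs s θ) s := by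
    intro s θ
    have h1 : HasDerivAt (fun s : ℝ => (s : ℂ) + θ * Complex.I) 1 s :=
      (Complex.ofRealCLM.hasDerivAt (x := s)).add_const _
    rw [hGs]
    exact ((hdiff _).hasFDerivAt).comp_hasDerivAt s h1
  have dGt : ∀ s θ : ℝ, HasDerivAt (fun θ : ℝ => g (s + θ * Complex.I)) (Gt s θ) θ := by
    intro s θ
    have h1 : HasDerivAt (fun θ : ℝ => (s : ℂ) + θ * Complex.I) Complex.I θ := by
      have h2 : HasDerivAt (fun θ : ℝ => (θ : ℂ) * Complex.I) (1 * Complex.I) θ :=
        (Complex.ofRealCLM.hasDerivAt (x := θ)).mul_const _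
      rw [one_mul] at h2
      exact h2.const_add _
    rw [hGt]
    exact ((hdiff _).hasFDerivAt).comp_hasDerivAt θ h1
  have hrp : r ≤ Real.pi - r := by linarith
  -- sections
  have sGs1 : ∀ θ, Continuous fun s => Gs s θ := fun θ =>
    cGs.comp (continuous_id.prodMk continuous_const)
  have sGs2 : ∀ s, Continuous fun θ => Gs s θ := fun s =>
    cGs.comp (continuous_const.prodMk continuous_id)
  have sGt2 : ∀ s, Continuous fun θ => Gt s θ := fun s =>
    cGt.comp (continuous_const.prodMk continuous_id)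
  -- the basic estimate
  obtain ⟨A, hA⟩ : ∃ A : ℝ → ℝ → ℝ, ∀ s θ, A s θ = Gs s θ ^ 2 + (Gt s θ - 1) ^ 2 :=
    ⟨fun s θ => Gs s θ ^ 2 + (Gt s θ - 1) ^ 2, fun _ _ => rfl⟩
  have cA : Continuous (Function.uncurry A) := by
    have h1 : Continuous fun p : ℝ × ℝ =>
        Function.uncurry Gs p ^ 2 + (Function.uncurry Gt p - 1) ^ 2 :=
      (cGs.pow 2).add ((cGt.sub continuous_const).pow 2)
    have h2 : Function.uncurry A = fun p : ℝ × ℝ =>
        Function.uncurry Gs p ^ 2 + (Function.uncurry Gt p - 1) ^ 2 :=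
      funext fun p => hA p.1 p.2
    rw [h2]
    exact h1
  have sA2 : ∀ s, Continuous fun θ => A s θ := fun s =>
    cA.comp (continuous_const.prodMk continuous_id)
  have sN2 : ∀ s : ℝ, Continuous fun θ : ℝ => ‖fderiv ℝ g (s + θ * Complex.I)‖ ^ 2 := by
    intro s
    have h1 : Continuous fun θ : ℝ => ((s : ℂ) + (θ : ℂ) * Complex.I) := by fun_prop
    exact (hfd.comp h1).norm.pow 2
  have h0 : ∫ s in (0 : ℝ)..a, ∫ θ in r..(Real.pi - r), A s θ ≤ ε := by
    have h1 : ∀ s : ℝ, ∫ θ in r..(Real.pi - r), A s θ ≤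
        (∫ θ in r..(Real.pi - r), ‖fderiv ℝ g (s + θ * Complex.I)‖ ^ 2) - Real.pi + 4 * κ := by
      intro s
      have h2 : ∫ θ in r..(Real.pi - r), Gt s θ =
          g (s + (Real.pi - r : ℝ) * Complex.I) - g (s + r * Complex.I) :=
        intervalIntegral.integral_eq_sub_of_hasDerivAt (fun t _ => dGt s t)
          ((sGt2 s).intervalIntegrable _ _)
      have h3 : ∫ θ in r..(Real.pi - r), A s θ ≤
          ∫ θ in r..(Real.pi - r), (‖fderiv ℝ g (s + θ * Complex.I)‖ ^ 2 - 2 * Gt s θ + 1) := by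
        apply intervalIntegral.integral_mono_on hrp
        · exact (sA2 s).intervalIntegrable _ _
        · exact (((sN2 s).sub (continuous_const.mul (sGt2 s))).add continuous_const).intervalIntegrable _ _
        · intro θ _
          have h4 := norm69 (fderiv ℝ g (s + θ * Complex.I))
          rw [← hGs, ← hGt] at h4
          rw [hA]
          have h5 : (Gt s θ - 1) ^ 2 = Gt s θ ^ 2 - 2 * Gt s θ + 1 := by ring
          rw [h5]
          linarith
      have h7 : ∫ θ in r..(Real.pi - r), (‖fderiv ℝ g (s + θ * Complex.I)‖ ^ 2 - 2 * Gt s θ + 1) =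
          (∫ θ in r..(Real.pi - r), ‖fderiv ℝ g (s + θ * Complex.I)‖ ^ 2) -
            2 * (∫ θ in r..(Real.pi - r), Gt s θ) + (Real.pi - r - r) := by
        rw [intervalIntegral.integral_add, intervalIntegral.integral_sub,
          intervalIntegral.integral_const_mul, intervalIntegral.integral_const, smul_eq_mul, mul_one]
        · exact (sN2 s).intervalIntegrable _ _
        · exact (continuous_const.mul (sGt2 s)).intervalIntegrable _ _
        · exact ((sN2 s).sub (continuous_const.mul (sGt2 s))).intervalIntegrable _ _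
        · exact continuous_const.intervalIntegrable _ _
      have h8 := htop s
      have h9 := hbot s
      rw [h7, h2] at h3
      linarith
    have c1 : Continuous fun s => ∫ θ in r..(Real.pi - r), A s θ :=
      intervalIntegral.continuous_parametric_intervalIntegral_of_continuous' cA _ _
    have c2 : Continuous fun s : ℝ =>
        ∫ θ in r..(Real.pi - r), ‖fderiv ℝ g (s + θ * Complex.I)‖ ^ 2 :=
      intervalIntegral.continuous_parametric_intervalIntegral_of_continuous' cN _ _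
    have h2 : ∫ s in (0 : ℝ)..a, ∫ θ in r..(Real.pi - r), A s θ ≤
        ∫ s in (0 : ℝ)..a, ((∫ θ in r..(Real.pi - r), ‖fderiv ℝ g (s + θ * Complex.I)‖ ^ 2) -
          Real.pi + 4 * κ) := by
      apply intervalIntegral.integral_mono_on ha.le
      · exact c1.intervalIntegrable _ _
      · exact ((c2.sub continuous_const).add continuous_const).intervalIntegrable _ _
      · intro s _
        exact h1 s
    have h3 : ∫ s in (0 : ℝ)..a, ((∫ θ in r..(Real.pi - r), ‖fderiv ℝ g (s + θ * Complex.I)‖ ^ 2) -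
          Real.pi + 4 * κ) =
        (∫ s in (0 : ℝ)..a, ∫ θ in r..(Real.pi - r), ‖fderiv ℝ g (s + θ * Complex.I)‖ ^ 2) -
          Real.pi * a + 4 * κ * a := by
      rw [intervalIntegral.integral_add, intervalIntegral.integral_sub,
        intervalIntegral.integral_const, intervalIntegral.integral_const, smul_eq_mul, smul_eq_mul]
      · ring
      · exact c2.intervalIntegrable _ _
      · exact continuous_const.intervalIntegrable _ _
      · exact (c2.sub continuous_const).intervalIntegrable _ _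
      · exact continuous_const.intervalIntegrable _ _
    rw [h3] at h2
    rw [hε]
    linarith
  -- (1) the horizontal line
  have c3 : Continuous fun θ => ∫ s in (0 : ℝ)..a, Gs s θ ^ 2 := by
    apply intervalIntegral.continuous_parametric_intervalIntegral_of_continuous'
    have : Continuous fun p : ℝ × ℝ => Function.uncurry Gs (p.2, p.1) ^ 2 :=
      (cGs.comp (continuous_snd.prodMk continuous_fst)).pow 2
    exact this
  obtain ⟨θ, hθ, hθ1⟩ : ∃ θ ∈ Set.Ioo (Real.pi / 2) (Real.pi / 2 + δ / 2),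
      ∫ s in (0 : ℝ)..a, Gs s θ ^ 2 ≤ 2 * ε / δ := by
    obtain ⟨θ, hθ, h1⟩ := mv69 c3 (x := Real.pi / 2) (y := Real.pi / 2 + δ / 2) (by linarith)
    refine ⟨θ, hθ, ?_⟩
    have cA' : Continuous (Function.uncurry fun θ s => A s θ) := by
      have : Continuous fun p : ℝ × ℝ => Function.uncurry A (p.2, p.1) :=
        cA.comp (continuous_snd.prodMk continuous_fst)
      exact this
    have cAs : Continuous fun θ => ∫ s in (0 : ℝ)..a, A s θ :=
      intervalIntegral.continuous_parametric_intervalIntegral_of_continuous' cA' _ _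
    have h2 : ∫ t in (Real.pi / 2)..(Real.pi / 2 + δ / 2), (∫ s in (0 : ℝ)..a, Gs s t ^ 2) ≤
        ∫ t in (Real.pi / 2)..(Real.pi / 2 + δ / 2), (∫ s in (0 : ℝ)..a, A s t) := by
      apply intervalIntegral.integral_mono_on (by linarith)
      · exact c3.intervalIntegrable _ _
      · exact cAs.intervalIntegrable _ _
      · intro t _
        apply intervalIntegral.integral_mono_on ha.le
        · exact ((sGs1 t).pow 2).intervalIntegrable _ _
        · have : Continuous fun s => A s t := cA.comp (continuous_id.prodMk continuous_const)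
          exact this.intervalIntegrable _ _
        · intro s _
          rw [hA]
          linarith [sq_nonneg (Gt s t - 1)]
    have h3 : ∫ t in (Real.pi / 2)..(Real.pi / 2 + δ / 2), (∫ s in (0 : ℝ)..a, A s t) ≤
        ∫ t in r..(Real.pi - r), (∫ s in (0 : ℝ)..a, A s t) := by
      apply intervalIntegral.integral_mono_interval (by linarith) (by linarith) hrδ
      · refine Filter.Eventually.of_forall fun t => ?_
        apply intervalIntegral.integral_nonneg ha.le
        intro s _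
        rw [hA]
        positivity
      · exact cAs.intervalIntegrable _ _
    rw [← swap69 cA ha.le hrp] at h3
    have h4 : δ / 2 * (∫ s in (0 : ℝ)..a, Gs s θ ^ 2) ≤ ε := by
      have h5 : Real.pi / 2 + δ / 2 - Real.pi / 2 = δ / 2 := by ring
      rw [h5] at h1
      rw [h1]
      linarith
    rw [le_div_iff₀ hδ]
    linarith
  obtain ⟨s0, hs0⟩ := hpath θ hθ.1 hθ.2
  obtain ⟨s1, hs1, hs1'⟩ : ∃ s1 ∈ Set.Ico (0 : ℝ) (0 + a),
      g (s0 + θ * Complex.I) = g (s1 + θ * Complex.I) := by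
    have hp : Function.Periodic (fun s : ℝ => g (s + θ * Complex.I)) a := by
      intro s
      have h1 := hper (s + θ * Complex.I)
      simp only [Complex.ofReal_add]
      rw [← h1]
      congr 1
      ring
    obtain ⟨s1, h1, h2⟩ := hp.exists_mem_Ico ha s0 0
    exact ⟨s1, h1, h2⟩
  rw [hs1'] at hs0
  -- (2) the vertical line
  have c4 : Continuous fun s => ∫ θ in r..(Real.pi - r), (Gt s θ - 1) ^ 2 := by
    apply intervalIntegral.continuous_parametric_intervalIntegral_of_continuous'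
    have : Continuous fun p : ℝ × ℝ => (Function.uncurry Gt p - 1) ^ 2 :=
      (cGt.sub continuous_const).pow 2
    exact this
  obtain ⟨s, hs, hs2⟩ : ∃ s ∈ Set.Ioo (0 : ℝ) a,
      ∫ θ in r..(Real.pi - r), (Gt s θ - 1) ^ 2 ≤ ε / a := by
    obtain ⟨s, hs, h1⟩ := mv69 c4 (x := 0) (y := a) ha
    refine ⟨s, hs, ?_⟩
    have c1 : Continuous fun s => ∫ θ in r..(Real.pi - r), A s θ :=
      intervalIntegral.continuous_parametric_intervalIntegral_of_continuous' cA _ _
    have h2 : ∫ s in (0 : ℝ)..a, (∫ θ in r..(Real.pi - r), (Gt s θ - 1) ^ 2) ≤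
        ∫ s in (0 : ℝ)..a, ∫ θ in r..(Real.pi - r), A s θ := by
      apply intervalIntegral.integral_mono_on ha.le
      · exact c4.intervalIntegrable _ _
      · exact c1.intervalIntegrable _ _
      · intro s _
        apply intervalIntegral.integral_mono_on hrp
        · exact (((sGt2 s).sub continuous_const).pow 2).intervalIntegrable _ _
        · exact (sA2 s).intervalIntegrable _ _
        · intro t _
          rw [hA]
          linarith [sq_nonneg (Gs s t)]
    rw [sub_zero] at h1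
    rw [le_div_iff₀ ha]
    linarith
  -- (3) the two estimates
  have e1 : g (s1 + θ * Complex.I) - g (s + θ * Complex.I) ≤ Real.sqrt (2 * a * ε / δ) := by
    apply Real.le_sqrt_of_sq_le
    have h1 : (g (s1 + θ * Complex.I) - g (s + θ * Complex.I)) ^ 2 ≤
        (a - 0) * ∫ t in (0 : ℝ)..a, Gs t θ ^ 2 := by
      rcases le_total s s1 with h2 | h2
      · exact cs69 (fun t => dGs t θ) (sGs1 θ) hs.1.le h2 (by linarith [hs1.2])
      · have h3 := cs69 (fun t => dGs t θ) (sGs1 θ) hs1.1 h2 hs.2.le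
        calc (g (s1 + θ * Complex.I) - g (s + θ * Complex.I)) ^ 2
            = (g (s + θ * Complex.I) - g (s1 + θ * Complex.I)) ^ 2 := by ring
          _ ≤ _ := h3
    have h4 : a * (∫ t in (0 : ℝ)..a, Gs t θ ^ 2) ≤ a * (2 * ε / δ) :=
      mul_le_mul_of_nonneg_left hθ1 ha.le
    have h5 : a * (2 * ε / δ) = 2 * a * ε / δ := by ring
    rw [sub_zero] at h1
    linarith
  have e2 : (g (s + θ * Complex.I) - θ) - (g (s + (Real.pi - r : ℝ) * Complex.I) - (Real.pi - r)) ≤
      Real.sqrt (Real.pi * ε / a) := by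
    apply Real.le_sqrt_of_sq_le
    have h1 := cs69 (φ := fun t : ℝ => g (s + t * Complex.I) - t) (φ' := fun t => Gt s t - 1)
      (fun t => (dGt s t).sub (hasDerivAt_id t)) ((sGt2 s).sub continuous_const)
      (p := r) (q := Real.pi - r) (x := θ) (y := Real.pi - r) (by linarith [hθ.1])
      (by linarith [hθ.2]) le_rfl
    have h2 : (Real.pi - r - r) * (∫ t in r..(Real.pi - r), (Gt s t - 1) ^ 2) ≤ Real.pi * (ε / a) := by
      have h3 : 0 ≤ ∫ t in r..(Real.pi - r), (Gt s t - 1) ^ 2 :=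
        intervalIntegral.integral_nonneg hrp fun t _ => sq_nonneg _
      calc (Real.pi - r - r) * (∫ t in r..(Real.pi - r), (Gt s t - 1) ^ 2)
          ≤ Real.pi * (∫ t in r..(Real.pi - r), (Gt s t - 1) ^ 2) :=
            mul_le_mul_of_nonneg_right (by linarith) h3
        _ ≤ Real.pi * (ε / a) := mul_le_mul_of_nonneg_left hs2 hπ.le
    have h5 : Real.pi * (ε / a) = Real.pi * ε / a := by ring
    calc ((g (s + θ * Complex.I) - θ) - (g (s + (Real.pi - r : ℝ) * Complex.I) - (Real.pi - r))) ^ 2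
        = ((g (s + (Real.pi - r : ℝ) * Complex.I) - (Real.pi - r)) - (g (s + θ * Complex.I) - θ)) ^ 2 := by
          ring
      _ ≤ _ := h1
      _ ≤ _ := h2
      _ = _ := h5
  have e3 := htop' s
  linarith [hθ.2]

end Pool.Agent.Helper48.QH
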