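import Pool.Agent.Helper48.QH.Core

/-!
# QH, block C2: area of the image of `n + 2` periods

PROOF. For a measurable `S ⊆ Strip`, `F '' S = Strip ∩ G⁻¹' S` is measurable (`G` is continuous on the open set `Strip`). `F (w + k a) = F w + k b` for all integers
`k` (induction; for `-1` use the relation at `w - a`). Let `C = {w ∈ Strip | 0 ≤ re w < a}` and `D = {w ∈ Strip | 0 ≤ re w < b}`. `F '' (C + k a) = F '' C + k b` has the same
volume as `F '' C`. `volume (F '' C) ≤ π b`: `Strip` is the disjoint union of the `D + k b`, `k ∈ ℤ`, so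
`volume (F '' C) = ∑_k volume (F '' C ∩ (D + k b)) = ∑_k volume ((F '' C - k b) ∩ D)` and the sets `F '' C - k b = F '' (C - k a)` are pairwise disjoint, so the sum is
`≤ volume D = π b` (`Complex.volume_preserving_equiv_real_prod` or `measurableEquivRealProd` and a rectangle). Finally
`{w ∈ Strip | -a ≤ re w < (n + 1) a}` is the union of the `C + k a`, `-1 ≤ k ≤ n`.
-/

set_option autoImplicit false

open MeasureTheory UpperHalfPlane
open scoped ContDiff MatrixGroups

noncomputable section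

namespace Pool.Agent.Helper48.QH

private theorem ca_strip_open : IsOpen Strip :=
  (isOpen_lt continuous_const Complex.continuous_im).inter
    (isOpen_lt Complex.continuous_im continuous_const)

private theorem ca_add_mem {w : ℂ} (hw : w ∈ Strip) (t : ℝ) : w + (t : ℂ) ∈ Strip := by
  simpa [Strip] using hw

private theorem ca_image_eq {a b : ℝ} {F G : ℂ → ℂ} (h : StripMap a b F G) {S : Set ℂ}
    (hS : S ⊆ Strip) : F '' S = Strip ∩ G ⁻¹' S := by
  ext w
  constructor
  · rintro ⟨s, hs, rfl⟩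
    exact ⟨h.mapsF s (hS hs), by simpa [h.GF s (hS hs)] using hs⟩
  · rintro ⟨h1, h2⟩
    exact ⟨G w, h2, h.FG w h1⟩

private theorem ca_image_meas {a b : ℝ} {F G : ℂ → ℂ} (h : StripMap a b F G) {S : Set ℂ}
    (hS : S ⊆ Strip) (hm : MeasurableSet S) : MeasurableSet (F '' S) := by
  rw [ca_image_eq h hS]
  have h1 : Strip ∩ G ⁻¹' S = Subtype.val '' ((Strip.domRestrict G) ⁻¹' S) := by
    ext w
    constructor
    · rintro ⟨h1, h2⟩
      exact ⟨⟨w, h1⟩, h2, rfl⟩
    · rintro ⟨⟨v, hv⟩, h2, rfl⟩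
      exact ⟨hv, h2⟩
  rw [h1]
  apply MeasurableSet.subtype_image ca_strip_open.measurableSet
  exact (continuousOn_iff_continuous_domRestrict.1 h.contG).measurable hm

private theorem ca_shift {a b : ℝ} {F G : ℂ → ℂ} (h : StripMap a b F G) {w : ℂ}
    (hw : w ∈ Strip) (k : ℤ) : F (w + ((k * a : ℝ) : ℂ)) = F w + ((k * b : ℝ) : ℂ) := by
  induction k using Int.induction_on with
  | zero => simp
  | succ i ih =>
    have h1 := h.per _ (ca_add_mem hw ((i : ℤ) * a))
    have h2 : w + (((((i : ℤ) + 1 : ℤ) : ℝ) * a : ℝ) : ℂ) =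
        w + ((((i : ℤ) : ℝ) * a : ℝ) : ℂ) + (a : ℂ) := by push_cast; ring
    rw [h2, h1, ih]
    push_cast
    ring
  | pred i ih =>
    have h1 := h.per _ (ca_add_mem hw (((-(i : ℤ) - 1 : ℤ) : ℝ) * a))
    have h2 : w + ((((-(i : ℤ) - 1 : ℤ) : ℝ) * a : ℝ) : ℂ) + (a : ℂ) =
        w + ((((-(i : ℤ) : ℤ) : ℝ) * a : ℝ) : ℂ) := by push_cast; ring
    rw [h2, ih] at h1
    have h3 : F (w + ((((-(i : ℤ) - 1 : ℤ) : ℝ) * a : ℝ) : ℂ)) =
        F w + ((((-(i : ℤ) : ℤ) : ℝ) * b : ℝ) : ℂ) - (b : ℂ) := by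
      rw [h1]; ring
    rw [h3]
    push_cast
    ring

/-- the cell number `k` of width `a` -/
private def ca_cell (a : ℝ) (k : ℤ) : Set ℂ := {w | w ∈ Strip ∧ k * a ≤ w.re ∧ w.re < (k + 1) * a}

private theorem ca_cell_sub (a : ℝ) (k : ℤ) : ca_cell a k ⊆ Strip := fun _ hw => hw.1

private theorem ca_cell_meas (a : ℝ) (k : ℤ) : MeasurableSet (ca_cell a k) := by
  apply ca_strip_open.measurableSet.inter
  exact (measurableSet_le measurable_const Complex.measurable_re).inter
    (measurableSet_lt Complex.measurable_re measurable_const)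

private theorem ca_cell_cover {a : ℝ} (ha : 0 < a) {w : ℂ} (hw : w ∈ Strip) :
    w ∈ ca_cell a ⌊w.re / a⌋ := by
  refine ⟨hw, ?_, ?_⟩
  · have := Int.floor_le (w.re / a)
    rwa [le_div_iff₀ ha] at this
  · have := Int.lt_floor_add_one (w.re / a)
    rwa [div_lt_iff₀ ha] at this

private theorem ca_cell_unique {a : ℝ} (ha : 0 < a) {k l : ℤ} {x : ℝ}
    (h1 : k * a ≤ x) (h2 : x < (k + 1) * a) (h3 : l * a ≤ x) (h4 : x < (l + 1) * a) : k = l := by
  have h5 : (k : ℝ) < l + 1 := lt_of_mul_lt_mul_right (h1.trans_lt h4) ha.le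
  have h6 : (l : ℝ) < k + 1 := lt_of_mul_lt_mul_right (h3.trans_lt h2) ha.le
  have h7 : k < l + 1 := by exact_mod_cast h5
  have h8 : l < k + 1 := by exact_mod_cast h6
  omega

private theorem ca_volume_cell {b : ℝ} (hb : 0 < b) :
    volume (ca_cell b 0) = ENNReal.ofReal (Real.pi * b) := by
  have h1 : ca_cell b 0 = Complex.measurableEquivRealProd ⁻¹'
      (Set.Ico 0 b ×ˢ Set.Ioo 0 Real.pi) := by
    ext w
    simp [ca_cell, Strip, Complex.measurableEquivRealProd_apply]
    tauto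
  rw [h1, (Complex.volume_preserving_equiv_real_prod).measure_preimage_equiv]
  rw [Measure.volume_eq_prod, Measure.prod_prod, Real.volume_Ico, Real.volume_Ioo,
    ← ENNReal.ofReal_mul (by linarith)]
  congr 1
  ring

private theorem ca_volume_image {a b : ℝ} {F G : ℂ → ℂ} (h : StripMap a b F G) (j : ℤ) :
    volume (F '' ca_cell a j) ≤ ENNReal.ofReal (Real.pi * b) := by
  set S := F '' ca_cell a j with hSdef
  have hSm : MeasurableSet S := ca_image_meas h (ca_cell_sub a j) (ca_cell_meas a j)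
  have hSs : S ⊆ Strip := by
    rintro _ ⟨w, hw, rfl⟩
    exact h.mapsF w hw.1
  let E : ℤ → Set ℂ := fun k => (fun w : ℂ => w + ((k * b : ℝ) : ℂ)) ⁻¹' (S ∩ ca_cell b k)
  have hE : ∀ k, volume (E k) = volume (S ∩ ca_cell b k) := by
    intro k
    exact measure_preimage_add_right volume _ _
  have hEm : ∀ k, MeasurableSet (E k) := by
    intro k
    exact (measurable_id.add_const _) (hSm.inter (ca_cell_meas b k))
  have hEs : ∀ k, E k ⊆ ca_cell b 0 := by
    intro k w hw
    obtain ⟨_, h2, h3, h4⟩ := hw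
    refine ⟨?_, ?_, ?_⟩
    · have h5 := ca_add_mem h2 (-(k * b))
      have h6 : w + ((k * b : ℝ) : ℂ) + ((-(k * b) : ℝ) : ℂ) = w := by push_cast; ring
      rwa [h6] at h5
    · have h5 : (w + ((k * b : ℝ) : ℂ)).re = w.re + k * b := by simp
      rw [h5] at h3
      simp only [Int.cast_zero, zero_mul]
      linarith
    · have h5 : (w + ((k * b : ℝ) : ℂ)).re = w.re + k * b := by simp
      rw [h5] at h4
      simp only [Int.cast_zero, zero_add, one_mul]
      linarith
  have hEd : Pairwise (Function.onFun Disjoint E) := by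
    intro k l hkl
    rw [Function.onFun, Set.disjoint_left]
    intro w hk hl
    obtain ⟨⟨c, hc, hcw⟩, _⟩ := hk
    obtain ⟨⟨d, hd, hdw⟩, _⟩ := hl
    apply hkl
    have h1 := ca_shift h hc.1 (l - k)
    have h2 : F c + (((l - k : ℤ) * b : ℝ) : ℂ) = F d := by
      rw [hcw, hdw]; push_cast; ring
    rw [h2] at h1
    have h3 : c + (((l - k : ℤ) * a : ℝ) : ℂ) = d := by
      have h4 := congrArg G h1
      rwa [h.GF _ (ca_add_mem hc.1 _), h.GF _ hd.1] at h4
    have h5 : d.re = c.re + (l - k : ℤ) * a := by rw [← h3]; simp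
    have h6 := hc.2.1
    have h7 := hc.2.2
    have h8 := hd.2.1
    have h9 := hd.2.2
    rw [h5] at h8 h9
    have h10 : j - (l - k) = j := by
      apply ca_cell_unique h.apos (x := c.re) _ _ h6 h7
      · push_cast at h8 ⊢
        linarith
      · push_cast at h9 ⊢
        linarith
    omega
  calc volume S ≤ volume (⋃ k : ℤ, S ∩ ca_cell b k) := by
        apply measure_mono
        intro w hw
        exact Set.mem_iUnion.2 ⟨_, hw, ca_cell_cover h.bpos (hSs hw)⟩
    _ ≤ ∑' k : ℤ, volume (S ∩ ca_cell b k) := measure_iUnion_le _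
    _ = ∑' k : ℤ, volume (E k) := by simp_rw [hE]
    _ = volume (⋃ k, E k) := (measure_iUnion hEd hEm).symm
    _ ≤ volume (ca_cell b 0) := measure_mono (Set.iUnion_subset hEs)
    _ = ENNReal.ofReal (Real.pi * b) := ca_volume_cell h.bpos

theorem volume_cells {a b : ℝ} {F G : ℂ → ℂ} (h : StripMap a b F G) (n : ℕ) :
    volume (F '' {w | w ∈ Strip ∧ -a ≤ w.re ∧ w.re < (n + 1) * a}) ≤
      ENNReal.ofReal ((n + 2) * (Real.pi * b)) := by
  have h1 : F '' {w | w ∈ Strip ∧ -a ≤ w.re ∧ w.re < (n + 1) * a} ⊆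
      ⋃ i ∈ Finset.range (n + 2), F '' ca_cell a ((i : ℤ) - 1) := by
    rintro _ ⟨w, ⟨hw, h2, h3⟩, rfl⟩
    have h4 := ca_cell_cover h.apos hw
    set k := ⌊w.re / a⌋ with hk
    have h5 : (-2 : ℝ) < k := by
      have h6 : (-1 : ℝ) * a < (k + 1) * a := by linarith [h4.2.2]
      have := lt_of_mul_lt_mul_right h6 h.apos.le
      linarith
    have h6 : (k : ℝ) < n + 1 := lt_of_mul_lt_mul_right (h4.2.1.trans_lt h3) h.apos.le
    have h7 : -2 < k := by exact_mod_cast h5
    have h8 : k < n + 1 := by exact_mod_cast h6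
    simp only [Set.mem_iUnion, Finset.mem_range]
    refine ⟨(k + 1).toNat, by omega, w, ?_, rfl⟩
    have h9 : (((k + 1).toNat : ℤ) - 1) = k := by omega
    rw [h9]
    exact h4
  calc volume (F '' {w | w ∈ Strip ∧ -a ≤ w.re ∧ w.re < (n + 1) * a})
      ≤ volume (⋃ i ∈ Finset.range (n + 2), F '' ca_cell a ((i : ℤ) - 1)) := measure_mono h1
    _ ≤ ∑ i ∈ Finset.range (n + 2), volume (F '' ca_cell a ((i : ℤ) - 1)) :=
        measure_biUnion_finset_le _ _
    _ ≤ ∑ _i ∈ Finset.range (n + 2), ENNReal.ofReal (Real.pi * b) :=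
        Finset.sum_le_sum fun i _ => ca_volume_image h _
    _ = ENNReal.ofReal ((n + 2) * (Real.pi * b)) := by
        rw [Finset.sum_const, Finset.card_range, nsmul_eq_mul,
          ENNReal.ofReal_mul (p := (n : ℝ) + 2) (by positivity)]
        congr 1
        rw [← ENNReal.ofReal_natCast]
        push_cast
        rfl

end Pool.Agent.Helper48.QH
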