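import Pool.Agent.Helper48.QH.Core

/-!
# QH, block C5: the ends of the strip, crossing curves

PROOF. (1) For `0 < κ < π/2` the set `G '' {ζ | 0 ≤ re ζ ≤ b, κ ≤ im ζ ≤ π - κ}` is a compact subset of `Strip`, so there is `r > 0` such that
`r ≤ im w ≤ π - r` on it; by `F (w + k a) = F w + k b` (`k ∈ ℤ`), for `w ∈ Strip` with `im w < r` or `im w > π - r` the height `im (F w)` is not in `[κ, π - κ]`. The sets
`{w ∈ Strip | im w > π - r}` and `{w ∈ Strip | im w < r}` are convex, so preconnected, so `im F` is on each of them `< κ` throughout or `> π - κ` throughout.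
If both sets go to the same end, e.g. `im F < κ`, then `im F` is bounded away from `π` on `Strip` (on `{r ≤ im w ≤ π - r}` by periodicity and compactness), but `F` is onto
`Strip`: contradiction. So for each `κ` one is low and the other is high; the alternative does not depend on `κ` (for `κ' < κ` the upper sets intersect). This is `ends`.
(2) `path_up`: `Up F`, `z ∈ Strip`, `θ ∈ (im z, π)`. `im F` is bounded by some `m < π` on `{w ∈ Strip | im w ≤ θ}` (near the bottom `< 1`, and the rest modulo the period is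
compact). The function `t ↦ im (G (F z + i t))`, `0 ≤ t < π - im (F z)`, is continuous, equals `im z < θ` at `t = 0`, and is `> θ` as soon as `im (F z) + t > m`
(otherwise `w = G (F z + i t)` has `im w ≤ θ` and `im (F w) = im (F z) + t > m`). Intermediate value theorem: some `t` has `im (G (F z + i t)) = θ`; put
`s = re (G (F z + i t))`. The other three statements are the same (for `Down` exchange the ends).
-/

set_option autoImplicit false

open MeasureTheory UpperHalfPlane
open scoped ContDiff MatrixGroups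

noncomputable section

namespace Pool.Agent.Helper48.QH

/-- `F` fixes the two ends -/
def Up (F : ℂ → ℂ) : Prop :=
  (∀ κ : ℝ, 0 < κ → ∃ r : ℝ, 0 < r ∧ ∀ w ∈ Strip, Real.pi - r < w.im → Real.pi - κ < (F w).im) ∧
  (∀ κ : ℝ, 0 < κ → ∃ r : ℝ, 0 < r ∧ ∀ w ∈ Strip, w.im < r → (F w).im < κ)

/-- `F` exchanges the two ends -/
def Down (F : ℂ → ℂ) : Prop :=
  (∀ κ : ℝ, 0 < κ → ∃ r : ℝ, 0 < r ∧ ∀ w ∈ Strip, Real.pi - r < w.im → (F w).im < κ) ∧
  (∀ κ : ℝ, 0 < κ → ∃ r : ℝ, 0 < r ∧ ∀ w ∈ Strip, w.im < r → Real.pi - κ < (F w).im)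

private theorem symm56 {a b : ℝ} {F G : ℂ → ℂ} (h : StripMap a b F G) : StripMap b a G F := by
  refine ⟨h.bpos, h.apos, h.contG, h.contF, h.mapsG, h.mapsF, h.FG, h.GF, ?_⟩
  intro w hw
  have h1 := h.per (G w) (h.mapsG w hw)
  rw [h.FG w hw] at h1
  have h2 : G w + a ∈ Strip := by
    have := h.mapsG w hw
    unfold Strip at this ⊢
    simpa using this
  rw [← h1, h.GF _ h2]

private theorem shift56 {w : ℂ} (hw : w ∈ Strip) (x : ℝ) : w + x ∈ Strip := by
  unfold Strip at hw ⊢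
  simpa using hw

private theorem per56 {a b : ℝ} {F G : ℂ → ℂ} (h : StripMap a b F G) {w : ℂ} (hw : w ∈ Strip) (n : ℕ) :
    F (w + ((n * a : ℝ) : ℂ)) = F w + ((n * b : ℝ) : ℂ) := by
  induction n with
  | zero => simp
  | succ n ih =>
    have h1 : w + (((n + 1 : ℕ) * a : ℝ) : ℂ) = (w + ((n * a : ℝ) : ℂ)) + a := by push_cast; ring
    rw [h1, h.per _ (shift56 hw _), ih]
    push_cast
    ring

private theorem red56 {a b : ℝ} {F G : ℂ → ℂ} (h : StripMap a b F G) {w : ℂ} (hw : w ∈ Strip) :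
    ∃ w' ∈ Strip, 0 ≤ w'.re ∧ w'.re ≤ a ∧ w'.im = w.im ∧ (F w').im = (F w).im := by
  have ha := h.apos
  have e0 : (⌊w.re / a⌋ : ℝ) * a ≤ w.re := by
    have := Int.floor_le (w.re / a)
    rwa [le_div_iff₀ ha] at this
  have e1 : w.re < ((⌊w.re / a⌋ : ℝ) + 1) * a := by
    have := Int.lt_floor_add_one (w.re / a)
    rwa [div_lt_iff₀ ha] at this
  refine ⟨w + ((-((⌊w.re / a⌋ : ℝ) * a) : ℝ) : ℂ), shift56 hw _, ?_, ?_, ?_, ?_⟩
  · rw [Complex.add_re, Complex.ofReal_re]
    linarith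
  · rw [Complex.add_re, Complex.ofReal_re]
    linarith
  · rw [Complex.add_im, Complex.ofReal_im, add_zero]
  · rcases Int.eq_nat_or_neg ⌊w.re / a⌋ with ⟨n, hn | hn⟩
    · have h1 := per56 h (shift56 hw (-((⌊w.re / a⌋ : ℝ) * a))) n
      have h2 : w + ((-((⌊w.re / a⌋ : ℝ) * a) : ℝ) : ℂ) + ((n * a : ℝ) : ℂ) = w := by
        rw [hn]
        push_cast
        ring
      rw [h2] at h1
      rw [h1, Complex.add_im, Complex.ofReal_im, add_zero]
    · have h2 : ((-((⌊w.re / a⌋ : ℝ) * a) : ℝ) : ℂ) = ((n * a : ℝ) : ℂ) := by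
        rw [hn]
        push_cast
        ring
      rw [h2, per56 h hw n, Complex.add_im, Complex.ofReal_im, add_zero]

private theorem bdd56 {a b : ℝ} {F G : ℂ → ℂ} (h : StripMap a b F G) {κ : ℝ} (hκ : 0 < κ) :
    ∃ r : ℝ, 0 < r ∧ ∀ w ∈ Strip, κ ≤ w.im → w.im ≤ Real.pi - κ →
      r ≤ (F w).im ∧ (F w).im ≤ Real.pi - r := by
  obtain ⟨K, hK⟩ : ∃ K : Set ℂ, K = Set.Icc (0 : ℝ) a ×ℂ Set.Icc κ (Real.pi - κ) := ⟨_, rfl⟩
  have hKc : IsCompact K := by
    rw [hK]
    exact isCompact_Icc.reProdIm isCompact_Icc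
  have hKm : ∀ w, w ∈ K ↔ (0 ≤ w.re ∧ w.re ≤ a) ∧ (κ ≤ w.im ∧ w.im ≤ Real.pi - κ) := by
    intro w
    rw [hK, Complex.mem_reProdIm, Set.mem_Icc, Set.mem_Icc]
  have hKS : K ⊆ Strip := by
    intro w hw
    have h1 := (hKm w).1 hw
    exact ⟨by linarith [h1.2.1], by linarith [h1.2.2]⟩
  have hcont : ContinuousOn (fun w => (F w).im) K :=
    Complex.continuous_im.comp_continuousOn (h.contF.mono hKS)
  have hred : ∀ w ∈ Strip, κ ≤ w.im → w.im ≤ Real.pi - κ → ∃ w' ∈ K, (F w').im = (F w).im := by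
    intro w hw h1 h2
    obtain ⟨w', -, h3, h4, h5, h6⟩ := red56 h hw
    exact ⟨w', (hKm w').2 ⟨⟨h3, h4⟩, by rw [h5]; exact ⟨h1, h2⟩⟩, h6⟩
  rcases K.eq_empty_or_nonempty with hE | hE
  · refine ⟨1, one_pos, ?_⟩
    intro w hw h1 h2
    obtain ⟨w', hw', -⟩ := hred w hw h1 h2
    rw [hE] at hw'
    exact absurd hw' (Set.notMem_empty _)
  · obtain ⟨w1, hw1, hmin⟩ := hKc.exists_isMinOn hE hcont
    obtain ⟨w2, hw2, hmax⟩ := hKc.exists_isMaxOn hE hcont
    have p1 := h.mapsF w1 (hKS hw1)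
    have p2 := h.mapsF w2 (hKS hw2)
    refine ⟨min (F w1).im (Real.pi - (F w2).im), lt_min p1.1 (by linarith [p2.2]), ?_⟩
    intro w hw h1 h2
    obtain ⟨w', hw', h3⟩ := hred w hw h1 h2
    have g1 : (F w1).im ≤ (F w').im := hmin hw'
    have g2 : (F w').im ≤ (F w2).im := hmax hw'
    rw [h3] at g1 g2
    have g3 := min_le_left (F w1).im (Real.pi - (F w2).im)
    have g4 := min_le_right (F w1).im (Real.pi - (F w2).im)
    exact ⟨by linarith, by linarith⟩

private theorem fam56 {a b : ℝ} {F G : ℂ → ℂ} (h : StripMap a b F G) (S : ℝ → Set ℂ)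
    (hS : ∀ r, S r ⊆ Strip) (hpre : ∀ r, IsPreconnected (S r)) (hne : ∀ r, 0 < r → (S r).Nonempty)
    (hanti : ∀ r r', r ≤ r' → S r ⊆ S r')
    (hout : ∀ r, ∀ w ∈ S r, ¬ (r ≤ w.im ∧ w.im ≤ Real.pi - r)) :
    (∀ κ : ℝ, 0 < κ → ∃ r : ℝ, 0 < r ∧ ∀ w ∈ S r, Real.pi - κ < (F w).im) ∨
    (∀ κ : ℝ, 0 < κ → ∃ r : ℝ, 0 < r ∧ ∀ w ∈ S r, (F w).im < κ) := by
  have hpi := Real.pi_gt_three
  have key : ∀ κ : ℝ, 0 < κ → κ ≤ 1 → ∃ r : ℝ, 0 < r ∧
      ((∀ w ∈ S r, Real.pi - κ < (F w).im) ∨ (∀ w ∈ S r, (F w).im < κ)) := by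
    intro κ hκ hκ1
    obtain ⟨r, hr, hb⟩ := bdd56 (symm56 h) hκ
    have hor : ∀ w ∈ S r, (F w).im < κ ∨ Real.pi - κ < (F w).im := by
      intro w hw
      by_contra hcon
      push Not at hcon
      have h1 := hb (F w) (h.mapsF w (hS r hw)) hcon.1 hcon.2
      rw [h.GF w (hS r hw)] at h1
      exact hout r w hw h1
    refine ⟨r, hr, ?_⟩
    by_contra hcon
    push Not at hcon
    obtain ⟨⟨w1, hw1, h1⟩, ⟨w2, hw2, h2⟩⟩ := hcon
    have hcont : ContinuousOn (fun w => (F w).im) (S r) :=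
      Complex.continuous_im.comp_continuousOn (h.contF.mono (hS r))
    have hi := (hpre r).image _ hcont
    have g1 : (F w1).im < κ := (hor w1 hw1).resolve_right (not_lt.2 h1)
    have g2 : Real.pi - κ < (F w2).im := (hor w2 hw2).resolve_left (not_lt.2 h2)
    have g3 := hi.Icc_subset (Set.mem_image_of_mem _ hw1) (Set.mem_image_of_mem _ hw2)
      (Set.mem_Icc.2 ⟨(by linarith : (F w1).im ≤ Real.pi / 2), (by linarith : Real.pi / 2 ≤ (F w2).im)⟩)
    obtain ⟨w3, hw3, h3⟩ := g3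
    have h3' : (F w3).im = Real.pi / 2 := h3
    rcases hor w3 hw3 with g | g
    · linarith
    · linarith
  obtain ⟨r0, hr0, h0⟩ := key 1 one_pos le_rfl
  rcases h0 with h0 | h0
  · left
    intro κ hκ
    obtain ⟨r, hr, h1⟩ := key (min κ 1) (lt_min hκ one_pos) (min_le_right _ _)
    have m1 := min_le_left κ 1
    have m2 := min_le_right κ 1
    rcases h1 with h1 | h1
    · exact ⟨r, hr, fun w hw => lt_of_le_of_lt (by linarith) (h1 w hw)⟩
    · exfalso
      obtain ⟨w, hw⟩ := hne (min r r0) (lt_min hr hr0)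
      have g1 := h1 w (hanti _ _ (min_le_left _ _) hw)
      have g2 := h0 w (hanti _ _ (min_le_right _ _) hw)
      linarith
  · right
    intro κ hκ
    obtain ⟨r, hr, h1⟩ := key (min κ 1) (lt_min hκ one_pos) (min_le_right _ _)
    have m1 := min_le_left κ 1
    have m2 := min_le_right κ 1
    rcases h1 with h1 | h1
    · exfalso
      obtain ⟨w, hw⟩ := hne (min r r0) (lt_min hr hr0)
      have g1 := h1 w (hanti _ _ (min_le_left _ _) hw)
      have g2 := h0 w (hanti _ _ (min_le_right _ _) hw)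
      linarith
    · exact ⟨r, hr, fun w hw => lt_of_lt_of_le (h1 w hw) (by linarith)⟩

private theorem top56 (r : ℝ) : IsPreconnected {w : ℂ | w ∈ Strip ∧ Real.pi - r < w.im} := by
  have h1 : {w : ℂ | w ∈ Strip ∧ Real.pi - r < w.im} =
      ({w : ℂ | 0 < w.im} ∩ {w : ℂ | w.im < Real.pi}) ∩ {w : ℂ | Real.pi - r < w.im} := by
    ext w
    rfl
  rw [h1]
  exact (((convex_halfSpace_im_gt 0).inter (convex_halfSpace_im_lt _)).inter
    (convex_halfSpace_im_gt _)).isPreconnected

private theorem bot56 (r : ℝ) : IsPreconnected {w : ℂ | w ∈ Strip ∧ w.im < r} := by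
  have h1 : {w : ℂ | w ∈ Strip ∧ w.im < r} =
      ({w : ℂ | 0 < w.im} ∩ {w : ℂ | w.im < Real.pi}) ∩ {w : ℂ | w.im < r} := by
    ext w
    rfl
  rw [h1]
  exact (((convex_halfSpace_im_gt 0).inter (convex_halfSpace_im_lt _)).inter
    (convex_halfSpace_im_lt _)).isPreconnected

private theorem mem56 {x y : ℝ} (h0 : 0 < y) (h1 : y < Real.pi) : (x : ℂ) + y * Complex.I ∈ Strip := by
  unfold Strip
  simp [h0, h1]

private theorem im56 (x y : ℝ) : ((x : ℂ) + y * Complex.I).im = y := by simp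

/-- intermediate value along a vertical line in the image -/
private theorem ivt56 {a b : ℝ} {F G : ℂ → ℂ} (h : StripMap a b F G) {z : ℂ} (hz : z ∈ Strip) {y θ : ℝ}
    (h0 : 0 < y) (h1 : y < Real.pi)
    (hθ : θ ∈ Set.uIcc z.im (G (((F z).re : ℂ) + y * Complex.I)).im) :
    ∃ s t : ℝ, t ∈ Set.uIcc (F z).im y ∧ (F (s + θ * Complex.I)).im = t := by
  have hFz := h.mapsF z hz
  have hsub : ∀ t ∈ Set.uIcc (F z).im y, 0 < t ∧ t < Real.pi := by
    intro t ht
    rcases Set.mem_uIcc.1 ht with g | g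
    · exact ⟨lt_of_lt_of_le hFz.1 g.1, lt_of_le_of_lt g.2 h1⟩
    · exact ⟨lt_of_lt_of_le h0 g.1, lt_of_le_of_lt g.2 hFz.2⟩
  have hc : ContinuousOn (fun t : ℝ => (G (((F z).re : ℂ) + t * Complex.I)).im) (Set.uIcc (F z).im y) := by
    apply Complex.continuous_im.comp_continuousOn
    apply h.contG.comp (by fun_prop)
    intro t ht
    exact mem56 (hsub t ht).1 (hsub t ht).2
  have hiv := intermediate_value_uIcc hc
  have e1 : G (((F z).re : ℂ) + ((F z).im : ℂ) * Complex.I) = z := by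
    rw [Complex.re_add_im, h.GF z hz]
  have hmem : θ ∈ Set.uIcc (G (((F z).re : ℂ) + ((F z).im : ℂ) * Complex.I)).im
      (G (((F z).re : ℂ) + y * Complex.I)).im := by
    rw [e1]
    exact hθ
  obtain ⟨t, ht, h2⟩ := hiv hmem
  obtain ⟨w, hw⟩ : ∃ w, w = G (((F z).re : ℂ) + t * Complex.I) := ⟨_, rfl⟩
  have h2' : w.im = θ := by rw [hw]; exact h2
  refine ⟨w.re, t, ht, ?_⟩
  rw [← h2', Complex.re_add_im, hw, h.FG _ (mem56 (hsub t ht).1 (hsub t ht).2), im56]

theorem ends {a b : ℝ} {F G : ℂ → ℂ} (h : StripMap a b F G) : Up F ∨ Down F := by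
  have hpi := Real.pi_gt_three
  have htop := fam56 h (fun r => {w : ℂ | w ∈ Strip ∧ Real.pi - r < w.im}) (fun r w hw => hw.1) top56 ?_ ?_ ?_
  have hbot := fam56 h (fun r => {w : ℂ | w ∈ Strip ∧ w.im < r}) (fun r w hw => hw.1) bot56 ?_ ?_ ?_
  · rcases htop with htop | htop
    · rcases hbot with hbot | hbot
      · -- both ends high
        exfalso
        obtain ⟨r1, hr1, g1⟩ := htop 1 one_pos
        obtain ⟨r2, hr2, g2⟩ := hbot 1 one_pos
        obtain ⟨r, hr, g⟩ := bdd56 h (lt_min hr1 hr2)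
        have m1 := min_le_left r1 r2
        have m2 := min_le_right r1 r2
        have hall : ∀ w ∈ Strip, min r 1 ≤ (F w).im := by
          intro w hw
          have m3 := min_le_left r 1
          have m4 := min_le_right r 1
          by_cases c1 : Real.pi - r1 < w.im
          · have := g1 w ⟨hw, c1⟩
            linarith
          by_cases c2 : w.im < r2
          · have := g2 w ⟨hw, c2⟩
            linarith
          · have := (g w hw (by linarith) (by linarith)).1
            linarith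
        have hm : 0 < min r 1 := lt_min hr one_pos
        have hm1 := min_le_right r 1
        have hz : ((0 : ℝ) : ℂ) + ((min r 1 / 2 : ℝ) : ℂ) * Complex.I ∈ Strip := mem56 (by linarith) (by linarith)
        have g3 := hall _ (h.mapsG _ hz)
        rw [h.FG _ hz, im56] at g3
        linarith
      · left
        exact ⟨fun κ hκ => (htop κ hκ).imp fun r hr => ⟨hr.1, fun w hw h1 => hr.2 w ⟨hw, h1⟩⟩,
          fun κ hκ => (hbot κ hκ).imp fun r hr => ⟨hr.1, fun w hw h1 => hr.2 w ⟨hw, h1⟩⟩⟩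
    · rcases hbot with hbot | hbot
      · right
        exact ⟨fun κ hκ => (htop κ hκ).imp fun r hr => ⟨hr.1, fun w hw h1 => hr.2 w ⟨hw, h1⟩⟩,
          fun κ hκ => (hbot κ hκ).imp fun r hr => ⟨hr.1, fun w hw h1 => hr.2 w ⟨hw, h1⟩⟩⟩
      · -- both ends low
        exfalso
        obtain ⟨r1, hr1, g1⟩ := htop 1 one_pos
        obtain ⟨r2, hr2, g2⟩ := hbot 1 one_pos
        obtain ⟨r, hr, g⟩ := bdd56 h (lt_min hr1 hr2)
        have m1 := min_le_left r1 r2
        have m2 := min_le_right r1 r2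
        have hall : ∀ w ∈ Strip, (F w).im ≤ Real.pi - min r 1 := by
          intro w hw
          have m3 := min_le_left r 1
          have m4 := min_le_right r 1
          by_cases c1 : Real.pi - r1 < w.im
          · have := g1 w ⟨hw, c1⟩
            linarith
          by_cases c2 : w.im < r2
          · have := g2 w ⟨hw, c2⟩
            linarith
          · have := (g w hw (by linarith) (by linarith)).2
            linarith
        have hm : 0 < min r 1 := lt_min hr one_pos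
        have hm1 := min_le_right r 1
        have hz : ((0 : ℝ) : ℂ) + ((Real.pi - min r 1 / 2 : ℝ) : ℂ) * Complex.I ∈ Strip :=
          mem56 (by linarith) (by linarith)
        have g3 := hall _ (h.mapsG _ hz)
        rw [h.FG _ hz, im56] at g3
        linarith
  · intro r hr
    refine ⟨((0 : ℝ) : ℂ) + ((min r 1 / 2 : ℝ) : ℂ) * Complex.I, ?_, ?_⟩
    · have := lt_min hr one_pos
      have := min_le_right r 1
      exact mem56 (by linarith) (by linarith)
    · rw [im56]
      have := min_le_left r 1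
      linarith
  · intro r r' hr w hw
    exact ⟨hw.1, lt_of_lt_of_le hw.2 hr⟩
  · intro r w hw hcon
    linarith [hw.2, hcon.1]
  · intro r hr
    refine ⟨((0 : ℝ) : ℂ) + ((Real.pi - min r 1 / 2 : ℝ) : ℂ) * Complex.I, ?_, ?_⟩
    · have := lt_min hr one_pos
      have := min_le_right r 1
      exact mem56 (by linarith) (by linarith)
    · rw [im56]
      have := min_le_left r 1
      linarith
  · intro r r' hr w hw
    exact ⟨hw.1, by linarith [hw.2]⟩
  · intro r w hw hcon
    linarith [hw.2, hcon.2]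

theorem path_up {a b : ℝ} {F G : ℂ → ℂ} (h : StripMap a b F G) (hU : Up F) {z : ℂ} (hz : z ∈ Strip) :
    (∀ θ : ℝ, z.im < θ → θ < Real.pi → ∃ s : ℝ, (F z).im ≤ (F (s + θ * Complex.I)).im) ∧
    (∀ θ : ℝ, 0 < θ → θ < z.im → ∃ s : ℝ, (F (s + θ * Complex.I)).im ≤ (F z).im) := by
  have hpi := Real.pi_gt_three
  have hFz := h.mapsF z hz
  constructor
  · intro θ h1 h2
    obtain ⟨r, hr, g⟩ := hU.2 1 one_pos
    obtain ⟨r', hr', g'⟩ := bdd56 h (lt_min hr (sub_pos.2 h2))
    have m1 := min_le_left r (Real.pi - θ)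
    have m2 := min_le_right r (Real.pi - θ)
    have hall : ∀ w ∈ Strip, w.im ≤ θ → (F w).im ≤ max 1 (Real.pi - r') := by
      intro w hw hwθ
      by_cases c : w.im < r
      · exact le_trans (g w hw c).le (le_max_left _ _)
      · exact le_trans (g' w hw (by linarith) (by linarith)).2 (le_max_right _ _)
    have hm : max 1 (Real.pi - r') < Real.pi := max_lt (by linarith) (by linarith)
    have hM : max (F z).im (max 1 (Real.pi - r')) < Real.pi := max_lt hFz.2 hm
    obtain ⟨y, hy1, hy2⟩ := exists_between hM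
    have y1 : (F z).im < y := lt_of_le_of_lt (le_max_left _ _) hy1
    have y2 : max 1 (Real.pi - r') < y := lt_of_le_of_lt (le_max_right _ _) hy1
    have y0 : 0 < y := lt_trans hFz.1 y1
    have hθ : θ < (G (((F z).re : ℂ) + y * Complex.I)).im := by
      by_contra hcon
      have g3 := hall _ (h.mapsG _ (mem56 y0 hy2)) (not_lt.1 hcon)
      rw [h.FG _ (mem56 y0 hy2), im56] at g3
      linarith
    obtain ⟨s, t, ht, h3⟩ := ivt56 h hz y0 hy2 (Set.mem_uIcc.2 (Or.inl ⟨h1.le, hθ.le⟩))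
    refine ⟨s, ?_⟩
    rw [h3]
    rw [Set.uIcc_of_le y1.le] at ht
    exact ht.1
  · intro θ h1 h2
    obtain ⟨r, hr, g⟩ := hU.1 1 one_pos
    obtain ⟨r', hr', g'⟩ := bdd56 h (lt_min hr h1)
    have m1 := min_le_left r θ
    have m2 := min_le_right r θ
    have hall : ∀ w ∈ Strip, θ ≤ w.im → min (Real.pi - 1) r' ≤ (F w).im := by
      intro w hw hwθ
      by_cases c : Real.pi - r < w.im
      · exact le_trans (min_le_left _ _) (g w hw c).le
      · exact le_trans (min_le_right _ _) (g' w hw (by linarith) (by linarith)).1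
    have hm : 0 < min (Real.pi - 1) r' := lt_min (by linarith) hr'
    have hM : 0 < min (F z).im (min (Real.pi - 1) r') := lt_min hFz.1 hm
    obtain ⟨y, hy1, hy2⟩ := exists_between hM
    have y1 : y < (F z).im := lt_of_lt_of_le hy2 (min_le_left _ _)
    have y2 : y < min (Real.pi - 1) r' := lt_of_lt_of_le hy2 (min_le_right _ _)
    have y0 : y < Real.pi := lt_trans y1 hFz.2
    have hθ : (G (((F z).re : ℂ) + y * Complex.I)).im < θ := by
      by_contra hcon
      have g3 := hall _ (h.mapsG _ (mem56 hy1 y0)) (not_lt.1 hcon)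
      rw [h.FG _ (mem56 hy1 y0), im56] at g3
      linarith
    obtain ⟨s, t, ht, h3⟩ := ivt56 h hz hy1 y0 (Set.mem_uIcc.2 (Or.inr ⟨hθ.le, h2.le⟩))
    refine ⟨s, ?_⟩
    rw [h3]
    rw [Set.uIcc_of_ge y1.le] at ht
    exact ht.2

theorem path_down {a b : ℝ} {F G : ℂ → ℂ} (h : StripMap a b F G) (hD : Down F) {z : ℂ}
    (hz : z ∈ Strip) :
    (∀ θ : ℝ, z.im < θ → θ < Real.pi → ∃ s : ℝ, (F (s + θ * Complex.I)).im ≤ (F z).im) ∧
    (∀ θ : ℝ, 0 < θ → θ < z.im → ∃ s : ℝ, (F z).im ≤ (F (s + θ * Complex.I)).im) := by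
  have hpi := Real.pi_gt_three
  have hFz := h.mapsF z hz
  constructor
  · intro θ h1 h2
    obtain ⟨r, hr, g⟩ := hD.2 1 one_pos
    obtain ⟨r', hr', g'⟩ := bdd56 h (lt_min hr (sub_pos.2 h2))
    have m1 := min_le_left r (Real.pi - θ)
    have m2 := min_le_right r (Real.pi - θ)
    have hall : ∀ w ∈ Strip, w.im ≤ θ → min (Real.pi - 1) r' ≤ (F w).im := by
      intro w hw hwθ
      by_cases c : w.im < r
      · exact le_trans (min_le_left _ _) (g w hw c).le
      · exact le_trans (min_le_right _ _) (g' w hw (by linarith) (by linarith)).1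
    have hm : 0 < min (Real.pi - 1) r' := lt_min (by linarith) hr'
    have hM : 0 < min (F z).im (min (Real.pi - 1) r') := lt_min hFz.1 hm
    obtain ⟨y, hy1, hy2⟩ := exists_between hM
    have y1 : y < (F z).im := lt_of_lt_of_le hy2 (min_le_left _ _)
    have y2 : y < min (Real.pi - 1) r' := lt_of_lt_of_le hy2 (min_le_right _ _)
    have y0 : y < Real.pi := lt_trans y1 hFz.2
    have hθ : θ < (G (((F z).re : ℂ) + y * Complex.I)).im := by
      by_contra hcon
      have g3 := hall _ (h.mapsG _ (mem56 hy1 y0)) (not_lt.1 hcon)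
      rw [h.FG _ (mem56 hy1 y0), im56] at g3
      linarith
    obtain ⟨s, t, ht, h3⟩ := ivt56 h hz hy1 y0 (Set.mem_uIcc.2 (Or.inl ⟨h1.le, hθ.le⟩))
    refine ⟨s, ?_⟩
    rw [h3]
    rw [Set.uIcc_of_ge y1.le] at ht
    exact ht.2
  · intro θ h1 h2
    obtain ⟨r, hr, g⟩ := hD.1 1 one_pos
    obtain ⟨r', hr', g'⟩ := bdd56 h (lt_min hr h1)
    have m1 := min_le_left r θ
    have m2 := min_le_right r θ
    have hall : ∀ w ∈ Strip, θ ≤ w.im → (F w).im ≤ max 1 (Real.pi - r') := by
      intro w hw hwθ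
      by_cases c : Real.pi - r < w.im
      · exact le_trans (g w hw c).le (le_max_left _ _)
      · exact le_trans (g' w hw (by linarith) (by linarith)).2 (le_max_right _ _)
    have hm : max 1 (Real.pi - r') < Real.pi := max_lt (by linarith) (by linarith)
    have hM : max (F z).im (max 1 (Real.pi - r')) < Real.pi := max_lt hFz.2 hm
    obtain ⟨y, hy1, hy2⟩ := exists_between hM
    have y1 : (F z).im < y := lt_of_le_of_lt (le_max_left _ _) hy1
    have y2 : max 1 (Real.pi - r') < y := lt_of_le_of_lt (le_max_right _ _) hy1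
    have y0 : 0 < y := lt_trans hFz.1 y1
    have hθ : (G (((F z).re : ℂ) + y * Complex.I)).im < θ := by
      by_contra hcon
      have g3 := hall _ (h.mapsG _ (mem56 y0 hy2)) (not_lt.1 hcon)
      rw [h.FG _ (mem56 y0 hy2), im56] at g3
      linarith
    obtain ⟨s, t, ht, h3⟩ := ivt56 h hz y0 hy2 (Set.mem_uIcc.2 (Or.inr ⟨hθ.le, h2.le⟩))
    refine ⟨s, ?_⟩
    rw [h3]
    rw [Set.uIcc_of_le y1.le] at ht
    exact ht.1

end Pool.Agent.Helper48.QH
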