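import Pool.Agent.Helper48.QH.Core

/-!
# QH, block C1b: existence of bumps, values of a mollified function

PROOF. `exists_bump`: a normed `ContDiffBump` at `0` with radii `r/2`, `r` on `ℂ` (`ContDiffBump.normed`, integral one, smooth, nonnegative, support in the ball of radius
`r`). `mol_le`, `le_mol`: `mol ρ v z = ∫ ρ (z - w) v w dw`, `∫ ρ (z - w) dw = 1`, `ρ (z - w) = 0` unless `‖z - w‖ ≤ r`, so if `v w ≤ m` on the closed ball of
radius `r` then the integral is `≤ m` (`v` bounded measurable gives integrability; compare with `ρ (z - w) * m`). `mol_periodic`: translation invariance.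
-/

set_option autoImplicit false

open MeasureTheory UpperHalfPlane
open scoped ContDiff MatrixGroups

noncomputable section

namespace Pool.Agent.Helper48.QH

/-- the shifted bump -/
private theorem int53 {r : ℝ} {ρ : ℂ → ℝ} (hρ : Bump r ρ) (z : ℂ) :
    Integrable (fun w => ρ (z - w)) ∧ ∫ w, ρ (z - w) = 1 := by
  have hc : HasCompactSupport ρ := by
    refine HasCompactSupport.of_support_subset_isCompact (isCompact_closedBall (0 : ℂ) r) ?_
    intro w hw
    rw [Metric.mem_closedBall, dist_zero_right]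
    by_contra hcon
    exact hw (hρ.supp w (not_le.1 hcon))
  have hi : Integrable ρ := hρ.smooth.continuous.integrable_of_hasCompactSupport hc
  exact ⟨hi.comp_sub_left z, by rw [integral_sub_left_eq_self ρ volume z, hρ.int_one]⟩

private theorem intv53 {r : ℝ} {ρ : ℂ → ℝ} (hρ : Bump r ρ) {v : ℂ → ℝ} (hv : Measurable v) {B : ℝ}
    (hB : ∀ z, |v z| ≤ B) (z : ℂ) : Integrable (fun w => ρ (z - w) * v w) := by
  have h1 := (int53 hρ z).1
  refine h1.mul_bdd (c := B) hv.aestronglyMeasurable ?_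
  exact Filter.Eventually.of_forall fun w => by rw [Real.norm_eq_abs]; exact hB w

theorem exists_bump {r : ℝ} (hr : 0 < r) : ∃ ρ : ℂ → ℝ, Bump r ρ := by
  let φ : ContDiffBump (0 : ℂ) := ⟨r / 2, r, half_pos hr, half_lt_self hr⟩
  refine ⟨φ.normed volume, hr, φ.contDiff_normed, fun z => φ.nonneg_normed z, ?_, φ.integral_normed⟩
  intro z hz
  by_contra hcon
  have h1 : z ∈ Function.support (φ.normed volume) := hcon
  rw [φ.support_normed_eq, Metric.mem_ball, dist_zero_right] at h1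
  exact absurd hz (not_lt.2 (show ‖z‖ < r from h1).le)

theorem mol_le {r : ℝ} {ρ : ℂ → ℝ} (hρ : Bump r ρ) {v : ℂ → ℝ} (hv : Measurable v) {B : ℝ}
    (hB : ∀ z, |v z| ≤ B) {z : ℂ} {m : ℝ} (hm : ∀ w, ‖w - z‖ ≤ r → v w ≤ m) : mol ρ v z ≤ m := by
  obtain ⟨h1, h2⟩ := int53 hρ z
  have h3 : ∫ w, ρ (z - w) * m = m := by rw [integral_mul_const, h2, one_mul]
  rw [mol, ← h3]
  refine integral_mono (intv53 hρ hv hB z) (h1.mul_const m) fun w => ?_
  change ρ (z - w) * v w ≤ ρ (z - w) * m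
  by_cases h4 : ‖w - z‖ ≤ r
  · exact mul_le_mul_of_nonneg_left (hm w h4) (hρ.nonneg _)
  · rw [hρ.supp (z - w) (by rw [norm_sub_rev]; exact not_le.1 h4), zero_mul, zero_mul]

theorem le_mol {r : ℝ} {ρ : ℂ → ℝ} (hρ : Bump r ρ) {v : ℂ → ℝ} (hv : Measurable v) {B : ℝ}
    (hB : ∀ z, |v z| ≤ B) {z : ℂ} {m : ℝ} (hm : ∀ w, ‖w - z‖ ≤ r → m ≤ v w) : m ≤ mol ρ v z := by
  obtain ⟨h1, h2⟩ := int53 hρ z
  have h3 : ∫ w, ρ (z - w) * m = m := by rw [integral_mul_const, h2, one_mul]
  rw [mol]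
  conv_lhs => rw [← h3]
  refine integral_mono (h1.mul_const m) (intv53 hρ hv hB z) fun w => ?_
  change ρ (z - w) * m ≤ ρ (z - w) * v w
  by_cases h4 : ‖w - z‖ ≤ r
  · exact mul_le_mul_of_nonneg_left (hm w h4) (hρ.nonneg _)
  · rw [hρ.supp (z - w) (by rw [norm_sub_rev]; exact not_le.1 h4), zero_mul, zero_mul]

theorem mol_periodic {ρ v : ℂ → ℝ} {a : ℂ} (h : ∀ z, v (z + a) = v z) (z : ℂ) :
    mol ρ v (z + a) = mol ρ v z := by
  rw [mol, mol, ← integral_add_right_eq_self (fun w => ρ (z + a - w) * v w) a]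
  refine integral_congr_ae (Filter.Eventually.of_forall fun w => ?_)
  change ρ (z + a - (w + a)) * v (w + a) = ρ (z - w) * v w
  rw [h, add_sub_add_right_eq_sub]

end Pool.Agent.Helper48.QH
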