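import Pool.Agent.Helper48.QH.Core

/-!
# QH, block C1: mollification of a function with finite dual energy

`mol ρ v z = ∫ w, ρ (z - w) * v w`, `Bump r ρ`: smooth, nonnegative, zero for `r < ‖z‖`, integral one.

PROOF. `mol_smooth`: `mol ρ v` is the convolution of `v` (bounded measurable, so locally integrable) with `ρ` (smooth, compact support):
`HasCompactSupport.contDiff_convolution_left/right` (up to the order of the factors).
`mol_energy`: let `g = mol ρ v` (smooth) and `q z = χ z * (∂_x g + i ∂_y g)(z)` (smooth, compact support), and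
`p w = ∫ z, ρ (z - w) • q z` (smooth, as a convolution of `q` with `ρ (-·)`; `p w ≠ 0` only if some `z ∈ tsupport χ` has `‖z - w‖ ≤ r`, so `tsupport p` is
contained in the compact set of these `w`, contained in `U`). Then `dvg p w = ∫ z, ρ (z - w) dvg q z`, Fubini gives
`∫ v dvg p = ∫ z, g z * dvg q z`, and integration by parts `∫ g dvg q = - ∫ ∇g · q = - ∫ χ ‖∇g‖^2` (`‖fderiv ℝ g z‖^2 = (∂_x g)^2 + (∂_y g)^2` for a real valued `g`
on `ℂ`). Also `‖p w‖^2 ≤ ∫ z, ρ (z - w) ‖q z‖^2` (Cauchy-Schwarz or Jensen, `∫ ρ = 1`), so `∫ ‖p‖^2 ≤ ∫ ‖q‖^2 = ∫ χ^2 ‖∇g‖^2 ≤ ∫ χ ‖∇g‖^2`. Hence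
`A ≥ -2 ∫ v dvg p - ∫ ‖p‖^2 ≥ 2 ∫ χ ‖∇g‖^2 - ∫ χ ‖∇g‖^2`.
-/

set_option autoImplicit false

open MeasureTheory UpperHalfPlane
open scoped ContDiff MatrixGroups

noncomputable section

namespace Pool.Agent.Helper48.QH

private theorem cs56 {r : ℝ} {ρ : ℂ → ℝ} (hρ : Bump r ρ) : HasCompactSupport ρ := by
  refine HasCompactSupport.of_support_subset_isCompact (isCompact_closedBall (0 : ℂ) r) ?_
  intro w hw
  rw [Metric.mem_closedBall, dist_zero_right]
  by_contra hcon
  exact hw (hρ.supp w (not_le.1 hcon))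

/-- the reflected bump -/
private def rf56 (ρ : ℂ → ℝ) (z : ℂ) : ℝ := ρ (-z)

private theorem rfs56 {r : ℝ} {ρ : ℂ → ℝ} (hρ : Bump r ρ) : ContDiff ℝ ∞ (rf56 ρ) :=
  hρ.smooth.comp contDiff_neg

private theorem rfc56 {r : ℝ} {ρ : ℂ → ℝ} (hρ : Bump r ρ) : HasCompactSupport (rf56 ρ) := by
  refine HasCompactSupport.of_support_subset_isCompact (isCompact_closedBall (0 : ℂ) r) ?_
  intro w hw
  rw [Metric.mem_closedBall, dist_zero_right]
  by_contra hcon
  exact hw (hρ.supp (-w) (by rw [norm_neg]; exact not_le.1 hcon))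

private theorem locint56 {v : ℂ → ℝ} (hv : Measurable v) {B : ℝ} (hB : ∀ z, |v z| ≤ B) :
    LocallyIntegrable v volume := by
  refine (locallyIntegrable_const (μ := (volume : Measure ℂ)) B).mono hv.aestronglyMeasurable ?_
  refine Filter.Eventually.of_forall fun z => ?_
  rw [Real.norm_eq_abs, Real.norm_eq_abs]
  exact le_trans (hB z) (le_abs_self B)

/-- the dual convolution -/
private def P56 (ρ f : ℂ → ℝ) (w : ℂ) : ℝ := ∫ z, ρ (z - w) * f z

private theorem P_conv56 (ρ f : ℂ → ℝ) :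
    P56 ρ f = convolution f (rf56 ρ) (ContinuousLinearMap.mul ℝ ℝ) volume := by
  ext w
  rw [convolution_def]
  refine integral_congr_ae (Filter.Eventually.of_forall fun z => ?_)
  change ρ (z - w) * f z = f z * ρ (-(w - z))
  rw [neg_sub, mul_comm]

private theorem P_smooth56 {r : ℝ} {ρ : ℂ → ℝ} (hρ : Bump r ρ) {f : ℂ → ℝ} (hf : Continuous f) :
    ContDiff ℝ ∞ (P56 ρ f) := by
  rw [P_conv56]
  exact (rfc56 hρ).contDiff_convolution_right _ hf.locallyIntegrable (rfs56 hρ)

private theorem P_int56 {r : ℝ} {ρ : ℂ → ℝ} (hρ : Bump r ρ) {f : ℂ → ℝ} (hf : Continuous f) (w : ℂ) :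
    Integrable (fun z => ρ (z - w) * f z) := by
  apply Continuous.integrable_of_hasCompactSupport
  · exact (hρ.smooth.continuous.comp (continuous_id.sub continuous_const)).mul hf
  · have h1 : HasCompactSupport (fun z => ρ (z - w)) := by
      have := (cs56 hρ).comp_homeomorph (Homeomorph.subRight w)
      exact this
    exact h1.mul_right

private theorem P_fderiv56 {r : ℝ} {ρ : ℂ → ℝ} (hρ : Bump r ρ) {f : ℂ → ℝ} (hf : ContDiff ℝ ∞ f)
    (hfc : HasCompactSupport f) (w e : ℂ) :
    fderiv ℝ (P56 ρ f) w e = P56 ρ (fun z => fderiv ℝ f z e) w := by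
  have h1 := hfc.hasFDerivAt_convolution_left (μ := (volume : Measure ℂ)) (ContinuousLinearMap.mul ℝ ℝ)
    (hf.of_le (by exact_mod_cast le_top)) (rfs56 hρ).continuous.locallyIntegrable w
  rw [← P_conv56] at h1
  rw [h1.fderiv, convolution_def, ContinuousLinearMap.integral_apply]
  · unfold P56
    refine integral_congr_ae (Filter.Eventually.of_forall fun z => ?_)
    change fderiv ℝ f z e * ρ (-(w - z)) = ρ (z - w) * fderiv ℝ f z e
    rw [neg_sub, mul_comm]
  · apply Continuous.integrable_of_hasCompactSupport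
    · have c1 : Continuous (fderiv ℝ f) := hf.continuous_fderiv (by simp)
      have c2 : Continuous (fun t => rf56 ρ (w - t)) :=
        (rfs56 hρ).continuous.comp (continuous_const.sub continuous_id)
      exact (((ContinuousLinearMap.precompL ℂ (ContinuousLinearMap.mul ℝ ℝ)).continuous.comp c1).clm_apply c2)
    · refine HasCompactSupport.of_support_subset_isCompact (hfc.fderiv ℝ).isCompact ?_
      intro z hz
      apply subset_tsupport
      intro h0
      apply hz
      change ContinuousLinearMap.precompL ℂ (ContinuousLinearMap.mul ℝ ℝ) (fderiv ℝ f z) (rf56 ρ (w - z)) = 0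
      rw [h0, map_zero]
      rfl

private theorem P_fubini56 {r : ℝ} {ρ : ℂ → ℝ} (hρ : Bump r ρ) {f : ℂ → ℝ} (hf : Continuous f)
    (hfc : HasCompactSupport f) {v : ℂ → ℝ} (hv : Measurable v) {B : ℝ} (hB : ∀ z, |v z| ≤ B) :
    ∫ w, v w * P56 ρ f w = ∫ z, mol ρ v z * f z := by
  have hi : Integrable (fun p : ℂ × ℂ => v p.1 * (ρ (p.2 - p.1) * f p.2)) (volume.prod volume) := by
    have h1 := (hf.integrable_of_hasCompactSupport (μ := (volume : Measure ℂ)) hfc).convolution_integrand
      (ContinuousLinearMap.mul ℝ ℝ)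
      ((rfs56 hρ).continuous.integrable_of_hasCompactSupport (μ := (volume : Measure ℂ)) (rfc56 hρ))
    have h2 : Integrable (fun p : ℂ × ℂ => ρ (p.2 - p.1) * f p.2) (volume.prod volume) := by
      refine h1.congr (Filter.Eventually.of_forall fun p => ?_)
      change f p.2 * ρ (-(p.1 - p.2)) = ρ (p.2 - p.1) * f p.2
      rw [neg_sub, mul_comm]
    refine h2.bdd_mul (c := B) (hv.comp measurable_fst).aestronglyMeasurable ?_
    exact Filter.Eventually.of_forall fun p => by rw [Real.norm_eq_abs]; exact hB p.1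
  have h3 := integral_integral_swap (f := fun w z => v w * (ρ (z - w) * f z)) hi
  have h4 : ∀ w, v w * P56 ρ f w = ∫ z, v w * (ρ (z - w) * f z) := by
    intro w
    rw [P56, integral_const_mul]
  have h5 : ∀ z, mol ρ v z * f z = ∫ w, v w * (ρ (z - w) * f z) := by
    intro z
    rw [mol, ← integral_mul_const]
    refine integral_congr_ae (Filter.Eventually.of_forall fun w => ?_)
    change ρ (z - w) * v w * f z = v w * (ρ (z - w) * f z)
    ring
  rw [integral_congr_ae (Filter.Eventually.of_forall h4), h3]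
  exact (integral_congr_ae (Filter.Eventually.of_forall h5)).symm

private theorem P_one56 {r : ℝ} {ρ : ℂ → ℝ} (hρ : Bump r ρ) (w : ℂ) :
    Integrable (fun z => ρ (z - w)) ∧ ∫ z, ρ (z - w) = 1 := by
  have hi : Integrable ρ := hρ.smooth.continuous.integrable_of_hasCompactSupport (cs56 hρ)
  exact ⟨hi.comp_sub_right w, by rw [integral_sub_right_eq_self ρ w, hρ.int_one]⟩

private theorem P_sq56 {r : ℝ} {ρ : ℂ → ℝ} (hρ : Bump r ρ) {f : ℂ → ℝ} (hf : Continuous f) (w : ℂ) :
    P56 ρ f w ^ 2 ≤ P56 ρ (fun z => f z ^ 2) w := by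
  obtain ⟨i0, h0⟩ := P_one56 hρ w
  have i1 := P_int56 hρ hf w
  have i2 : Integrable (fun z => ρ (z - w) * f z ^ 2) := P_int56 hρ (hf.pow 2) w
  obtain ⟨m, hm⟩ : ∃ m, m = P56 ρ f w := ⟨_, rfl⟩
  have h1 : 0 ≤ ∫ z, ρ (z - w) * (f z - m) ^ 2 :=
    integral_nonneg fun z => mul_nonneg (hρ.nonneg _) (sq_nonneg _)
  have h2 : ∫ z, ρ (z - w) * (f z - m) ^ 2 =
      ∫ z, ((ρ (z - w) * f z ^ 2 - 2 * m * (ρ (z - w) * f z)) + m ^ 2 * ρ (z - w)) := by
    refine integral_congr_ae (Filter.Eventually.of_forall fun z => ?_)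
    change ρ (z - w) * (f z - m) ^ 2 = (ρ (z - w) * f z ^ 2 - 2 * m * (ρ (z - w) * f z)) + m ^ 2 * ρ (z - w)
    ring
  have i3 : Integrable (fun z => ρ (z - w) * f z ^ 2 - 2 * m * (ρ (z - w) * f z)) := i2.sub (i1.const_mul _)
  rw [h2, integral_add i3 (i0.const_mul _), integral_sub i2 (i1.const_mul _),
    integral_const_mul, integral_const_mul, h0] at h1
  have h3 : ∫ z, ρ (z - w) * f z = m := hm.symm
  rw [h3] at h1
  rw [← hm]
  have h4 : P56 ρ (fun z => f z ^ 2) w = ∫ z, ρ (z - w) * f z ^ 2 := rfl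
  rw [h4]
  nlinarith [h1]

private theorem P_l256 {r : ℝ} {ρ : ℂ → ℝ} (hρ : Bump r ρ) {f : ℂ → ℝ} (hf : Continuous f)
    (hfc : HasCompactSupport f) :
    ∫ w, P56 ρ f w ^ 2 ≤ ∫ z, f z ^ 2 := by
  have hf2 : Continuous (fun z => f z ^ 2) := hf.pow 2
  have hf2c : HasCompactSupport (fun z => f z ^ 2) := by
    refine HasCompactSupport.of_support_subset_isCompact hfc.isCompact ?_
    intro z hz
    apply subset_tsupport
    intro h0
    apply hz
    change f z ^ 2 = 0
    rw [h0]
    ring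
  have h1 := P_fubini56 hρ hf2 hf2c (v := fun _ => (1 : ℝ)) measurable_const (B := 1) (fun _ => by simp)
  have h2 : ∀ z, mol ρ (fun _ => (1 : ℝ)) z = 1 := by
    intro z
    have h3 : ∫ w, ρ (z - w) = 1 := by rw [integral_sub_left_eq_self ρ volume z, hρ.int_one]
    rw [mol]
    simpa using h3
  simp only [h2, one_mul] at h1
  rw [← h1]
  have hPs := (P_smooth56 hρ hf).continuous
  refine integral_mono_of_nonneg (Filter.Eventually.of_forall fun w => sq_nonneg _) ?_
    (Filter.Eventually.of_forall fun w => P_sq56 hρ hf w)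
  have h5 := (hf2.integrable_of_hasCompactSupport (μ := (volume : Measure ℂ)) hf2c).integrable_convolution
    (ContinuousLinearMap.mul ℝ ℝ)
    ((rfs56 hρ).continuous.integrable_of_hasCompactSupport (μ := (volume : Measure ℂ)) (rfc56 hρ))
  rw [← P_conv56] at h5
  exact h5

theorem mol_smooth {r : ℝ} {ρ : ℂ → ℝ} (hρ : Bump r ρ) {v : ℂ → ℝ} (hv : Measurable v) {B : ℝ}
    (hB : ∀ z, |v z| ≤ B) : ContDiff ℝ ∞ (mol ρ v) := by
  have h1 : mol ρ v = convolution v ρ (ContinuousLinearMap.mul ℝ ℝ) volume := by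
    ext z
    rw [convolution_def, mol]
    refine integral_congr_ae (Filter.Eventually.of_forall fun w => ?_)
    change ρ (z - w) * v w = v w * ρ (z - w)
    rw [mul_comm]
  rw [h1]
  exact (cs56 hρ).contDiff_convolution_right _ (locint56 hv hB) hρ.smooth

theorem mol_energy {r : ℝ} {ρ : ℂ → ℝ} (hρ : Bump r ρ) {v : ℂ → ℝ} (hv : Measurable v) {B : ℝ}
    (hB : ∀ z, |v z| ≤ B) {χ : ℂ → ℝ} (hχ : ContDiff ℝ ∞ χ) (hc : HasCompactSupport χ)
    (h0 : ∀ z, 0 ≤ χ z) (h1 : ∀ z, χ z ≤ 1) {U : Set ℂ}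
    (hU : ∀ z ∈ tsupport χ, Metric.closedBall z r ⊆ U) {A : ℝ} (hA : DE v U A) :
    ∫ z, χ z * ‖fderiv ℝ (mol ρ v) z‖ ^ 2 ≤ A := by
  obtain ⟨g, hg⟩ : ∃ g, g = mol ρ v := ⟨_, rfl⟩
  rw [← hg]
  have gs : ContDiff ℝ ∞ g := by rw [hg]; exact mol_smooth hρ hv hB
  have gd : Differentiable ℝ g := gs.differentiable (by simp)
  have sd : ∀ e : ℂ, ContDiff ℝ ∞ (fun z => fderiv ℝ g z e) := fun e =>
    (gs.fderiv_right (m := ∞) (by simp)).clm_apply contDiff_const
  have sq : ∀ e : ℂ, ContDiff ℝ ∞ (fun z => χ z * fderiv ℝ g z e) := fun e => hχ.mul (sd e)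
  have cq : ∀ e : ℂ, HasCompactSupport (fun z => χ z * fderiv ℝ g z e) := fun e => hc.mul_right
  obtain ⟨q, hq⟩ : ∃ q : ℂ → ℂ → ℝ, q = fun e z => χ z * fderiv ℝ g z e := ⟨_, rfl⟩
  have sq' : ∀ e : ℂ, ContDiff ℝ ∞ (q e) := fun e => by rw [hq]; exact sq e
  have cq' : ∀ e : ℂ, HasCompactSupport (q e) := fun e => by rw [hq]; exact cq e
  have qv : ∀ e z, q e z = χ z * fderiv ℝ g z e := fun e z => by rw [hq]
  -- the test field
  obtain ⟨p, hp⟩ : ∃ p : ℂ → ℂ, p = fun w => (P56 ρ (q 1) w : ℂ) + (P56 ρ (q Complex.I) w : ℂ) * Complex.I :=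
    ⟨_, rfl⟩
  have sP : ∀ e : ℂ, ContDiff ℝ ∞ (P56 ρ (q e)) := fun e => P_smooth56 hρ (sq' e).continuous
  have ps : ContDiff ℝ ∞ p := by
    rw [hp]
    exact (Complex.ofRealCLM.contDiff.comp (sP 1)).add ((Complex.ofRealCLM.contDiff.comp (sP Complex.I)).mul
      contDiff_const)
  -- support
  obtain ⟨K, hK⟩ : ∃ K : Set ℂ, K = (fun x : ℂ × ℂ => x.1 + x.2) '' (tsupport χ ×ˢ Metric.closedBall (0 : ℂ) r) :=
    ⟨_, rfl⟩
  have Kc : IsCompact K := by
    rw [hK]
    exact (hc.isCompact.prod (isCompact_closedBall _ _)).image continuous_add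
  have KU : K ⊆ U := by
    rw [hK]
    rintro _ ⟨⟨z, w⟩, ⟨hz, hw⟩, rfl⟩
    apply hU z hz
    rw [Metric.mem_closedBall, dist_zero_right] at hw
    rw [Metric.mem_closedBall, dist_eq_norm]
    change ‖z + w - z‖ ≤ r
    rw [add_sub_cancel_left]
    exact hw
  have P0 : ∀ e w, w ∉ K → P56 ρ (q e) w = 0 := by
    intro e w hw
    rw [P56]
    have h2 : ∀ z, ρ (z - w) * q e z = 0 := by
      intro z
      by_cases hz : z ∈ tsupport χ
      · have h3 : r < ‖z - w‖ := by
          by_contra hcon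
          apply hw
          rw [hK]
          refine ⟨(z, w - z), ⟨hz, ?_⟩, by simp⟩
          rw [Metric.mem_closedBall, dist_zero_right, norm_sub_rev]
          exact not_lt.1 hcon
        rw [hρ.supp _ h3, zero_mul]
      · rw [qv, image_eq_zero_of_notMem_tsupport hz, zero_mul, mul_zero]
    simp only [h2, integral_zero]
  have psup : Function.support p ⊆ K := by
    intro w hw
    by_contra hcon
    apply hw
    rw [hp]
    simp only [P0 1 w hcon, P0 Complex.I w hcon]
    simp
  have pc : HasCompactSupport p := HasCompactSupport.of_support_subset_isCompact Kc psup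
  have pU : tsupport p ⊆ U := (closure_minimal psup Kc.isClosed).trans KU
  have Pc : ∀ e, HasCompactSupport (P56 ρ (q e)) := fun e =>
    HasCompactSupport.of_support_subset_isCompact Kc (fun w hw => by
      by_contra hcon
      exact hw (P0 e w hcon))
  have key := hA p ps pc pU
  -- divergence
  have hdv : ∀ w, dvg p w = P56 ρ (fun z => fderiv ℝ (q 1) z 1) w +
      P56 ρ (fun z => fderiv ℝ (q Complex.I) z Complex.I) w := by
    intro w
    have d1 : HasFDerivAt (P56 ρ (q 1)) (fderiv ℝ (P56 ρ (q 1)) w) w :=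
      ((sP 1).differentiable (by simp) w).hasFDerivAt
    have d2 : HasFDerivAt (P56 ρ (q Complex.I)) (fderiv ℝ (P56 ρ (q Complex.I)) w) w :=
      ((sP Complex.I).differentiable (by simp) w).hasFDerivAt
    have e1 := (Complex.ofRealCLM.hasFDerivAt.comp w d1).add
      ((Complex.ofRealCLM.hasFDerivAt.comp w d2).mul_const Complex.I)
    have e3 : HasFDerivAt p (Complex.ofRealCLM.comp (fderiv ℝ (P56 ρ (q 1)) w) +
        Complex.I • Complex.ofRealCLM.comp (fderiv ℝ (P56 ρ (q Complex.I)) w)) w := by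
      rw [hp]
      exact e1
    unfold dvg
    rw [e3.fderiv, ← P_fderiv56 hρ (sq' 1) (cq' 1), ← P_fderiv56 hρ (sq' Complex.I) (cq' Complex.I)]
    simp
  have c1 : ∀ e e' : ℂ, Continuous (fun z => fderiv ℝ (q e) z e') := fun e e' =>
    ((sq' e).continuous_fderiv (by simp)).clm_apply continuous_const
  have c2 : ∀ e e' : ℂ, HasCompactSupport (fun z => fderiv ℝ (q e) z e') := fun e e' =>
    (cq' e).fderiv_apply ℝ e'
  have gc := gs.continuous
  -- integration by parts
  have ibp : ∀ e : ℂ, ∫ z, g z * fderiv ℝ (q e) z e = - ∫ z, χ z * fderiv ℝ g z e ^ 2 := by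
    intro e
    have i1 : Integrable (fun z => (fderiv ℝ g z) e * q e z) (volume : Measure ℂ) :=
      ((sd e).continuous.mul (sq' e).continuous).integrable_of_hasCompactSupport (cq' e).mul_left
    have i2 : Integrable (fun z => g z * (fderiv ℝ (q e) z) e) (volume : Measure ℂ) :=
      (gc.mul (c1 e e)).integrable_of_hasCompactSupport (c2 e e).mul_left
    have i3 : Integrable (fun z => g z * q e z) (volume : Measure ℂ) :=
      (gc.mul (sq' e).continuous).integrable_of_hasCompactSupport (cq' e).mul_left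
    rw [integral_mul_fderiv_eq_neg_fderiv_mul_of_integrable i1 i2 i3 (fun x _ => gd x)
      (fun x _ => (sq' e).differentiable (by simp) x)]
    congr 1
    refine integral_congr_ae (Filter.Eventually.of_forall fun z => ?_)
    change fderiv ℝ g z e * q e z = χ z * fderiv ℝ g z e ^ 2
    rw [qv]
    ring
  -- the two integrals
  have hI1 : ∫ z, v z * dvg p z = -(∫ z, χ z * fderiv ℝ g z 1 ^ 2) - ∫ z, χ z * fderiv ℝ g z Complex.I ^ 2 := by
    have hPI : ∀ e : ℂ, Integrable (fun w => v w * P56 ρ (fun z => fderiv ℝ (q e) z e) w) := by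
      intro e
      have i1 : Integrable (P56 ρ (fun z => fderiv ℝ (q e) z e)) := by
        rw [P_conv56]
        exact ((c1 e e).integrable_of_hasCompactSupport (c2 e e)).integrable_convolution _
          ((rfs56 hρ).continuous.integrable_of_hasCompactSupport (rfc56 hρ))
      refine i1.bdd_mul (c := B) hv.aestronglyMeasurable ?_
      exact Filter.Eventually.of_forall fun p => by rw [Real.norm_eq_abs]; exact hB p
    have e1 : ∫ z, v z * dvg p z = ∫ z, (v z * P56 ρ (fun z => fderiv ℝ (q 1) z 1) z +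
        v z * P56 ρ (fun z => fderiv ℝ (q Complex.I) z Complex.I) z) := by
      refine integral_congr_ae (Filter.Eventually.of_forall fun z => ?_)
      change v z * dvg p z = _
      rw [hdv, mul_add]
    rw [e1, integral_add (hPI 1) (hPI Complex.I), P_fubini56 hρ (c1 1 1) (c2 1 1) hv hB,
      P_fubini56 hρ (c1 Complex.I Complex.I) (c2 Complex.I Complex.I) hv hB, ← hg, ibp 1, ibp Complex.I]
    ring
  have hI2 : ∫ z, ‖p z‖ ^ 2 ≤ (∫ z, χ z * fderiv ℝ g z 1 ^ 2) + ∫ z, χ z * fderiv ℝ g z Complex.I ^ 2 := by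
    have e1 : ∀ z, ‖p z‖ ^ 2 = P56 ρ (q 1) z ^ 2 + P56 ρ (q Complex.I) z ^ 2 := by
      intro z
      rw [Complex.sq_norm, Complex.normSq_apply, hp]
      simp
      ring
    have i1 : ∀ e, Integrable (fun z => P56 ρ (q e) z ^ 2) := by
      intro e
      apply Continuous.integrable_of_hasCompactSupport
      · exact (sP e).continuous.pow 2
      · refine HasCompactSupport.of_support_subset_isCompact (Pc e).isCompact ?_
        intro z hz
        apply subset_tsupport
        intro h0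
        apply hz
        change P56 ρ (q e) z ^ 2 = 0
        rw [h0]
        ring
    have e2 : ∀ e, ∫ z, q e z ^ 2 ≤ ∫ z, χ z * fderiv ℝ g z e ^ 2 := by
      intro e
      apply integral_mono
      · apply Continuous.integrable_of_hasCompactSupport
        · exact (sq' e).continuous.pow 2
        · refine HasCompactSupport.of_support_subset_isCompact (cq' e).isCompact ?_
          intro z hz
          apply subset_tsupport
          intro h0
          apply hz
          change q e z ^ 2 = 0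
          rw [h0]
          ring
      · exact (hχ.continuous.mul ((sd e).continuous.pow 2)).integrable_of_hasCompactSupport hc.mul_right
      · intro z
        change q e z ^ 2 ≤ χ z * fderiv ℝ g z e ^ 2
        rw [qv, mul_pow]
        apply mul_le_mul_of_nonneg_right _ (sq_nonneg _)
        nlinarith [h0 z, h1 z]
    have e3 : ∀ e, ∫ z, P56 ρ (q e) z ^ 2 ≤ ∫ z, χ z * fderiv ℝ g z e ^ 2 := fun e =>
      (P_l256 hρ (sq' e).continuous (cq' e)).trans (e2 e)
    rw [integral_congr_ae (Filter.Eventually.of_forall e1), integral_add (i1 1) (i1 Complex.I)]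
    exact add_le_add (e3 1) (e3 Complex.I)
  -- the norm of the derivative
  have hN : ∀ z, ‖fderiv ℝ g z‖ ^ 2 ≤ fderiv ℝ g z 1 ^ 2 + fderiv ℝ g z Complex.I ^ 2 := by
    intro z
    obtain ⟨L, hL⟩ : ∃ L, L = fderiv ℝ g z := ⟨_, rfl⟩
    rw [← hL]
    have h2 : ‖L‖ ≤ Real.sqrt (L 1 ^ 2 + L Complex.I ^ 2) := by
      apply L.opNorm_le_bound (Real.sqrt_nonneg _)
      intro w
      have h3 : L w = w.re * L 1 + w.im * L Complex.I := by
        have h4 : w = w.re • (1 : ℂ) + w.im • Complex.I := by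
          rw [Complex.real_smul, Complex.real_smul, mul_one, Complex.re_add_im]
        conv_lhs => rw [h4]
        rw [map_add, map_smul, map_smul, smul_eq_mul, smul_eq_mul]
      rw [Real.norm_eq_abs, h3]
      apply abs_le_of_sq_le_sq _ (by positivity)
      rw [mul_pow, Real.sq_sqrt (by positivity), Complex.sq_norm, Complex.normSq_apply]
      nlinarith [sq_nonneg (w.re * L Complex.I - w.im * L 1)]
    calc ‖L‖ ^ 2 ≤ Real.sqrt (L 1 ^ 2 + L Complex.I ^ 2) ^ 2 := by gcongr
      _ = _ := Real.sq_sqrt (by positivity)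
  have hfin : ∫ z, χ z * ‖fderiv ℝ g z‖ ^ 2 ≤
      (∫ z, χ z * fderiv ℝ g z 1 ^ 2) + ∫ z, χ z * fderiv ℝ g z Complex.I ^ 2 := by
    have i1 : ∀ e, Integrable (fun z => χ z * fderiv ℝ g z e ^ 2) := fun e =>
      (hχ.continuous.mul ((sd e).continuous.pow 2)).integrable_of_hasCompactSupport hc.mul_right
    rw [← integral_add (i1 1) (i1 Complex.I)]
    apply integral_mono
    · have c3 : Continuous (fun z => ‖fderiv ℝ g z‖ ^ 2) := (gs.continuous_fderiv (by simp)).norm.pow 2
      exact (hχ.continuous.mul c3).integrable_of_hasCompactSupport hc.mul_right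
    · exact (i1 1).add (i1 Complex.I)
    · intro z
      change χ z * ‖fderiv ℝ g z‖ ^ 2 ≤ χ z * fderiv ℝ g z 1 ^ 2 + χ z * fderiv ℝ g z Complex.I ^ 2
      rw [← mul_add]
      exact mul_le_mul_of_nonneg_left (hN z) (h0 z)
  rw [hI1] at key
  linarith

end Pool.Agent.Helper48.QH
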