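import Pool.Agent.Helper48.QH.Core
import Pool.Agent.Helper48.QH.CellArea
import Pool.Agent.Helper48.QH.Mollify
import Pool.Agent.Helper48.QH.MolBasic

/-!
# QH, block C4: energy of the mollified height over one period

`imF F w = im (F w)` on `Strip`, `0` outside: bounded by `π`, measurable (`F` is continuous on the open strip), periodic of period `a`.

PROOF. `DE (imF F) U A ↔ DE (fun w => (F w).im) U A` for `U ⊆ Strip` (the test field vanishes outside `U`, so `v z * dvg p z` is the same function).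
Let `g = mol ρ (imF F)`, periodic (`mol_periodic`), smooth. For `n ≥ 1` large (`r ≤ n`...; take `n` with margin) let `χ (s + i θ) = φ s ψ θ`, `φ` smooth with values in `[0, 1]`,
`φ = 1` on `[0, n a]`, support in `[-a/2, n a + a/2]`, `ψ` smooth with values in `[0, 1]`, `ψ = 1` on `[r', π - r']`, support in `[r'', π - r'']` with `r < r'' < r'`. Choose an integer
`m` with `r + a/2 ≤ m a`. The closed balls of radius `r` about the points of `tsupport χ` are contained in the part of `Strip` over `(-m a - a, (n + m + 1) a)`,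
whose image has area `≤ (n + 2 m + 3) π b` (translate `volume_cells`: apply `F (w + k a) = F w + k b`, or use `volume_cells` for a translated map
`w ↦ F (w - k a)`, or shift `φ` by `m a` from the start, which is simplest: let `φ = 1` on `[m a, (m + n) a]`). So by `mol_energy`
`∫ χ ‖∇g‖^2 ≤ K (n + c) π b`, `c` independent of `n`. By periodicity of `g` the left side is `≥ n ∫_0^a ∫_{r'}^{π - r'} ‖∇g‖^2`. Divide by `n`, let `n → ∞`.
-/

set_option autoImplicit false

open MeasureTheory UpperHalfPlane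
open scoped ContDiff MatrixGroups

noncomputable section

namespace Pool.Agent.Helper48.QH

open Classical in
/-- the height `im F`, extended by zero -/
def imF (F : ℂ → ℂ) (w : ℂ) : ℝ := if w ∈ Strip then (F w).im else 0

theorem per_isOpen_strip : IsOpen Strip :=
  (isOpen_lt continuous_const Complex.continuous_im).inter
    (isOpen_lt Complex.continuous_im continuous_const)

theorem imF_measurable {a b : ℝ} {F G : ℂ → ℂ} (h : StripMap a b F G) : Measurable (imF F) := by
  classical
  have h1 : imF F = Strip.piecewise (fun w => (F w).im) (fun _ => 0) := by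
    ext w
    by_cases hw : w ∈ Strip
    · rw [imF, if_pos hw, Set.piecewise_eq_of_mem _ _ _ hw]
    · rw [imF, if_neg hw, Set.piecewise_eq_of_notMem _ _ _ hw]
  rw [h1]
  exact ContinuousOn.measurable_piecewise (Complex.continuous_im.comp_continuousOn h.contF)
    continuousOn_const per_isOpen_strip.measurableSet

theorem imF_bound {a b : ℝ} {F G : ℂ → ℂ} (h : StripMap a b F G) (w : ℂ) : |imF F w| ≤ Real.pi := by
  by_cases hw : w ∈ Strip
  · rw [imF, if_pos hw]
    have h1 := h.mapsF w hw
    rw [abs_of_pos h1.1]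
    exact h1.2.le
  · rw [imF, if_neg hw, abs_zero]
    exact Real.pi_pos.le

theorem imF_periodic {a b : ℝ} {F G : ℂ → ℂ} (h : StripMap a b F G) (w : ℂ) :
    imF F (w + a) = imF F w := by
  have h1 : w + a ∈ Strip ↔ w ∈ Strip := by simp [Strip]
  by_cases hw : w ∈ Strip
  · rw [imF, imF, if_pos hw, if_pos (h1.mpr hw), h.per w hw]
    simp
  · rw [imF, imF, if_neg hw, if_neg fun h2 => hw (h1.mp h2)]

theorem imF_DE {F : ℂ → ℂ} {U : Set ℂ} (hU : U ⊆ Strip) {A : ℝ}
    (hA : DE (fun w => (F w).im) U A) : DE (imF F) U A := by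
  intro p hp hc hs
  have h1 : ∫ z, imF F z * dvg p z = ∫ z, (F z).im * dvg p z := by
    congr 1
    ext z
    by_cases hz : z ∈ Strip
    · rw [imF, if_pos hz]
    · have hz2 : z ∉ tsupport p := fun h => hz (hU (hs h))
      have h2 : fderiv ℝ p z = 0 :=
        image_eq_zero_of_notMem_tsupport fun h => hz2 (tsupport_fderiv_subset ℝ h)
      simp [dvg, h2]
  rw [h1]
  exact hA p hp hc hs

/-- the integral over a rectangle -/
theorem rect_integral {e : ℂ → ℝ} (he : Continuous e) {x0 x1 y0 y1 : ℝ} (hx : x0 ≤ x1)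
    (hy : y0 ≤ y1) :
    ∫ z in Set.Icc x0 x1 ×ℂ Set.Icc y0 y1, e z =
      ∫ s in x0..x1, ∫ θ in y0..y1, e (s + θ * Complex.I) := by
  have h1 := (Complex.volume_preserving_equiv_real_prod.symm).setIntegral_preimage_emb
    Complex.measurableEquivRealProd.symm.measurableEmbedding e
    (Set.Icc x0 x1 ×ℂ Set.Icc y0 y1)
  have h2 : Complex.measurableEquivRealProd.symm ⁻¹' (Set.Icc x0 x1 ×ℂ Set.Icc y0 y1) =
      Set.Icc x0 x1 ×ˢ Set.Icc y0 y1 := by
    ext p
    rw [Set.mem_preimage, Complex.mem_reProdIm, Set.mem_prod,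
      Complex.measurableEquivRealProd_symm_apply]
  rw [← h1, h2, Measure.volume_eq_prod, setIntegral_prod]
  · rw [intervalIntegral.integral_of_le hx, integral_Icc_eq_integral_Ioc]
    refine setIntegral_congr_fun measurableSet_Ioc fun s _ => ?_
    rw [intervalIntegral.integral_of_le hy, integral_Icc_eq_integral_Ioc]
    refine setIntegral_congr_fun measurableSet_Ioc fun θ _ => ?_
    simp only [Complex.measurableEquivRealProd_symm_apply]
    rw [Complex.mk_eq_add_mul_I]
  · refine ContinuousOn.integrableOn_compact (isCompact_Icc.prod isCompact_Icc) ?_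
    refine (he.comp ?_).continuousOn
    exact Complex.equivRealProdCLM.symm.continuous

/-- the cutoff -/
theorem exists_cut {x0 x1 x0' x1' y0 y1 y0' y1' : ℝ} (h1 : x0' < x0) (h2 : x0 < x1)
    (h3 : x1 < x1') (hx : x0 + x1 = x0' + x1') (h4 : y0' < y0) (h5 : y0 < y1) (h6 : y1 < y1')
    (hy : y0 + y1 = y0' + y1') :
    ∃ χ : ℂ → ℝ, ContDiff ℝ ∞ χ ∧ HasCompactSupport χ ∧ (∀ z, 0 ≤ χ z) ∧ (∀ z, χ z ≤ 1) ∧
      (∀ z ∈ tsupport χ, z ∈ Set.Icc x0' x1' ×ℂ Set.Icc y0' y1') ∧
      ∀ z ∈ Set.Icc x0 x1 ×ℂ Set.Icc y0 y1, χ z = 1 := by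
  let φ : ContDiffBump ((x0 + x1) / 2 : ℝ) := ⟨(x1 - x0) / 2, (x1' - x0') / 2, by linarith, by linarith⟩
  let ψ : ContDiffBump ((y0 + y1) / 2 : ℝ) := ⟨(y1 - y0) / 2, (y1' - y0') / 2, by linarith, by linarith⟩
  have hφ : φ.rIn = (x1 - x0) / 2 := rfl
  have hφ' : φ.rOut = (x1' - x0') / 2 := rfl
  have hψ : ψ.rIn = (y1 - y0) / 2 := rfl
  have hψ' : ψ.rOut = (y1' - y0') / 2 := rfl
  have hsub : tsupport (fun z : ℂ => φ z.re * ψ z.im) ⊆ Set.Icc x0' x1' ×ℂ Set.Icc y0' y1' := by
    refine closure_minimal ?_ (isCompact_Icc.reProdIm isCompact_Icc).isClosed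
    intro z hz
    rw [Function.mem_support] at hz
    have hz1 : z.re ∈ Function.support φ := left_ne_zero_of_mul hz
    have hz2 : z.im ∈ Function.support ψ := right_ne_zero_of_mul hz
    rw [φ.support_eq, Real.ball_eq_Ioo, hφ'] at hz1
    rw [ψ.support_eq, Real.ball_eq_Ioo, hψ'] at hz2
    rw [Complex.mem_reProdIm]
    refine ⟨⟨?_, ?_⟩, ⟨?_, ?_⟩⟩
    · linarith [hz1.1]
    · linarith [hz1.2]
    · linarith [hz2.1]
    · linarith [hz2.2]
  refine ⟨fun z => φ z.re * ψ z.im, ?_, ?_, ?_, ?_, fun z hz => hsub hz, ?_⟩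
  · exact (φ.contDiff.comp Complex.reCLM.contDiff).mul (ψ.contDiff.comp Complex.imCLM.contDiff)
  · exact (isCompact_Icc.reProdIm isCompact_Icc).of_isClosed_subset (isClosed_tsupport _) hsub
  · exact fun z => mul_nonneg φ.nonneg ψ.nonneg
  · exact fun z => mul_le_one₀ φ.le_one ψ.nonneg ψ.le_one
  · intro z hz
    rw [Complex.mem_reProdIm] at hz
    have e1 : φ z.re = 1 := by
      refine φ.one_of_mem_closedBall ?_
      rw [Real.closedBall_eq_Icc, hφ]
      constructor
      · linarith [hz.1.1]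
      · linarith [hz.1.2]
    have e2 : ψ z.im = 1 := by
      refine ψ.one_of_mem_closedBall ?_
      rw [Real.closedBall_eq_Icc, hψ]
      constructor
      · linarith [hz.2.1]
      · linarith [hz.2.2]
    simp only [e1, e2, mul_one]

theorem per_finish {I C c : ℝ} (hC : 0 ≤ C) (hc : 0 ≤ c)
    (h : ∀ N : ℕ, 1 ≤ N → N * I ≤ C * (N + c)) : I ≤ C := by
  by_contra hlt
  push Not at hlt
  obtain ⟨N, hN⟩ := exists_nat_gt (C * c / (I - C))
  have hpos : 0 < I - C := by linarith
  have h0 : 0 ≤ C * c / (I - C) := by positivity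
  have hN1 : 1 ≤ N := by
    rcases Nat.eq_zero_or_pos N with h1 | h1
    · rw [h1] at hN
      simp at hN
      linarith
    · exact h1
  have h2 := h N hN1
  rw [div_lt_iff₀ hpos] at hN
  nlinarith

theorem periodic_energy {a b K : ℝ} {F G : ℂ → ℂ} (h : StripMap a b F G) (hK : 0 ≤ K)
    (hE : StripEn K F (fun w => (F w).im)) {r : ℝ} {ρ : ℂ → ℝ} (hρ : Bump r ρ) {r' : ℝ}
    (hr : r < r') (hr' : r' < Real.pi / 2) :
    ∫ s in (0 : ℝ)..a, ∫ θ in r'..(Real.pi - r'),
      ‖fderiv ℝ (mol ρ (imF F)) (s + θ * Complex.I)‖ ^ 2 ≤ K * (Real.pi * b) := by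
  have ha := h.apos
  have hb := h.bpos
  have hr0 := hρ.rpos
  have hpi := Real.pi_pos
  obtain ⟨m, hm⟩ := exists_nat_gt (r / a)
  rw [div_lt_iff₀ ha] at hm
  set g := mol ρ (imF F) with hg
  have hgs : ContDiff ℝ ∞ g := mol_smooth hρ (imF_measurable h) (imF_bound h)
  set e : ℂ → ℝ := fun z => ‖fderiv ℝ g z‖ ^ 2 with he
  have hec : Continuous e := (hgs.continuous_fderiv (by simp)).norm.pow 2
  have hgp : ∀ z : ℂ, g (z + a) = g z := mol_periodic (imF_periodic h)
  have hep : ∀ z : ℂ, e (z + a) = e z := by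
    intro z
    have h1 : (fun z => g (z + a)) = g := funext hgp
    have h2 : fderiv ℝ g (z + a) = fderiv ℝ g z := by
      rw [← fderiv_comp_add_right, h1]
    simp only [he, h2]
  set J : ℝ → ℝ := fun s => ∫ θ in r'..(Real.pi - r'), e (s + θ * Complex.I) with hJ
  have hJc : Continuous J := by
    refine intervalIntegral.continuous_parametric_intervalIntegral_of_continuous' ?_ _ _
    refine hec.comp ?_
    fun_prop
  have hJp : Function.Periodic J a := by
    intro s
    simp only [hJ]
    refine intervalIntegral.integral_congr fun θ _ => ?_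
    rw [← hep ((s : ℂ) + θ * Complex.I)]
    congr 1
    push_cast
    ring
  change ∫ s in (0 : ℝ)..a, J s ≤ K * (Real.pi * b)
  refine per_finish (c := 2 * m + 2) (by positivity) (by positivity) fun N hN => ?_
  have hN' : (1 : ℝ) ≤ N := by exact_mod_cast hN
  have hm0 : (0 : ℝ) ≤ m := Nat.cast_nonneg m
  obtain ⟨χ, c1, c2, c3, c4, c5, c6⟩ := exists_cut (x0 := m * a) (x1 := m * a + N * a)
    (x0' := m * a - a / 2) (x1' := m * a + N * a + a / 2) (y0 := r') (y1 := Real.pi - r')
    (y0' := (r + r') / 2) (y1' := Real.pi - (r + r') / 2) (by linarith) (by nlinarith)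
    (by linarith) (by ring) (by linarith) (by linarith) (by linarith) (by ring)
  set M : ℕ := N + 2 * m with hM
  have hMc : (M : ℝ) = N + 2 * m := by rw [hM]; push_cast; ring
  set U : Set ℂ := {w | w ∈ Strip ∧ -a < w.re ∧ w.re < (M + 1) * a} with hU
  have hUo : IsOpen U := per_isOpen_strip.inter
    ((isOpen_lt continuous_const Complex.continuous_re).inter
      (isOpen_lt Complex.continuous_re continuous_const))
  have hUs : U ⊆ Strip := fun w hw => hw.1
  have hvol : volume (F '' U) ≤ ENNReal.ofReal ((M + 2) * (Real.pi * b)) := by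
    refine le_trans (measure_mono ?_) (volume_cells h M)
    exact Set.image_mono fun w hw => ⟨hw.1, hw.2.1.le, hw.2.2⟩
  have hDE : DE (imF F) U (K * ((M + 2) * (Real.pi * b))) :=
    imF_DE hUs (hE U hUo hUs _ (by positivity) hvol)
  have hball : ∀ z ∈ tsupport χ, Metric.closedBall z r ⊆ U := by
    intro z hz w hw
    have h1 := c5 z hz
    rw [Complex.mem_reProdIm] at h1
    rw [mem_closedBall_iff_norm] at hw
    have h2 := (Complex.abs_re_le_norm (w - z)).trans hw
    have h3 := (Complex.abs_im_le_norm (w - z)).trans hw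
    rw [Complex.sub_re, abs_le] at h2
    rw [Complex.sub_im, abs_le] at h3
    obtain ⟨⟨g1, g2⟩, g3, g4⟩ := h1
    refine ⟨⟨?_, ?_⟩, ?_, ?_⟩
    · linarith [h3.1]
    · linarith [h3.2]
    · linarith [h2.1]
    · rw [hMc]
      nlinarith [h2.2]
  have hme := mol_energy hρ (imF_measurable h) (imF_bound h) c1 c2 c3 c4 hball hDE
  have hint : Integrable (fun z => χ z * e z) :=
    (c1.continuous.mul hec).integrable_of_hasCompactSupport c2.mul_right
  have hS : ∫ z in Set.Icc (m * a) (m * a + N * a) ×ℂ Set.Icc r' (Real.pi - r'), e z ≤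
      ∫ z, χ z * e z := by
    have h1 : ∫ z in Set.Icc (m * a) (m * a + N * a) ×ℂ Set.Icc r' (Real.pi - r'), e z =
        ∫ z in Set.Icc (m * a) (m * a + N * a) ×ℂ Set.Icc r' (Real.pi - r'), χ z * e z := by
      refine setIntegral_congr_fun ?_ fun z hz => ?_
      · exact (isCompact_Icc.reProdIm isCompact_Icc).isClosed.measurableSet
      · rw [c6 z hz, one_mul]
    rw [h1]
    refine setIntegral_le_integral hint (Filter.Eventually.of_forall fun z => ?_)
    exact mul_nonneg (c3 z) (by positivity)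
  rw [rect_integral hec (by nlinarith) (by linarith)] at hS
  have hJN : ∫ s in (m * a)..(m * a + N * a), J s = N * ∫ s in (0 : ℝ)..a, J s := by
    have h1 := hJp.intervalIntegral_add_zsmul_eq N (m * a)
      (fun t1 t2 => hJc.intervalIntegrable t1 t2)
    have h2 := hJp.intervalIntegral_add_eq (m * a) 0
    rw [zero_add] at h2
    rw [h2] at h1
    simpa using h1
  have hfin : (N : ℝ) * ∫ s in (0 : ℝ)..a, J s ≤ K * ((M + 2) * (Real.pi * b)) := by
    rw [← hJN]
    exact hS.trans hme
  refine hfin.trans (le_of_eq ?_)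
  rw [hMc]
  ring

end Pool.Agent.Helper48.QH
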