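import Pool.Agent.Helper48.QH.Core
import Pool.Agent.Helper48.QH.CellArea

/-!
# QH, block C3: `b ≤ K a`

PROOF. Let `v = re F`, `v (w + a) = v w + b` on `Strip`. Let `Φ (s) = Real.smoothTransition (s / a)`: smooth, `0` for `s ≤ 0`, `1` for `s ≥ a`, values in `[0, 1]`. For
`n ≥ 1` let `φ s = Φ s - Φ (s - n a)`: support in `[0, (n + 1) a]`, values in `[0, 1]`. Let `ψ` be smooth with support in `(0, π)`, values in `[0, 1]` and
`∫ ψ ≥ π - κ`. For `μ ≥ 0` take the test field `p (s + i θ) = μ φ s ψ θ` (real), supported in `U = {w ∈ Strip | -a < re w < (n + 2) a}`, with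
`volume (F '' U) ≤ (n + 3) π b` (`volume_cells` with `n + 1`). `dvg p = μ φ' s ψ θ`, and
`- ∫ v φ' ds = ∫ (v (s + n a) - v s) Φ' s ds = n b` for each `θ` (substitute `s → s + n a` in the second part; `∫ Φ' = 1`, support of `Φ'` in `[0, a]`). So
`-2 ∫ v dvg p = 2 μ n b ∫ ψ ≥ 2 μ n b (π - κ)` and `∫ ‖p‖^2 ≤ μ^2 (n + 1) a π`. Hence `2 μ n b (π - κ) - μ^2 (n + 1) a π ≤ K (n + 3) π b` for all `κ > 0`, so for `κ = 0`;
divide by `n π` and let `n → ∞`: `2 μ b - μ^2 a ≤ K b`; with `μ = b / a`: `b^2 / a ≤ K b`.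
-/

set_option autoImplicit false

open MeasureTheory UpperHalfPlane
open scoped ContDiff MatrixGroups

noncomputable section

namespace Pool.Agent.Helper48.QH

theorem re_int_prod (f g : ℝ → ℝ) :
    ∫ z : ℂ, f z.re * g z.im = (∫ s, f s) * ∫ t, g t := by
  rw [← integral_prod_mul f g]
  exact Complex.volume_preserving_equiv_real_prod.integral_comp'
    (fun y : ℝ × ℝ => f y.1 * g y.2)

/-- the smooth ramp from `0` at `0` to `1` at `a` -/
def ramp (a s : ℝ) : ℝ := Real.smoothTransition (s / a)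

theorem ramp_contDiff (a : ℝ) : ContDiff ℝ ∞ (ramp a) :=
  Real.smoothTransition.contDiff.comp (contDiff_id.div_const a)

theorem ramp_of_nonpos {a s : ℝ} (ha : 0 < a) (hs : s ≤ 0) : ramp a s = 0 :=
  Real.smoothTransition.zero_of_nonpos (div_nonpos_of_nonpos_of_nonneg hs ha.le)

theorem ramp_of_ge {a s : ℝ} (ha : 0 < a) (hs : a ≤ s) : ramp a s = 1 :=
  Real.smoothTransition.one_of_one_le ((one_le_div ha).2 hs)

theorem ramp_nonneg (a s : ℝ) : 0 ≤ ramp a s := Real.smoothTransition.nonneg _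

theorem ramp_le_one (a s : ℝ) : ramp a s ≤ 1 := Real.smoothTransition.le_one _

theorem deriv_ramp_zero {a s : ℝ} (ha : 0 < a) (hs : s ∉ Set.Icc 0 a) : deriv (ramp a) s = 0 := by
  rcases lt_or_ge s 0 with h0 | h0
  · have : ramp a =ᶠ[nhds s] fun _ => (0 : ℝ) := by
      filter_upwards [Iio_mem_nhds h0] with t ht
      exact ramp_of_nonpos ha ht.le
    rw [this.deriv_eq, deriv_const]
  · have h1 : a < s := by
      by_contra hc
      exact hs ⟨h0, not_lt.1 hc⟩
    have : ramp a =ᶠ[nhds s] fun _ => (1 : ℝ) := by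
      filter_upwards [Ioi_mem_nhds h1] with t ht
      exact ramp_of_ge ha ht.le
    rw [this.deriv_eq, deriv_const]

theorem continuous_deriv_ramp (a : ℝ) : Continuous (deriv (ramp a)) :=
  (ramp_contDiff a).continuous_deriv (by simp)

theorem hasCompactSupport_deriv_ramp {a : ℝ} (ha : 0 < a) :
    HasCompactSupport (deriv (ramp a)) :=
  HasCompactSupport.of_support_subset_isCompact (K := Set.Icc 0 a) isCompact_Icc (by
    intro s hs
    by_contra hc
    exact hs (deriv_ramp_zero ha hc))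

theorem hasDerivAt_ramp (a s : ℝ) : HasDerivAt (ramp a) (deriv (ramp a) s) s :=
  ((ramp_contDiff a).differentiable (by simp) s).hasDerivAt

theorem integral_deriv_ramp {a : ℝ} (ha : 0 < a) : ∫ s, deriv (ramp a) s = 1 := by
  have h1 : Filter.Tendsto (ramp a) Filter.atBot (nhds 0) := by
    apply tendsto_const_nhds.congr'
    filter_upwards [Filter.eventually_le_atBot 0] with s hs
    exact (ramp_of_nonpos ha hs).symm
  have h2 : Filter.Tendsto (ramp a) Filter.atTop (nhds 1) := by
    apply tendsto_const_nhds.congr'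
    filter_upwards [Filter.eventually_ge_atTop a] with s hs
    exact (ramp_of_ge ha hs).symm
  have h3 := integral_of_hasDerivAt_of_tendsto (hasDerivAt_ramp a)
    ((continuous_deriv_ramp a).integrable_of_hasCompactSupport (hasCompactSupport_deriv_ramp ha))
    h1 h2
  rw [h3, sub_zero]

theorem int_sq_le {f : ℝ → ℝ} {c d : ℝ} (hcd : c ≤ d) (h0 : ∀ x, 0 ≤ f x) (h1 : ∀ x, f x ≤ 1)
    (hs : ∀ x, x ∉ Set.Icc c d → f x = 0) : ∫ x, f x ^ 2 ≤ d - c := by
  have h2 : ∫ x, f x ^ 2 ≤ ∫ x, (Set.Icc c d).indicator (fun _ => (1 : ℝ)) x := by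
    apply integral_mono_of_nonneg
    · exact Filter.Eventually.of_forall fun x => sq_nonneg _
    · rw [integrable_indicator_iff measurableSet_Icc]
      exact integrableOn_const (by simp)
    · refine Filter.Eventually.of_forall fun x => ?_
      show f x ^ 2 ≤ (Set.Icc c d).indicator (fun _ => (1 : ℝ)) x
      by_cases hx : x ∈ Set.Icc c d
      · rw [Set.indicator_of_mem hx]
        exact pow_le_one₀ (h0 x) (h1 x)
      · rw [Set.indicator_of_notMem hx, hs x hx]
        norm_num
  refine h2.trans (le_of_eq ?_)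
  rw [integral_indicator measurableSet_Icc]
  simp [hcd]

theorem per_nat {a b : ℝ} {F G : ℂ → ℂ} (h : StripMap a b F G) (n : ℕ) {w : ℂ} (hw : w ∈ Strip) :
    w + ((n * a : ℝ) : ℂ) ∈ Strip ∧ F (w + ((n * a : ℝ) : ℂ)) = F w + ((n * b : ℝ) : ℂ) := by
  have hm : ∀ x : ℝ, w + (x : ℂ) ∈ Strip := by
    intro x
    refine ⟨?_, ?_⟩ <;> simp [hw.1, hw.2]
  refine ⟨hm _, ?_⟩
  induction n with
  | zero => simp
  | succ n ih =>
    have h1 : w + (((n + 1 : ℕ) * a : ℝ) : ℂ) = (w + ((n * a : ℝ) : ℂ)) + (a : ℂ) := by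
      push_cast
      ring
    rw [h1, h.per _ (hm _), ih]
    push_cast
    ring

/-- the inequality for one `n` and one cut-off function `ψ` -/
theorem b_le_aux {a b K : ℝ} {F G : ℂ → ℂ} (h : StripMap a b F G) (hK : 0 ≤ K)
    (hE : StripEn K F (fun w => (F w).re)) (n : ℕ) (hn : 1 ≤ n) {κ : ℝ} (hκ : 0 < κ)
    (hκ1 : κ < Real.pi / 4) {μ : ℝ} (hμ : 0 ≤ μ) :
    2 * μ * (n * b) * (Real.pi - 4 * κ) - μ ^ 2 * ((n + 1) * a * Real.pi) ≤
      K * ((n + 3) * (Real.pi * b)) := by
  have ha := h.apos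
  have hb := h.bpos
  have hpi := Real.pi_pos
  have hn1 : (1 : ℝ) ≤ n := by exact_mod_cast hn
  have hna : a ≤ n * a := by nlinarith
  -- the cut-off in the imaginary direction
  let ψ : ContDiffBump (Real.pi / 2 : ℝ) :=
    ⟨Real.pi / 2 - 2 * κ, Real.pi / 2 - κ, by linarith, by linarith⟩
  have hψc : ContDiff ℝ ∞ (fun t => ψ t) := ψ.contDiff
  have hψs : ∀ t, t ∉ Set.Icc κ (Real.pi - κ) → ψ t = 0 := by
    intro t ht
    apply ψ.zero_of_le_dist
    show Real.pi / 2 - κ ≤ dist t (Real.pi / 2)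
    rw [Real.dist_eq]
    by_contra hc
    rw [not_le, abs_lt] at hc
    exact ht ⟨by linarith [hc.1], by linarith [hc.2]⟩
  have hψI : Real.pi - 4 * κ ≤ ∫ t, ψ t := by
    have h1 := ψ.measure_closedBall_le_integral (volume : Measure ℝ)
    refine le_trans (le_of_eq ?_) h1
    rw [measureReal_def, Real.volume_closedBall, ENNReal.toReal_ofReal]
    · show Real.pi - 4 * κ = 2 * (Real.pi / 2 - 2 * κ)
      ring
    · show 0 ≤ 2 * (Real.pi / 2 - 2 * κ)
      linarith
  -- the cut-off in the real direction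
  let φ : ℝ → ℝ := fun s => ramp a s - ramp a (s - n * a)
  have hφc : ContDiff ℝ ∞ φ :=
    (ramp_contDiff a).sub ((ramp_contDiff a).comp (contDiff_id.sub contDiff_const))
  have hφs : ∀ s, s ∉ Set.Icc 0 ((n + 1) * a) → φ s = 0 := by
    intro s hs
    show ramp a s - ramp a (s - n * a) = 0
    rcases lt_or_ge s 0 with h0 | h0
    · rw [ramp_of_nonpos ha h0.le, ramp_of_nonpos ha (by linarith), sub_zero]
    · have h1 : (n + 1) * a < s := by
        by_contra hc
        exact hs ⟨h0, not_lt.1 hc⟩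
      rw [ramp_of_ge ha (by linarith), ramp_of_ge ha (by linarith), sub_self]
  have hφ01 : ∀ s, 0 ≤ φ s ∧ φ s ≤ 1 := by
    intro s
    show 0 ≤ ramp a s - ramp a (s - n * a) ∧ ramp a s - ramp a (s - n * a) ≤ 1
    rcases le_total s (n * a) with h0 | h0
    · rw [ramp_of_nonpos ha (by linarith : s - n * a ≤ 0), sub_zero]
      exact ⟨ramp_nonneg _ _, ramp_le_one _ _⟩
    · rw [ramp_of_ge ha (by linarith : a ≤ s)]
      have h1 := ramp_nonneg a (s - n * a)
      have h2 := ramp_le_one a (s - n * a)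
      exact ⟨by linarith, by linarith⟩
  let g : ℂ → ℝ := fun z => μ * φ z.re * ψ z.im
  let p : ℂ → ℂ := fun z => ((g z : ℝ) : ℂ)
  have hgc : ContDiff ℝ ∞ g :=
    (contDiff_const.mul (hφc.comp Complex.reCLM.contDiff)).mul (hψc.comp Complex.imCLM.contDiff)
  have hpc : ContDiff ℝ ∞ p := Complex.ofRealCLM.contDiff.comp hgc
  let B : Set ℂ := (Set.Icc 0 ((n + 1) * a)) ×ℂ (Set.Icc κ (Real.pi - κ))
  have hBc : IsCompact B := IsCompact.reProdIm isCompact_Icc isCompact_Icc
  have hBz : ∀ z, z ∉ B → g z = 0 := by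
    intro z hz
    show μ * φ z.re * ψ z.im = 0
    by_cases h1 : z.re ∈ Set.Icc 0 ((n + 1) * a)
    · have h2 : z.im ∉ Set.Icc κ (Real.pi - κ) := fun h2 => hz (Complex.mem_reProdIm.2 ⟨h1, h2⟩)
      rw [hψs _ h2, mul_zero]
    · rw [hφs _ h1, mul_zero, zero_mul]
  have hpB : Function.support p ⊆ B := by
    intro z hz
    by_contra hc
    exact hz (by show ((g z : ℝ) : ℂ) = 0; rw [hBz z hc]; simp)
  have hpcs : HasCompactSupport p := HasCompactSupport.of_support_subset_isCompact hBc hpB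
  have htB : tsupport p ⊆ B := closure_minimal hpB hBc.isClosed
  let U : Set ℂ := {w | w ∈ Strip ∧ -a < w.re ∧ w.re < (n + 2) * a}
  have hUo : IsOpen U := by
    have h1 : IsOpen {w : ℂ | 0 < w.im} := isOpen_lt continuous_const Complex.continuous_im
    have h2 : IsOpen {w : ℂ | w.im < Real.pi} := isOpen_lt Complex.continuous_im continuous_const
    have h3 : IsOpen {w : ℂ | -a < w.re} := isOpen_lt continuous_const Complex.continuous_re
    have h4 : IsOpen {w : ℂ | w.re < (n + 2) * a} :=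
      isOpen_lt Complex.continuous_re continuous_const
    exact (h1.inter h2).inter (h3.inter h4)
  have hBS : B ⊆ Strip := by
    intro z hz
    have h2 := (Complex.mem_reProdIm.1 hz).2
    exact ⟨by linarith [h2.1], by linarith [h2.2]⟩
  have hBU : B ⊆ U := by
    intro z hz
    have h1 := (Complex.mem_reProdIm.1 hz).1
    exact ⟨hBS hz, by linarith [h1.1], by nlinarith [h1.2]⟩
  have hvol : volume (F '' U) ≤ ENNReal.ofReal ((n + 3) * (Real.pi * b)) := by
    refine (measure_mono (Set.image_mono ?_)).trans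
      ((volume_cells h (n + 1)).trans (le_of_eq ?_))
    · rintro w ⟨hw1, hw2, hw3⟩
      refine ⟨hw1, hw2.le, ?_⟩
      push_cast
      linarith
    · congr 1
      push_cast
      ring
  have hmain := hE U hUo (fun w hw => hw.1) ((n + 3) * (Real.pi * b)) (by positivity) hvol
    p hpc hpcs (htB.trans hBU)
  -- the divergence
  let w : ℂ → ℝ := fun z => deriv (ramp a) z.re * ψ z.im
  have hwc : Continuous w :=
    ((continuous_deriv_ramp a).comp Complex.continuous_re).mul
      (hψc.continuous.comp Complex.continuous_im)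
  let t : ℂ := ((n * a : ℝ) : ℂ)
  have hdv : ∀ z, dvg p z = μ * (w z - w (z - t)) := by
    intro z
    have hr : HasFDerivAt (fun z : ℂ => z.re) Complex.reCLM z := Complex.reCLM.hasFDerivAt
    have hi : HasFDerivAt (fun z : ℂ => z.im) Complex.imCLM z := Complex.imCLM.hasFDerivAt
    have hφd : HasDerivAt φ (deriv (ramp a) z.re - deriv (ramp a) (z.re - n * a)) z.re := by
      have h1 := hasDerivAt_ramp a z.re
      have h2 : HasDerivAt (fun s => ramp a (s - n * a)) (deriv (ramp a) (z.re - n * a)) z.re :=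
        (hasDerivAt_ramp a (z.re - n * a)).comp_sub_const z.re (n * a)
      exact h1.sub h2
    have hψd : HasDerivAt (fun t => ψ t) (deriv (fun t => ψ t) z.im) z.im :=
      (hψc.differentiable (by simp) _).hasDerivAt
    have h1 := hφd.comp_hasFDerivAt z hr
    have h2 := hψd.comp_hasFDerivAt z hi
    have h3 : HasFDerivAt p _ z := Complex.ofRealCLM.hasFDerivAt.comp z ((h1.const_mul μ).mul h2)
    unfold dvg
    rw [h3.fderiv]
    have ht1 : (z - t).re = z.re - n * a := by simp [t]
    have ht2 : (z - t).im = z.im := by simp [t]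
    show _ = μ * (deriv (ramp a) z.re * ψ z.im - deriv (ramp a) (z - t).re * ψ (z - t).im)
    rw [ht1, ht2]
    simp
    ring
  -- integrals
  let v : ℂ → ℝ := fun z => (F z).re
  let K1 : Set ℂ := (Set.Icc 0 a) ×ℂ (Set.Icc κ (Real.pi - κ))
  have hK1c : IsCompact K1 := IsCompact.reProdIm isCompact_Icc isCompact_Icc
  have hK1S : K1 ⊆ Strip := by
    intro z hz
    have h2 := (Complex.mem_reProdIm.1 hz).2
    exact ⟨by linarith [h2.1], by linarith [h2.2]⟩
  have hw0 : ∀ z, z ∉ K1 → w z = 0 := by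
    intro z hz
    show deriv (ramp a) z.re * ψ z.im = 0
    by_cases h1 : z.re ∈ Set.Icc 0 a
    · have h2 : z.im ∉ Set.Icc κ (Real.pi - κ) := fun h2 => hz (Complex.mem_reProdIm.2 ⟨h1, h2⟩)
      rw [hψs _ h2, mul_zero]
    · rw [deriv_ramp_zero ha h1, zero_mul]
  have hwI : Integrable w := hwc.integrable_of_hasCompactSupport
    (HasCompactSupport.of_support_subset_isCompact hK1c (by
      intro z hz
      by_contra hc
      exact hz (hw0 z hc)))
  have hvwI : Integrable (fun z => v z * w z) := by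
    have h1 : ContinuousOn (fun z => v z * w z) K1 :=
      (Complex.continuous_re.comp_continuousOn (h.contF.mono hK1S)).mul hwc.continuousOn
    have h2 := h1.integrableOn_compact hK1c (μ := volume)
    refine (integrableOn_iff_integrable_of_support_subset ?_).1 h2
    intro z hz
    by_contra hc
    exact hz (by show v z * w z = 0; rw [hw0 z hc, mul_zero])
  have hshift : ∀ z, v (z + t) * w z = v z * w z + n * b * w z := by
    intro z
    by_cases hz : z ∈ K1
    · have h1 : v (z + t) = v z + n * b := by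
        show (F (z + t)).re = (F z).re + n * b
        rw [(per_nat h n (hK1S hz)).2]
        simp
      rw [h1]
      ring
    · rw [hw0 z hz]
      ring
  have hfun : (fun z => v (z + t) * w z) = fun z => v z * w z + n * b * w z := funext hshift
  have hvtI : Integrable (fun z => v (z + t) * w z) := by
    rw [hfun]
    exact hvwI.add (hwI.const_mul _)
  have hvsI : Integrable (fun z => v z * w (z - t)) := by
    have h1 := hvtI.comp_sub_right t
    simpa using h1
  have hi1 : ∫ z, v z * w (z - t) = (∫ z, v z * w z) + n * b * ∫ z, w z := by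
    have h1 := integral_sub_right_eq_self (μ := (volume : Measure ℂ))
      (fun z => v (z + t) * w z) t
    simp only [sub_add_cancel] at h1
    rw [h1, hfun, integral_add hvwI (hwI.const_mul _), integral_const_mul]
  have hi2 : ∫ z, w z = ∫ t, ψ t := by
    have h1 := re_int_prod (deriv (ramp a)) (fun t => ψ t)
    rw [integral_deriv_ramp ha, one_mul] at h1
    exact h1
  have hi3 : ∫ z, (F z).re * dvg p z = -(μ * (n * b * ∫ t, ψ t)) := by
    have h1 : (fun z => (F z).re * dvg p z) =
        fun z => μ * (v z * w z - v z * w (z - t)) := by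
      funext z
      rw [hdv z]
      show (F z).re * _ = μ * ((F z).re * w z - (F z).re * w (z - t))
      ring
    rw [h1, integral_const_mul, integral_sub hvwI hvsI, hi1, hi2]
    ring
  have hi4 : ∫ z, ‖p z‖ ^ 2 ≤ μ ^ 2 * ((n + 1) * a * Real.pi) := by
    have h1 : (fun z => ‖p z‖ ^ 2) = fun z : ℂ => μ ^ 2 * (φ z.re ^ 2 * ψ z.im ^ 2) := by
      funext z
      show ‖((μ * φ z.re * ψ z.im : ℝ) : ℂ)‖ ^ 2 = _
      rw [Complex.norm_real, Real.norm_eq_abs, sq_abs]
      ring
    rw [h1, integral_const_mul, re_int_prod (fun s => φ s ^ 2) (fun t => ψ t ^ 2)]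
    have h2 : ∫ s, φ s ^ 2 ≤ (n + 1) * a - 0 :=
      int_sq_le (by positivity) (fun s => (hφ01 s).1) (fun s => (hφ01 s).2) hφs
    have h3 : ∫ t, ψ t ^ 2 ≤ (Real.pi - κ) - κ :=
      int_sq_le (by linarith) (fun s => ψ.nonneg) (fun s => ψ.le_one) hψs
    have h4 : 0 ≤ ∫ t, ψ t ^ 2 := integral_nonneg fun t => sq_nonneg _
    apply mul_le_mul_of_nonneg_left _ (sq_nonneg μ)
    calc (∫ s, φ s ^ 2) * ∫ t, ψ t ^ 2 ≤ ((n + 1) * a - 0) * ∫ t, ψ t ^ 2 :=
          mul_le_mul_of_nonneg_right h2 h4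
      _ ≤ ((n + 1) * a - 0) * Real.pi := by
          apply mul_le_mul_of_nonneg_left (by linarith)
          have : 0 ≤ (n + 1) * a := by positivity
          linarith
      _ = (n + 1) * a * Real.pi := by ring
  have hmain' : -2 * (∫ z, (F z).re * dvg p z) - ∫ z, ‖p z‖ ^ 2 ≤
      K * ((n + 3) * (Real.pi * b)) := hmain
  rw [hi3] at hmain'
  have h5 : 2 * μ * (n * b) * (Real.pi - 4 * κ) ≤ 2 * μ * (n * b) * ∫ t, ψ t :=
    mul_le_mul_of_nonneg_left hψI (by positivity)
  linarith

theorem b_le {a b K : ℝ} {F G : ℂ → ℂ} (h : StripMap a b F G) (hK : 0 ≤ K)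
    (hE : StripEn K F (fun w => (F w).re)) : b ≤ K * a := by
  have ha := h.apos
  have hb := h.bpos
  have hpi := Real.pi_pos
  have key : ∀ n : ℕ, 1 ≤ n → ((n : ℝ) - 1) * b ≤ K * (n + 3) * a := by
    intro n hn
    have hn1 : (1 : ℝ) ≤ n := by exact_mod_cast hn
    have h1 : 2 * (b / a) * (n * b) * Real.pi - (b / a) ^ 2 * ((n + 1) * a * Real.pi) ≤
        K * ((n + 3) * (Real.pi * b)) := by
      apply le_of_forall_pos_le_add
      intro ε hε
      set D : ℝ := 2 * (b / a) * (n * b) with hD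
      have hD0 : 0 ≤ D := by positivity
      have hκ : 0 < min (Real.pi / 8) (ε / (4 * D + 1)) := lt_min (by positivity) (by positivity)
      have h2 := b_le_aux h hK hE n hn hκ
        (lt_of_le_of_lt (min_le_left _ _) (by linarith)) (μ := b / a) (by positivity)
      have h3 : 4 * D * min (Real.pi / 8) (ε / (4 * D + 1)) ≤ ε := by
        have h4 : min (Real.pi / 8) (ε / (4 * D + 1)) ≤ ε / (4 * D + 1) := min_le_right _ _
        have h5 : ε / (4 * D + 1) * (4 * D + 1) = ε := div_mul_cancel₀ _ (by positivity)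
        have h6 : 0 ≤ ε / (4 * D + 1) := by positivity
        nlinarith
      rw [← hD] at h2
      nlinarith
    have h2 : b / a * a = b := div_mul_cancel₀ _ ha.ne'
    have h3 : (b / a) ^ 2 * ((n + 1) * a * Real.pi) = (b / a) * (n + 1) * b * Real.pi := by
      rw [← h2]
      have : b / a * a / a = b / a := by rw [h2]
      rw [this]
      ring
    rw [h3] at h1
    have h4 : (b / a) * ((n : ℝ) - 1) * (b * Real.pi) ≤ K * (n + 3) * (b * Real.pi) := by nlinarith
    have h5 : (b / a) * ((n : ℝ) - 1) ≤ K * (n + 3) := le_of_mul_le_mul_right h4 (by positivity)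
    calc ((n : ℝ) - 1) * b = ((b / a) * ((n : ℝ) - 1)) * a := by rw [← h2]; field_simp
      _ ≤ (K * (n + 3)) * a := mul_le_mul_of_nonneg_right h5 ha.le
  by_contra hc
  rw [not_le] at hc
  obtain ⟨n, hn⟩ := exists_nat_gt ((b + 3 * (K * a)) / (b - K * a))
  have h1 : b + 3 * (K * a) < n * (b - K * a) := by
    rwa [div_lt_iff₀ (by linarith)] at hn
  have h2 := key (n + 1) (by omega)
  push_cast at h2
  nlinarith

end Pool.Agent.Helper48.QH
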