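import Pool.Agent.Helper48.QH.Core

/-!
# QH, block C5b: uniform continuity of a periodic height on inner bands

PROOF. Let `v = im F`, `v (w + a) = v w` on `Strip`. On the compact set `{w | -a ≤ re w ≤ 2 a, r/2 ≤ im w ≤ π - r/2}` it is uniformly continuous: there is `η`,
`0 < η < min (a, r/2)`, with `|v z - v w| ≤ κ` for `‖z - w‖ ≤ η` in this set. For general `z` with `r ≤ im z ≤ π - r` translate by the multiple `k a` with
`0 ≤ re z - k a < a`.
-/

set_option autoImplicit false

open MeasureTheory UpperHalfPlane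
open scoped ContDiff MatrixGroups

noncomputable section

namespace Pool.Agent.Helper48.QH

private theorem uc_nat {a b : ℝ} {F G : ℂ → ℂ} (h : StripMap a b F G) (n : ℕ) :
    ∀ w ∈ Strip, (F (w + (n : ℂ) * (a : ℂ))).im = (F w).im := by
  induction n with
  | zero => intro w _; simp
  | succ n ih =>
      intro w hw
      have hw' : w + (n : ℂ) * (a : ℂ) ∈ Strip := by
        simpa [Strip] using hw
      have e : w + ((n + 1 : ℕ) : ℂ) * (a : ℂ) = (w + (n : ℂ) * (a : ℂ)) + a := by
        push_cast; ring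
      rw [e, h.per _ hw', Complex.add_im, ih w hw]
      simp

private theorem uc_int {a b : ℝ} {F G : ℂ → ℂ} (h : StripMap a b F G) (k : ℤ) :
    ∀ w ∈ Strip, (F (w - (k : ℂ) * (a : ℂ))).im = (F w).im := by
  intro w hw
  rcases Int.eq_nat_or_neg k with ⟨n, rfl | rfl⟩
  · have hw' : w - ((n : ℤ) : ℂ) * (a : ℂ) ∈ Strip := by
      simpa [Strip] using hw
    have := uc_nat h n _ hw'
    rw [← this]
    congr 2
    push_cast
    ring
  · have := uc_nat h n w hw
    rw [← this]
    congr 2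
    push_cast
    ring

theorem unif_cont {a b : ℝ} {F G : ℂ → ℂ} (h : StripMap a b F G) {r κ : ℝ} (hr : 0 < r) (hκ : 0 < κ) :
    ∃ η : ℝ, 0 < η ∧ η < r ∧ ∀ z w : ℂ, r ≤ z.im → z.im ≤ Real.pi - r → ‖w - z‖ ≤ η →
      |(F w).im - (F z).im| ≤ κ := by
  have ha := h.apos
  set S : Set ℂ := Set.Icc (-a) (2 * a) ×ℂ Set.Icc (r / 2) (Real.pi - r / 2) with hS
  have hSs : S ⊆ Strip := by
    intro w hw
    rw [hS, Complex.mem_reProdIm] at hw
    obtain ⟨_, h1, h2⟩ := hw
    exact ⟨by linarith, by linarith⟩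
  have hSc : IsCompact S := isCompact_Icc.reProdIm isCompact_Icc
  have hcont : ContinuousOn (fun w => (F w).im) S :=
    Complex.continuous_im.comp_continuousOn (h.contF.mono hSs)
  have huc := hSc.uniformContinuousOn_of_continuous hcont
  rw [Metric.uniformContinuousOn_iff] at huc
  obtain ⟨δ, hδ, hd⟩ := huc κ hκ
  refine ⟨min (δ / 2) (min a (r / 2)), by positivity, ?_, ?_⟩
  · calc min (δ / 2) (min a (r / 2)) ≤ r / 2 := (min_le_right _ _).trans (min_le_right _ _)
      _ < r := by linarith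
  intro z w hz1 hz2 hwz
  have hη1 : ‖w - z‖ ≤ δ / 2 := hwz.trans (min_le_left _ _)
  have hη2 : ‖w - z‖ ≤ a := hwz.trans ((min_le_right _ _).trans (min_le_left _ _))
  have hη3 : ‖w - z‖ ≤ r / 2 := hwz.trans ((min_le_right _ _).trans (min_le_right _ _))
  have hre : |w.re - z.re| ≤ ‖w - z‖ := by
    have := Complex.abs_re_le_norm (w - z)
    simpa using this
  have him : |w.im - z.im| ≤ ‖w - z‖ := by
    have := Complex.abs_im_le_norm (w - z)
    simpa using this
  have hre' := abs_le.mp (hre.trans hη2)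
  have him' := abs_le.mp (him.trans hη3)
  set k : ℤ := ⌊z.re / a⌋ with hk
  have hk1 : (k : ℝ) * a ≤ z.re := by
    have := Int.floor_le (z.re / a)
    rwa [le_div_iff₀ ha] at this
  have hk2 : z.re < ((k : ℝ) + 1) * a := by
    have := Int.lt_floor_add_one (z.re / a)
    rwa [div_lt_iff₀ ha] at this
  have hzs : z ∈ Strip := ⟨by linarith, by linarith⟩
  have hws : w ∈ Strip := ⟨by linarith, by linarith⟩
  have rez : (z - (k : ℂ) * (a : ℂ)).re = z.re - k * a := by simp
  have imz : (z - (k : ℂ) * (a : ℂ)).im = z.im := by simp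
  have rew : (w - (k : ℂ) * (a : ℂ)).re = w.re - k * a := by simp
  have imw : (w - (k : ℂ) * (a : ℂ)).im = w.im := by simp
  have hz' : z - (k : ℂ) * (a : ℂ) ∈ S := by
    rw [hS, Complex.mem_reProdIm, rez, imz]
    refine ⟨⟨?_, ?_⟩, ?_, ?_⟩ <;> nlinarith
  have hw' : w - (k : ℂ) * (a : ℂ) ∈ S := by
    rw [hS, Complex.mem_reProdIm, rew, imw]
    refine ⟨⟨?_, ?_⟩, ?_, ?_⟩ <;> nlinarith
  have hdist : dist (w - (k : ℂ) * (a : ℂ)) (z - (k : ℂ) * (a : ℂ)) < δ := by
    rw [dist_eq_norm]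
    have : w - (k : ℂ) * (a : ℂ) - (z - (k : ℂ) * (a : ℂ)) = w - z := by ring
    rw [this]
    linarith
  have := hd _ hw' _ hz' hdist
  simp only [Real.dist_eq] at this
  rw [uc_int h k w hws, uc_int h k z hzs] at this
  exact this.le

end Pool.Agent.Helper48.QH
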