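import Pool.Agent.Helper48.QH.Core
import Pool.Agent.Helper48.QH.CellArea
import Pool.Agent.Helper48.QH.RePart
import Pool.Agent.Helper48.QH.Mollify
import Pool.Agent.Helper48.QH.MolBasic
import Pool.Agent.Helper48.QH.Periodic
import Pool.Agent.Helper48.QH.Ends
import Pool.Agent.Helper48.QH.UnifCont
import Pool.Agent.Helper48.QH.Calc

/-!
# QH, block C7: the strip theorem

PROOF. Let `v = im F`, `z` with `im z = π/2`, `δ = |v z - π/2|`, `0 ≤ δ < π/2`. We may assume `δ > 0`. `b ≤ K a` by `b_le`; put `ε = K π b - π a ≤ (K^2 - 1) π a`.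
(1) Claim: `δ/2 ≤ sqrt (2 a ε' / δ) + sqrt (π ε' / a)` for every `ε' > ε`, `ε' ≥ 0`; so (continuity) also for `ε' = max ε 0 ≤ (K^2 - 1) π a =: ε₁`.
Given small `κ > 0` choose `r' > 0` small (`r' ≤ κ`, `π/2 + δ/2 ≤ π - r'`, and `2 r'` smaller than the radii of `Up F` or `Down F` for `κ`), `η` from `unif_cont` for `r'`, `κ`,
`r = η` (so `r < r'`), a bump `ρ` of radius `r`, `g = mol ρ (imF F)`; `g` is smooth and periodic, `periodic_energy` gives the energy bound `E = K π b` on
`[r', π - r']`, and `mol_le`, `le_mol` give: `|g z - v z| ≤ κ` for `r' ≤ im z ≤ π - r'`; `g ≤ π`, `g ≥ 0`; and `g ≥ π - κ` at height `π - r'`, `g ≤ κ` at height `r'` in the case `Up F`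
(the ball of radius `r` about a point of height `π - r'` is contained in `{π - 2 r' < im < π}`).
Case `Up F`, `v z > π/2`: apply `calc_bound` to `g` (path property from `path_up`, with `- κ`).
Case `Up F`, `v z < π/2`: apply it to `w ↦ π - g (conj w + i π)` (heights `θ → π - θ`; `conj w + iπ` has real part `re w` and imaginary part `π - im w`).
Case `Down F`, `v z < π/2`: apply it to `π - g`. Case `Down F`, `v z > π/2`: apply it to `w ↦ g (conj w + i π)`.
In each case the norm of the derivative is unchanged at the reflected point and the energy over `[0, a] × [r', π - r']` is the same. Let `κ → 0`.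
(2) From (1): either `δ/4 ≤ sqrt (π ε₁ / a) = π sqrt (K^2 - 1)`, so `δ ≤ 4 π sqrt (K^2 - 1)`, or `δ/4 ≤ sqrt (2 a ε₁ / δ)`, so `δ^3 ≤ 32 a ε₁ = 32 π a^2 (K^2 - 1)`.
-/

set_option autoImplicit false

open MeasureTheory UpperHalfPlane
open scoped ContDiff MatrixGroups

noncomputable section

namespace Pool.Agent.Helper48.QH

/-- the mollified height -/
private theorem st_data {a b K : ℝ} {F G : ℂ → ℂ} (h : StripMap a b F G) (hK : 1 ≤ K)
    (him : StripEn K F (fun w => (F w).im)) {κ r' : ℝ} (hκ : 0 < κ) (hr : 0 < r')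
    (hr2 : r' < Real.pi / 2) :
    ∃ g : ℂ → ℝ, ContDiff ℝ 1 g ∧ (∀ z, g (z + a) = g z) ∧
      (∫ s in (0 : ℝ)..a, ∫ θ in r'..(Real.pi - r'),
        ‖fderiv ℝ g (s + θ * Complex.I)‖ ^ 2 ≤ K * (Real.pi * b)) ∧
      (∀ z, 0 ≤ g z) ∧ (∀ z, g z ≤ Real.pi) ∧
      ∀ z : ℂ, r' ≤ z.im → z.im ≤ Real.pi - r' → |g z - (F z).im| ≤ κ := by
  obtain ⟨η, h1, h2, h3⟩ := unif_cont h hr hκ
  obtain ⟨ρ, hρ⟩ := exists_bump h1
  have hm := imF_measurable h
  have hb := imF_bound h
  have h0 : ∀ w, 0 ≤ imF F w := by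
    intro w
    rw [imF]
    split_ifs with hw
    · exact (h.mapsF w hw).1.le
    · exact le_rfl
  refine ⟨mol ρ (imF F), (mol_smooth hρ hm hb).of_le (by exact_mod_cast le_top),
    mol_periodic (imF_periodic h), periodic_energy h (by linarith) him hρ h2 hr2, ?_, ?_, ?_⟩
  · intro z
    exact le_mol hρ hm hb fun w _ => h0 w
  · intro z
    exact mol_le hρ hm hb fun w _ => (le_abs_self _).trans (hb w)
  · intro z hz1 hz2
    have key : ∀ w : ℂ, ‖w - z‖ ≤ η → |imF F w - (F z).im| ≤ κ := by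
      intro w hw
      have h4 := h3 z w hz1 hz2 hw
      have h5 : |w.im - z.im| ≤ ‖w - z‖ := by
        have := Complex.abs_im_le_norm (w - z)
        simpa using this
      have h6 := abs_le.1 (h5.trans hw)
      have h7 : w ∈ Strip := ⟨by linarith, by linarith⟩
      rw [imF, if_pos h7]
      exact h4
    rw [abs_le]
    constructor
    · have := le_mol hρ hm hb (z := z) (m := (F z).im - κ) fun w hw => by
        have := (abs_le.1 (key w hw)).1
        linarith
      linarith
    · have := mol_le hρ hm hb (z := z) (m := (F z).im + κ) fun w hw => by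
        have := (abs_le.1 (key w hw)).2
        linarith
      linarith

/-- the reflection of the strip -/
private theorem st_refl_eq (s θ : ℝ) :
    (starRingEnd ℂ) ((s : ℂ) + θ * Complex.I) + Real.pi * Complex.I =
      (s : ℂ) + ((Real.pi - θ : ℝ) : ℂ) * Complex.I := by
  simp only [map_add, map_mul, Complex.conj_ofReal, Complex.conj_I]
  push_cast
  ring

private theorem st_refl_contDiff {g : ℂ → ℝ} (hg : ContDiff ℝ 1 g) :
    ContDiff ℝ 1 (fun w => g ((starRingEnd ℂ) w + Real.pi * Complex.I)) :=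
  hg.comp (Complex.conjCLE.contDiff.add contDiff_const)

private theorem st_refl_fderiv {g : ℂ → ℝ} (hg : ContDiff ℝ 1 g) (z : ℂ) :
    ‖fderiv ℝ (fun w => g ((starRingEnd ℂ) w + Real.pi * Complex.I)) z‖ =
      ‖fderiv ℝ g ((starRingEnd ℂ) z + Real.pi * Complex.I)‖ := by
  have h1 : HasFDerivAt (fun w : ℂ => (starRingEnd ℂ) w + Real.pi * Complex.I)
      (Complex.conjLIE.toContinuousLinearEquiv : ℂ →L[ℝ] ℂ) z := by
    have := (Complex.conjLIE.toContinuousLinearEquiv : ℂ →L[ℝ] ℂ).hasFDerivAt (x := z)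
    exact this.add_const _
  have h2 := (hg.differentiable (by norm_num)
    ((starRingEnd ℂ) z + Real.pi * Complex.I)).hasFDerivAt.comp z h1
  have h3 := h2.fderiv
  change ‖fderiv ℝ (g ∘ fun w : ℂ => (starRingEnd ℂ) w + Real.pi * Complex.I) z‖ = _
  rw [h3]
  exact ContinuousLinearMap.opNorm_comp_linearIsometryEquiv _ _

private theorem st_refl_energy {g : ℂ → ℝ} (hg : ContDiff ℝ 1 g) (a r : ℝ) :
    ∫ s in (0 : ℝ)..a, ∫ θ in r..(Real.pi - r),
      ‖fderiv ℝ (fun w => g ((starRingEnd ℂ) w + Real.pi * Complex.I))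
        (s + θ * Complex.I)‖ ^ 2 =
    ∫ s in (0 : ℝ)..a, ∫ θ in r..(Real.pi - r), ‖fderiv ℝ g (s + θ * Complex.I)‖ ^ 2 := by
  refine intervalIntegral.integral_congr fun s _ => ?_
  have h1 : ∀ θ : ℝ, ‖fderiv ℝ (fun w => g ((starRingEnd ℂ) w + Real.pi * Complex.I))
        (s + θ * Complex.I)‖ ^ 2 =
      (fun θ : ℝ => ‖fderiv ℝ g (s + θ * Complex.I)‖ ^ 2) (Real.pi - θ) := by
    intro θ
    rw [st_refl_fderiv hg, st_refl_eq]
  simp only [h1]
  rw [intervalIntegral.integral_comp_sub_left (fun θ : ℝ => ‖fderiv ℝ g (s + θ * Complex.I)‖ ^ 2)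
    Real.pi]
  congr 1
  ring

private theorem st_neg_fderiv {g : ℂ → ℝ} (z : ℂ) :
    ‖fderiv ℝ (fun w => Real.pi - g w) z‖ = ‖fderiv ℝ g z‖ := by
  rw [fderiv_const_sub, norm_neg]

/-- the estimate with a margin -/
private theorem st_kappa {a b K : ℝ} {F G : ℂ → ℂ} (h : StripMap a b F G) (hK : 1 ≤ K)
    (hre : StripEn K F (fun w => (F w).re)) (him : StripEn K F (fun w => (F w).im)) {z : ℂ}
    (hz : z.im = Real.pi / 2) {δ : ℝ} (hδ : δ = |(F z).im - Real.pi / 2|) (h0 : 0 < δ) {κ : ℝ}
    (hκ : 0 < κ) :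
    δ / 2 - 3 * κ ≤ Real.sqrt (2 * a * ((K ^ 2 - 1) * Real.pi * a + 8 * κ * a) / δ) +
      Real.sqrt (Real.pi * ((K ^ 2 - 1) * Real.pi * a + 8 * κ * a) / a) := by
  have ha := h.apos
  have hpi := Real.pi_pos
  have hzs : z ∈ Strip := ⟨by rw [hz]; linarith, by rw [hz]; linarith⟩
  have hFz := h.mapsF z hzs
  have hδ2 : δ < Real.pi / 2 := by
    rw [hδ, abs_lt]
    exact ⟨by linarith [hFz.1], by linarith [hFz.2]⟩
  have hba := b_le h (by linarith) hre
  -- the energy constant
  have hE : K * (Real.pi * b) - Real.pi * a + 4 * (2 * κ) * a ≤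
      (K ^ 2 - 1) * Real.pi * a + 8 * κ * a := by
    have h1 : K * (Real.pi * b) ≤ K * (Real.pi * (K * a)) := by gcongr
    nlinarith
  -- the conclusion from a good function
  have fin : ∀ r' : ℝ, 0 < r' → r' ≤ κ → r' ≤ Real.pi / 4 → ∀ g : ℂ → ℝ, ContDiff ℝ 1 g →
      (∀ z, g (z + a) = g z) →
      (∫ s in (0 : ℝ)..a, ∫ θ in r'..(Real.pi - r'),
        ‖fderiv ℝ g (s + θ * Complex.I)‖ ^ 2 ≤ K * (Real.pi * b)) →
      (∀ s : ℝ, Real.pi - 2 * κ ≤ g (s + (Real.pi - r' : ℝ) * Complex.I)) →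
      (∀ s : ℝ, g (s + (Real.pi - r' : ℝ) * Complex.I) ≤ Real.pi) →
      (∀ s : ℝ, g (s + r' * Complex.I) ≤ 2 * κ) →
      (∀ θ : ℝ, Real.pi / 2 < θ → θ < Real.pi / 2 + δ / 2 →
        ∃ s : ℝ, Real.pi / 2 + δ - 2 * κ ≤ g (s + θ * Complex.I)) →
      δ / 2 - 3 * κ ≤ Real.sqrt (2 * a * ((K ^ 2 - 1) * Real.pi * a + 8 * κ * a) / δ) +
        Real.sqrt (Real.pi * ((K ^ 2 - 1) * Real.pi * a + 8 * κ * a) / a) := by
    intro r' hr hrκ hr4 g hg hper hen htop htop' hbot hpath
    have h1 := calc_bound hg ha hper hr (by linarith) h0 (by linarith) hen htop htop' hbot hpath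
    have h2 : Real.sqrt (2 * a * (K * (Real.pi * b) - Real.pi * a + 4 * (2 * κ) * a) / δ) ≤
        Real.sqrt (2 * a * ((K ^ 2 - 1) * Real.pi * a + 8 * κ * a) / δ) := by
      apply Real.sqrt_le_sqrt
      gcongr
    have h3 : Real.sqrt (Real.pi * (K * (Real.pi * b) - Real.pi * a + 4 * (2 * κ) * a) / a) ≤
        Real.sqrt (Real.pi * ((K ^ 2 - 1) * Real.pi * a + 8 * κ * a) / a) := by
      apply Real.sqrt_le_sqrt
      gcongr
    linarith
  have imeq : ∀ s θ : ℝ, ((s : ℂ) + (θ : ℂ) * Complex.I).im = θ := by intro s θ; simp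
  have memS : ∀ s θ : ℝ, 0 < θ → θ < Real.pi → ((s : ℂ) + (θ : ℂ) * Complex.I) ∈ Strip := by
    intro s θ h1 h2
    exact ⟨by rw [imeq]; exact h1, by rw [imeq]; exact h2⟩
  rcases ends h with hU | hD
  · obtain ⟨r1, hr1, h1⟩ := hU.1 κ hκ
    obtain ⟨r2, hr2, h2⟩ := hU.2 κ hκ
    obtain ⟨r', hr', hrκ, hr4, hrr1, hrr2⟩ : ∃ r' : ℝ, 0 < r' ∧ r' ≤ κ ∧ r' ≤ Real.pi / 4 ∧
        r' < r1 ∧ r' < r2 := by
      refine ⟨min (min κ (Real.pi / 4)) (min (r1 / 2) (r2 / 2)), by positivity, ?_, ?_, ?_, ?_⟩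
      · exact (min_le_left _ _).trans (min_le_left _ _)
      · exact (min_le_left _ _).trans (min_le_right _ _)
      · exact ((min_le_right _ _).trans (min_le_left _ _)).trans_lt (by linarith)
      · exact ((min_le_right _ _).trans (min_le_right _ _)).trans_lt (by linarith)
    obtain ⟨g, hg, hper, hen, hg0, hg1, hgv⟩ := st_data h hK him hκ hr' (by linarith)
    have gtop : ∀ s : ℝ, Real.pi - 2 * κ ≤ g (s + (Real.pi - r' : ℝ) * Complex.I) := by
      intro s
      have e1 := hgv (s + (Real.pi - r' : ℝ) * Complex.I) (by rw [imeq]; linarith)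
        (by rw [imeq])
      have e2 := h1 _ (memS s (Real.pi - r') (by linarith) (by linarith)) (by rw [imeq]; linarith)
      have e3 := (abs_le.1 e1).1
      linarith
    have gbot : ∀ s : ℝ, g (s + r' * Complex.I) ≤ 2 * κ := by
      intro s
      have e1 := hgv (s + r' * Complex.I) (by rw [imeq]) (by rw [imeq]; linarith)
      have e2 := h2 _ (memS s r' (by linarith) (by linarith)) (by rw [imeq]; linarith)
      have e3 := (abs_le.1 e1).2
      linarith
    obtain ⟨p1, p2⟩ := path_up h hU hzs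
    rcases le_or_gt (Real.pi / 2) (F z).im with hc | hc
    · have hv : (F z).im = Real.pi / 2 + δ := by
        rw [hδ, abs_of_nonneg (by linarith)]
        ring
      refine fin r' hr' hrκ hr4 g hg hper hen gtop (fun s => hg1 _) gbot ?_
      intro θ ht1 ht2
      obtain ⟨s, hs⟩ := p1 θ (by rw [hz]; exact ht1) (by linarith)
      refine ⟨s, ?_⟩
      have e1 := hgv (s + θ * Complex.I) (by rw [imeq]; linarith) (by rw [imeq]; linarith)
      have e3 := (abs_le.1 e1).1
      linarith
    · have hv : (F z).im = Real.pi / 2 - δ := by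
        rw [hδ, abs_of_neg (by linarith)]
        ring
      refine fin r' hr' hrκ hr4 (fun w => Real.pi - g ((starRingEnd ℂ) w + Real.pi * Complex.I))
        (contDiff_const.sub (st_refl_contDiff hg)) ?_ ?_ ?_ ?_ ?_ ?_
      · intro w
        have e1 : (starRingEnd ℂ) (w + a) + Real.pi * Complex.I =
            ((starRingEnd ℂ) w + Real.pi * Complex.I) + a := by
          rw [map_add, Complex.conj_ofReal]
          ring
        simp only [e1, hper]
      · simp only [st_neg_fderiv (g := fun w => g ((starRingEnd ℂ) w + Real.pi * Complex.I))]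
        rw [st_refl_energy hg]
        exact hen
      · intro s
        simp only [st_refl_eq]
        have := gbot s
        rw [show Real.pi - (Real.pi - r') = r' by ring]
        linarith
      · intro s
        have := hg0 ((starRingEnd ℂ) (s + (Real.pi - r' : ℝ) * Complex.I) + Real.pi * Complex.I)
        linarith
      · intro s
        simp only [st_refl_eq]
        have := gtop s
        linarith
      · intro θ ht1 ht2
        obtain ⟨s, hs⟩ := p2 (Real.pi - θ) (by linarith) (by rw [hz]; linarith)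
        refine ⟨s, ?_⟩
        simp only [st_refl_eq]
        have e1 := hgv (s + (Real.pi - θ : ℝ) * Complex.I) (by rw [imeq]; linarith)
          (by rw [imeq]; linarith)
        have e3 := (abs_le.1 e1).2
        linarith
  · obtain ⟨r1, hr1, h1⟩ := hD.1 κ hκ
    obtain ⟨r2, hr2, h2⟩ := hD.2 κ hκ
    obtain ⟨r', hr', hrκ, hr4, hrr1, hrr2⟩ : ∃ r' : ℝ, 0 < r' ∧ r' ≤ κ ∧ r' ≤ Real.pi / 4 ∧
        r' < r1 ∧ r' < r2 := by
      refine ⟨min (min κ (Real.pi / 4)) (min (r1 / 2) (r2 / 2)), by positivity, ?_, ?_, ?_, ?_⟩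
      · exact (min_le_left _ _).trans (min_le_left _ _)
      · exact (min_le_left _ _).trans (min_le_right _ _)
      · exact ((min_le_right _ _).trans (min_le_left _ _)).trans_lt (by linarith)
      · exact ((min_le_right _ _).trans (min_le_right _ _)).trans_lt (by linarith)
    obtain ⟨g, hg, hper, hen, hg0, hg1, hgv⟩ := st_data h hK him hκ hr' (by linarith)
    have gtop : ∀ s : ℝ, g (s + (Real.pi - r' : ℝ) * Complex.I) ≤ 2 * κ := by
      intro s
      have e1 := hgv (s + (Real.pi - r' : ℝ) * Complex.I) (by rw [imeq]; linarith)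
        (by rw [imeq])
      have e2 := h1 _ (memS s (Real.pi - r') (by linarith) (by linarith)) (by rw [imeq]; linarith)
      have e3 := (abs_le.1 e1).2
      linarith
    have gbot : ∀ s : ℝ, Real.pi - 2 * κ ≤ g (s + r' * Complex.I) := by
      intro s
      have e1 := hgv (s + r' * Complex.I) (by rw [imeq]) (by rw [imeq]; linarith)
      have e2 := h2 _ (memS s r' (by linarith) (by linarith)) (by rw [imeq]; linarith)
      have e3 := (abs_le.1 e1).1
      linarith
    obtain ⟨p1, p2⟩ := path_down h hD hzs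
    rcases le_or_gt (Real.pi / 2) (F z).im with hc | hc
    · have hv : (F z).im = Real.pi / 2 + δ := by
        rw [hδ, abs_of_nonneg (by linarith)]
        ring
      refine fin r' hr' hrκ hr4 (fun w => g ((starRingEnd ℂ) w + Real.pi * Complex.I))
        (st_refl_contDiff hg) ?_ ?_ ?_ ?_ ?_ ?_
      · intro w
        have e1 : (starRingEnd ℂ) (w + a) + Real.pi * Complex.I =
            ((starRingEnd ℂ) w + Real.pi * Complex.I) + a := by
          rw [map_add, Complex.conj_ofReal]
          ring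
        simp only [e1, hper]
      · rw [st_refl_energy hg]
        exact hen
      · intro s
        simp only [st_refl_eq]
        have := gbot s
        rw [show Real.pi - (Real.pi - r') = r' by ring]
        linarith
      · intro s
        exact hg1 _
      · intro s
        simp only [st_refl_eq]
        have := gtop s
        linarith
      · intro θ ht1 ht2
        obtain ⟨s, hs⟩ := p2 (Real.pi - θ) (by linarith) (by rw [hz]; linarith)
        refine ⟨s, ?_⟩
        simp only [st_refl_eq]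
        have e1 := hgv (s + (Real.pi - θ : ℝ) * Complex.I) (by rw [imeq]; linarith)
          (by rw [imeq]; linarith)
        have e3 := (abs_le.1 e1).1
        linarith
    · have hv : (F z).im = Real.pi / 2 - δ := by
        rw [hδ, abs_of_neg (by linarith)]
        ring
      refine fin r' hr' hrκ hr4 (fun w => Real.pi - g w)
        (contDiff_const.sub hg) ?_ ?_ ?_ ?_ ?_ ?_
      · intro w
        simp only [hper]
      · simp only [st_neg_fderiv]
        exact hen
      · intro s
        have := gtop s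
        linarith
      · intro s
        have := hg0 (s + (Real.pi - r' : ℝ) * Complex.I)
        linarith
      · intro s
        have := gbot s
        linarith
      · intro θ ht1 ht2
        obtain ⟨s, hs⟩ := p1 θ (by rw [hz]; exact ht1) (by linarith)
        refine ⟨s, ?_⟩
        have e1 := hgv (s + θ * Complex.I) (by rw [imeq]; linarith) (by rw [imeq]; linarith)
        have e3 := (abs_le.1 e1).2
        linarith

/-- the estimate (1) in the header -/
theorem strip_estimate {a b K : ℝ} {F G : ℂ → ℂ} (h : StripMap a b F G) (hK : 1 ≤ K)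
    (hre : StripEn K F (fun w => (F w).re)) (him : StripEn K F (fun w => (F w).im)) {z : ℂ}
    (hz : z.im = Real.pi / 2) {δ : ℝ} (hδ : δ = |(F z).im - Real.pi / 2|) (h0 : 0 < δ) :
    δ / 2 ≤ Real.sqrt (2 * a * ((K ^ 2 - 1) * Real.pi * a) / δ) +
      Real.sqrt (Real.pi * ((K ^ 2 - 1) * Real.pi * a) / a) := by
  have hδ0 : δ ≠ 0 := h0.ne'
  have h1 : Continuous fun κ : ℝ => δ / 2 - 3 * κ := by fun_prop
  have h2 : Continuous fun κ : ℝ =>
      Real.sqrt (2 * a * ((K ^ 2 - 1) * Real.pi * a + 8 * κ * a) / δ) +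
      Real.sqrt (Real.pi * ((K ^ 2 - 1) * Real.pi * a + 8 * κ * a) / a) := by fun_prop
  have h3 := le_of_tendsto_of_tendsto
    ((h1.tendsto 0).mono_left (nhdsWithin_le_nhds (s := Set.Ioi 0)))
    ((h2.tendsto 0).mono_left (nhdsWithin_le_nhds (s := Set.Ioi 0)))
    (by
      filter_upwards [self_mem_nhdsWithin] with κ hκ
      exact st_kappa h hK hre him hz hδ h0 hκ)
  simpa using h3

theorem strip_theorem {a b K : ℝ} {F G : ℂ → ℂ} (h : StripMap a b F G) (hK : 1 ≤ K)
    (hre : StripEn K F (fun w => (F w).re)) (him : StripEn K F (fun w => (F w).im)) {z : ℂ}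
    (hz : z.im = Real.pi / 2) :
    |(F z).im - Real.pi / 2| ≤ 4 * Real.pi * Real.sqrt (K ^ 2 - 1) ∨
      |(F z).im - Real.pi / 2| ^ 3 ≤ 32 * Real.pi * a ^ 2 * (K ^ 2 - 1) := by
  rcases (abs_nonneg ((F z).im - Real.pi / 2)).eq_or_lt with h0 | h0
  · left
    rw [← h0]
    positivity
  · have ha := h.apos
    have hK2 : 0 ≤ K ^ 2 - 1 := by nlinarith
    have h1 := strip_estimate h hK hre him hz rfl h0
    set δ := |(F z).im - Real.pi / 2| with hδ
    have e1 : Real.pi * ((K ^ 2 - 1) * Real.pi * a) / a = (Real.pi * Real.sqrt (K ^ 2 - 1)) ^ 2 := by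
      rw [mul_pow, Real.sq_sqrt hK2]
      field_simp
    rw [e1, Real.sqrt_sq (by positivity)] at h1
    by_cases h2 : δ / 4 ≤ Real.pi * Real.sqrt (K ^ 2 - 1)
    · left
      linarith
    · right
      have h3 : δ / 4 ≤ Real.sqrt (2 * a * ((K ^ 2 - 1) * Real.pi * a) / δ) := by linarith
      have h4 : (δ / 4) ^ 2 ≤ 2 * a * ((K ^ 2 - 1) * Real.pi * a) / δ :=
        (Real.le_sqrt' (by positivity)).1 h3
      rw [le_div_iff₀ h0] at h4
      nlinarith [h4]

end Pool.Agent.Helper48.QH
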