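import Pool.Agent.Helper48.QH.Core
import Pool.Agent.Helper48.QH.Disp
import Pool.Agent.Helper48.QH.Diag
import Pool.Agent.Helper48.QH.Arg
import Pool.Agent.Helper48.QH.FromQC
import Pool.Agent.Helper48.QH.StripThm

/-!
# QH, block E1: every point is near the axis of a near-systolic element

PROOF. `ℓ = sys Γ > 0` is a lower bound of the set of displacements (`Real.sInf_le`/`csInf_le`, the set is bounded below by `0`), so for `g ∈ Γ`, `g ≠ ±1`, `ℓ ≤ dist z (g • z)` for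
all `z` (`sys_le`). The set is not empty (`hΓ`), so there are `γ ∈ Γ`, `γ ≠ ±1`, and `z₁` with `dist z₁ (γ • z₁) < (1 + κ) ℓ`. By `trace_bound`, `tr γ ^ 2 ≥ 4 cosh^2 (ℓ/2) > 4`, so
`exists_diag` gives `M`, `a > 0`, `|tr γ| = 2 cosh (a/2)`, and `a ≤ dist z₁ (γ z₁) ≤ (1 + κ) ℓ` (`b_le_disp`). Let `z₀ = M⁻¹ • I`; choose `f` in `Homog` with `f z₀ = y` and
`h ∈ Γ` with `f (γ • z) = h • f z`. `h ≠ ±1`: otherwise `f (γ • z) = f z` (`(-1) • z = z`), so `γ • z = z`, contradicting the displacement `≥ ℓ > 0`. `exists_diag` for `h`: `N`,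
`b > 0`. Now `stripMap_of_qc`, `stripEn_re`, `stripEn_im`, and `b_le` gives `b ≤ K a ≤ K (1 + κ) ℓ`. For `w₀ = (π/2) i`: `chartInv M w₀ = M⁻¹ • exp (iπ/2) = M⁻¹ • I = z₀`, so
`stripF M N f w₀ = chart N y`, of imaginary part `φ = arg (N • y)` (`chart_im`). Let `δ = |φ - π/2|`; `strip_theorem` gives the alternative (with `a ≤ (1 + κ) ℓ`), and
`Qf_arg` gives `Q^2 sin^2 φ = (tr^2 - 4) cos^2 φ`; `cos φ = ∓ sin δ`, `sin φ = cos δ`.
-/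

set_option autoImplicit false

open MeasureTheory UpperHalfPlane
open scoped ContDiff MatrixGroups

noncomputable section

namespace Pool.Agent.Helper48.QH

theorem sys_le {Γ : Subgroup SL(2, ℝ)} {g : SL(2, ℝ)} (hg : g ∈ Γ) (h1 : g ≠ 1) (h2 : g ≠ -1) (z : ℍ) :
    sys Γ ≤ dist z (g • z) := by
  refine csInf_le ⟨0, ?_⟩ ⟨g, hg, h1, h2, z, rfl⟩
  rintro d ⟨g, _, _, _, z, rfl⟩
  exact dist_nonneg

private theorem neg_one_smul86 (z : ℍ) : (-1 : SL(2, ℝ)) • z = z := by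
  ext1
  simp [UpperHalfPlane.specialLinearGroup_apply]

private theorem four_lt86 {Γ : Subgroup SL(2, ℝ)} (hs : 0 < sys Γ) {g : SL(2, ℝ)} (hg : g ∈ Γ) (h1 : g ≠ 1)
    (h2 : g ≠ -1) : 4 < tr g ^ 2 := by
  have h3 := trace_bound g (sys Γ) hs fun z => sys_le hg h1 h2 z
  have h4 : 1 < Real.cosh (sys Γ / 2) := Real.one_lt_cosh.2 (by positivity)
  nlinarith

theorem near_axis {Γ : Subgroup SL(2, ℝ)} (hΓ : ∃ g ∈ Γ, g ≠ 1 ∧ g ≠ -1) (hs : 0 < sys Γ) {K : ℝ}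
    (hK : 1 ≤ K) (hH : Homog K Γ) {κ : ℝ} (hκ : 0 < κ) (y : ℍ) :
    ∃ h ∈ Γ, h ≠ 1 ∧ h ≠ -1 ∧ ∃ b δ : ℝ, 0 < b ∧ |tr h| = 2 * Real.cosh (b / 2) ∧
      b ≤ K * ((1 + κ) * sys Γ) ∧ 0 ≤ δ ∧ δ < Real.pi / 2 ∧
      (δ ≤ 4 * Real.pi * Real.sqrt (K ^ 2 - 1) ∨
        δ ^ 3 ≤ 32 * Real.pi * ((1 + κ) * sys Γ) ^ 2 * (K ^ 2 - 1)) ∧
      Qf h y ^ 2 * Real.cos δ ^ 2 = (tr h ^ 2 - 4) * Real.sin δ ^ 2 := by
  have hK0 : 0 ≤ K := by linarith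
  -- a near-systolic element
  obtain ⟨γ, hγ, hγ1, hγ2, z₁, hz₁⟩ : ∃ g ∈ Γ, g ≠ 1 ∧ g ≠ -1 ∧ ∃ z : ℍ, dist z (g • z) < (1 + κ) * sys Γ := by
    obtain ⟨g, hg, hg1, hg2⟩ := hΓ
    have hlt : sys Γ < (1 + κ) * sys Γ := by nlinarith
    have hne : ({d | ∃ g ∈ Γ, g ≠ 1 ∧ g ≠ -1 ∧ ∃ z : ℍ, d = dist z (g • z)} : Set ℝ).Nonempty :=
      ⟨_, g, hg, hg1, hg2, UpperHalfPlane.I, rfl⟩
    obtain ⟨d, ⟨γ, hγ, hγ1, hγ2, z, rfl⟩, hd⟩ := exists_lt_of_csInf_lt hne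
      (show sInf {d | ∃ g ∈ Γ, g ≠ 1 ∧ g ≠ -1 ∧ ∃ z : ℍ, d = dist z (g • z)} < (1 + κ) * sys Γ from hlt)
    exact ⟨γ, hγ, hγ1, hγ2, z, hd⟩
  obtain ⟨M, a, ha, hta, hM⟩ := exists_diag γ (four_lt86 hs hγ hγ1 hγ2)
  have haℓ : a ≤ (1 + κ) * sys Γ := (b_le_disp γ a ha.le hta z₁).trans hz₁.le
  obtain ⟨f, hqc, hf1, -, hfy⟩ := hH (M⁻¹ • UpperHalfPlane.I) y
  obtain ⟨h, hh, hfh⟩ := hf1 γ hγ
  have hnofix : ∀ z : ℍ, γ • z ≠ z := by
    intro z hz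
    have h1 := sys_le hγ hγ1 hγ2 z
    rw [hz, dist_self] at h1
    linarith
  have hh1 : h ≠ 1 := by
    rintro rfl
    have h1 := hfh y
    rw [one_smul] at h1
    exact hnofix y (f.injective h1)
  have hh2 : h ≠ -1 := by
    rintro rfl
    have h1 := hfh y
    rw [neg_one_smul86] at h1
    exact hnofix y (f.injective h1)
  obtain ⟨N, b, hb, htb, hN⟩ := exists_diag h (four_lt86 hs hh hh1 hh2)
  have hmap := stripMap_of_qc M N γ h a b ha hb hM hN hfh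
  have hre := stripEn_re hK0 hqc M N
  have him := stripEn_im hK0 hqc M N
  have hba := b_le hmap hK0 hre
  have hw : ((Real.pi / 2 : ℝ) * Complex.I : ℂ).im = Real.pi / 2 := by simp
  have hst := strip_theorem hmap hK hre him hw
  have hmem : stripF M N f ((Real.pi / 2 : ℝ) * Complex.I) ∈ Strip :=
    hmap.mapsF _ ⟨by rw [hw]; positivity, by rw [hw]; linarith [Real.pi_pos]⟩
  have hinv : chartInv M ((Real.pi / 2 : ℝ) * Complex.I) = ((M⁻¹ • UpperHalfPlane.I : ℍ) : ℂ) := by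
    have h1 : Complex.exp ((Real.pi / 2 : ℝ) * Complex.I) = (UpperHalfPlane.I : ℂ) := by
      rw [Complex.ofReal_div, Complex.ofReal_ofNat, Complex.exp_pi_div_two_mul_I]
      rfl
    rw [chartInv, h1, ofComplex_apply]
  have hF : (stripF M N f ((Real.pi / 2 : ℝ) * Complex.I)).im = Complex.arg ((N • y : ℍ) : ℂ) := by
    rw [stripF, hinv, ofComplex_apply, hfy, chart_im]
  obtain ⟨hm1, hm2⟩ := hmem
  rw [hF] at hst hm1 hm2
  have hQ := Qf_arg h N b hb htb hN y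
  refine ⟨h, hh, hh1, hh2, b, |Complex.arg ((N • y : ℍ) : ℂ) - Real.pi / 2|, hb, htb, ?_, abs_nonneg _, ?_, ?_, ?_⟩
  · exact hba.trans (mul_le_mul_of_nonneg_left haℓ hK0)
  · rw [abs_lt]
    constructor <;> linarith
  · rcases hst with h1 | h1
    · exact Or.inl h1
    · right
      have h2 : a ^ 2 ≤ ((1 + κ) * sys Γ) ^ 2 := pow_le_pow_left₀ ha.le haℓ 2
      have h3 : 0 ≤ K ^ 2 - 1 := by nlinarith
      calc _ ≤ 32 * Real.pi * a ^ 2 * (K ^ 2 - 1) := h1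
        _ ≤ 32 * Real.pi * ((1 + κ) * sys Γ) ^ 2 * (K ^ 2 - 1) := by gcongr
  · have h1 : Real.cos |Complex.arg ((N • y : ℍ) : ℂ) - Real.pi / 2| = Real.sin (Complex.arg ((N • y : ℍ) : ℂ)) := by
      rw [Real.cos_abs, Real.cos_sub_pi_div_two]
    have h2 : Real.sin |Complex.arg ((N • y : ℍ) : ℂ) - Real.pi / 2| ^ 2 = Real.cos (Complex.arg ((N • y : ℍ) : ℂ)) ^ 2 := by
      rw [Real.sin_sq, h1, Real.cos_sq']
    rw [h1, h2]
    exact hQ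

end Pool.Agent.Helper48.QH
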