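import Pool.Agent.Helper48.QH.Core
import Pool.Agent.Helper48.QH.NearAxis

/-!
# QH, block F: the area of a fundamental set is at least `exp (ℓ/2) / 4`

PROOF. Let `ρ = ℓ/2 ≥ 1/2`. The rectangle `R = {x + i y : |x| ≤ 1/2, 2 e^{-ρ} ≤ y ≤ 4 e^{-ρ}}` lies in the open ball `B(i, ρ)`: by `cosh_dist` (or `dist_lt_iff_dist_coe_center_lt`), `d (i, z) < ρ` iff
`x^2 + (y - cosh ρ)^2 < sinh^2 ρ`, i.e. `x^2 + y^2 + 1 < 2 y cosh ρ`; for `y = λ e^{-ρ}`, `2 ≤ λ ≤ 4`: `2 y cosh ρ = λ (1 + e^{-2ρ})`, and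
`1/4 + λ^2 e^{-2ρ} + 1 < λ (1 + e^{-2 ρ})` because `λ - 5/4 > λ (λ - 1) e^{-2ρ}`: `e^{-2ρ} ≤ e^{-1} < 0.368`... this fails for `λ = 4`, `ρ = 1/2`
(`2.75 > 12 e^{-1} = 4.4` is false), therefore the hypothesis is `2 ≤ ℓ` (`ρ ≥ 1`, `e^{-2ρ} ≤ 0.136`: `λ - 5/4 ≥ 0.75 > 0.272` at `λ = 2`, and at `λ = 4`
`2.75 > 12 * 0.136 = 1.63`; in between the function `λ - 5/4 - 0.136 λ (λ - 1)` is concave). Its measure is `∫_R dx dy / y^2 = e^{ρ}/2 - e^{ρ}/4 = e^ρ / 4`
(`volume_eq_lintegral`; a lower bound is enough; e.g. through `Complex.measurableEquivRealProd` and Tonelli; the boundary does not matter).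
For distinct classes of `g, g' ∈ Γ` mod `±1` the sets `g • R`, `g' • R` are disjoint: if `g z = g' z'`, `z, z' ∈ R`, then with `k = g⁻¹ g' ∈ Γ`, `k ≠ ±1`, `k z' = z` and
`ℓ ≤ d (z', k z') = d (z', z) < 2 ρ = ℓ`. The set `O` of points `g • i`, `g ∈ Γ`, is countable: they are pairwise at distance `≥ ℓ` (`Set.PairwiseDisjoint` of balls and separability,
`Set.PairwiseDisjoint.countable_of_isOpen`), and `g • i` determines `g` up to sign (again `sys_le`). Choose for each `o ∈ O` one `g_o`. For each `z ∈ R` there is `g ∈ Γ` with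
`g z ∈ D`, and then `g_o z ∈ D` for `o = g i`. So `R ⊆ ⋃_o g_o⁻¹ D`, and
`vol R ≤ ∑_o vol (R ∩ g_o⁻¹ D) = ∑_o vol (g_o R ∩ D) = vol (⋃_o g_o R ∩ D) ≤ vol D` (invariance of the measure under `GL(2, ℝ)`, so under `SL(2, ℝ)`; disjointness; measurable sets).
-/

set_option autoImplicit false

open MeasureTheory UpperHalfPlane
open scoped ContDiff MatrixGroups

noncomputable section

namespace Pool.Agent.Helper48.QH

/-- the rectangle -/
def Rect (ρ : ℝ) : Set ℍ :=
  {z | |z.re| ≤ 1 / 2 ∧ 2 * Real.exp (-ρ) ≤ z.im ∧ z.im ≤ 4 * Real.exp (-ρ)}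

theorem rect_ball {ρ : ℝ} (hρ : 1 ≤ ρ) {z : ℍ} (hz : z ∈ Rect ρ) : dist z UpperHalfPlane.I < ρ := by
  obtain ⟨h1, h2, h3⟩ := hz
  have hρ0 : 0 ≤ ρ := by linarith
  have ht0 : 0 < Real.exp (-ρ) := Real.exp_pos _
  have ht1 : Real.exp (-ρ) ≤ 0.3679 := by
    have h4 : Real.exp (-ρ) ≤ Real.exp (-1) := Real.exp_le_exp.2 (by linarith)
    have h5 := Real.exp_neg_one_lt_d9
    linarith
  have hte : Real.exp (-ρ) * Real.exp ρ = 1 := by
    rw [← Real.exp_add]; simp
  have hkey : Real.cosh (dist z UpperHalfPlane.I) < Real.cosh ρ := by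
    rw [UpperHalfPlane.cosh_dist', Real.cosh_eq, UpperHalfPlane.I_re, UpperHalfPlane.I_im]
    have hy := z.im_pos
    generalize z.re = x at h1 ⊢
    generalize z.im = y at h2 h3 hy ⊢
    generalize Real.exp (-ρ) = t at ht0 ht1 h2 h3 hte ⊢
    generalize Real.exp ρ = T at hte ⊢
    rw [div_lt_div_iff₀ (by positivity) (by norm_num)]
    have hx : x ^ 2 ≤ 1 / 4 := by
      have := abs_le.1 h1
      nlinarith [this.1, this.2]
    obtain ⟨l, rfl⟩ : ∃ l, y = l * t := ⟨y / t, by field_simp⟩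
    have hl1 : 2 ≤ l := le_of_mul_le_mul_right h2 ht0
    have hl2 : l ≤ 4 := le_of_mul_le_mul_right h3 ht0
    have hl3 : l * t * T = l := by rw [mul_assoc, hte, mul_one]
    have ht2 : t ^ 2 ≤ 0.14 := by nlinarith
    have h6 : t ^ 2 * (l * (l - 1)) ≤ 0.14 * (l * (l - 1)) :=
      mul_le_mul_of_nonneg_right ht2 (by nlinarith)
    have h7 : 0 ≤ (l - 2) * (4 - l) := mul_nonneg (by linarith) (by linarith)
    have h8 : (T + t) * (2 * (l * t) * 1) = 2 * l + 2 * l * t ^ 2 := by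
      linear_combination 2 * hl3
    rw [h8]
    nlinarith
  rw [Real.cosh_lt_cosh, abs_of_nonneg dist_nonneg, abs_of_nonneg hρ0] at hkey
  exact hkey

theorem rect_measurable (ρ : ℝ) : MeasurableSet (Rect ρ) := by
  have h1 : Measurable fun z : ℍ => z.re := UpperHalfPlane.continuous_re.measurable
  have h2 : Measurable fun z : ℍ => z.im := UpperHalfPlane.continuous_im.measurable
  exact (measurableSet_le (continuous_abs.measurable.comp h1) measurable_const).inter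
    ((measurableSet_le measurable_const h2).inter (measurableSet_le h2 measurable_const))

theorem rect_volume (ρ : ℝ) : ENNReal.ofReal (Real.exp ρ / 4) ≤ volume (Rect ρ) := by
  have ht0 : 0 < Real.exp (-ρ) := Real.exp_pos _
  set a : ℝ := 2 * Real.exp (-ρ) with ha
  set b : ℝ := 4 * Real.exp (-ρ) with hb
  have ha0 : 0 < a := by positivity
  have hab : a ≤ b := by rw [ha, hb]; linarith
  rw [UpperHalfPlane.volume_eq_lintegral]
  have himg : (UpperHalfPlane.coe '' Rect ρ) =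
      Complex.measurableEquivRealProd ⁻¹' (Set.Icc (-(1 / 2)) (1 / 2) ×ˢ Set.Icc a b) := by
    ext w
    simp only [Set.mem_image, Set.mem_preimage, Set.mem_prod, Set.mem_Icc,
      Complex.measurableEquivRealProd_apply, Rect, Set.mem_ofPred_eq]
    constructor
    · rintro ⟨z, ⟨h1, h2, h3⟩, rfl⟩
      exact ⟨abs_le.1 h1, h2, h3⟩
    · rintro ⟨h1, h2, h3⟩
      exact ⟨⟨w, lt_of_lt_of_le ha0 h2⟩, ⟨abs_le.2 h1, h2, h3⟩, rfl⟩
  rw [himg]
  have hf : ∀ z : ℂ, (((1 / ‖z.im‖₊) ^ 2 : NNReal) : ENNReal) =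
      (fun q : ℝ × ℝ => ENNReal.ofReal ((q.2 ^ 2)⁻¹)) (Complex.measurableEquivRealProd z) := by
    intro z
    simp only [Complex.measurableEquivRealProd_apply]
    rw [ENNReal.ofReal]
    congr 1
    ext
    rw [Real.coe_toNNReal _ (by positivity)]
    simp
  simp_rw [hf]
  rw [Complex.volume_preserving_equiv_real_prod.setLIntegral_comp_preimage_emb
    Complex.measurableEquivRealProd.measurableEmbedding
    (fun q : ℝ × ℝ => ENNReal.ofReal ((q.2 ^ 2)⁻¹)), Measure.volume_eq_prod,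
    ← Measure.prod_restrict]
  have h1 := lintegral_prod_mul (μ := (volume : Measure ℝ).restrict (Set.Icc (-(1 / 2)) (1 / 2)))
    (ν := (volume : Measure ℝ).restrict (Set.Icc a b)) (f := fun _ => (1 : ENNReal))
    (g := fun y => ENNReal.ofReal ((y ^ 2)⁻¹)) (by fun_prop) (by fun_prop)
  simp only [one_mul] at h1
  rw [h1, setLIntegral_one, Real.volume_Icc]
  have h2 : (1 : ℝ) / 2 - -(1 / 2) = 1 := by norm_num
  rw [h2, ENNReal.ofReal_one, one_mul]
  have hcont : ContinuousOn (fun y : ℝ => (y ^ 2)⁻¹) (Set.Icc a b) := by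
    apply ContinuousOn.inv₀ (by fun_prop)
    intro y hy
    have : 0 < y := lt_of_lt_of_le ha0 hy.1
    positivity
  rw [← ofReal_integral_eq_lintegral_ofReal (hcont.integrableOn_Icc)
    (Filter.Eventually.of_forall fun y => by positivity), integral_Icc_eq_integral_Ioc,
    ← intervalIntegral.integral_of_le hab]
  apply ENNReal.ofReal_le_ofReal
  have h3 : ∫ y in a..b, (y ^ 2)⁻¹ = ∫ y in a..b, y ^ (-2 : ℤ) := by
    refine intervalIntegral.integral_congr fun y _ => ?_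
    rw [zpow_neg]
    norm_cast
  rw [h3, integral_zpow (Or.inr ⟨by norm_num, by
    rw [Set.uIcc_of_le hab]
    intro h
    exact absurd h.1 (not_le.2 ha0)⟩)]
  have h4 : Real.exp ρ = (Real.exp (-ρ))⁻¹ := by rw [Real.exp_neg, inv_inv]
  rw [h4, ha, hb]
  have h5 : (-2 : ℤ) + 1 = -1 := by norm_num
  rw [h5, zpow_neg_one, zpow_neg_one]
  apply le_of_eq
  push_cast
  field_simp
  norm_num

theorem area_bound {Γ : Subgroup SL(2, ℝ)} (hs : 2 ≤ sys Γ) {D : Set ℍ} (hD : MeasurableSet D)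
    (hΓ : ∀ z : ℍ, ∃ g ∈ Γ, g • z ∈ D) :
    ENNReal.ofReal (Real.exp (sys Γ / 2) / 4) ≤ volume D := by
  classical
  set ℓ := sys Γ with hℓ
  have hℓ0 : 0 < ℓ := by linarith
  set R := Rect (ℓ / 2) with hR
  have hRm : MeasurableSet R := rect_measurable _
  have hRb : ∀ z ∈ R, dist z UpperHalfPlane.I < ℓ / 2 := fun z hz => rect_ball (by linarith) hz
  have hneg : ∀ z : ℍ, (-1 : SL(2, ℝ)) • z = z := by
    intro z
    ext1
    simp [UpperHalfPlane.specialLinearGroup_apply]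
  -- the orbit of `I`
  set O : Set ℍ := {o | ∃ g ∈ Γ, g • UpperHalfPlane.I = o} with hO
  have hch : ∀ o : ℍ, ∃ g : SL(2, ℝ), o ∈ O → g ∈ Γ ∧ g • UpperHalfPlane.I = o := by
    intro o
    by_cases ho : o ∈ O
    · obtain ⟨g, hg, hgo⟩ := ho
      exact ⟨g, fun _ => ⟨hg, hgo⟩⟩
    · exact ⟨1, fun h => absurd h ho⟩
  choose c hc using hch
  have hsep : ∀ o ∈ O, ∀ o' ∈ O, o ≠ o' → ℓ ≤ dist o o' := by
    rintro _ ⟨g, hg, rfl⟩ _ ⟨g', hg', rfl⟩ hne
    have h1 : g⁻¹ * g' ≠ 1 := by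
      intro h
      apply hne
      rw [inv_mul_eq_one.1 h]
    have h2 : g⁻¹ * g' ≠ -1 := by
      intro h
      apply hne
      have h3 : g' = g * (-1) := by rw [← h, mul_inv_cancel_left]
      rw [h3, mul_smul, hneg]
    have h3 := sys_le (Γ := Γ) (Γ.mul_mem (Γ.inv_mem hg) hg') h1 h2 UpperHalfPlane.I
    rw [mul_smul, ← dist_smul g UpperHalfPlane.I, smul_inv_smul] at h3
    exact h3
  have hdisj : O.PairwiseDisjoint fun o => Metric.ball o (ℓ / 2) := by
    intro o ho o' ho' hne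
    exact Metric.ball_disjoint_ball (by rw [add_halves]; exact hsep o ho o' ho' hne)
  have hcount : O.Countable :=
    hdisj.countable_of_isOpen (fun _ _ => Metric.isOpen_ball)
      fun o _ => ⟨o, Metric.mem_ball_self (by linarith)⟩
  have hfix : ∀ g ∈ Γ, ∀ z : ℍ, c (g • UpperHalfPlane.I) • z = g • z := by
    intro g hg z
    have hgO : g • UpperHalfPlane.I ∈ O := ⟨g, hg, rfl⟩
    obtain ⟨h1, h2⟩ := hc _ hgO
    set k := c (g • UpperHalfPlane.I) with hk
    by_cases h3 : g⁻¹ * k = 1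
    · rw [← inv_mul_eq_one.1 h3]
    by_cases h4 : g⁻¹ * k = -1
    · have h5 : k = g * (-1) := by rw [← h4, mul_inv_cancel_left]
      rw [h5, mul_smul, hneg]
    · have h5 := sys_le (Γ := Γ) (Γ.mul_mem (Γ.inv_mem hg) h1) h3 h4 UpperHalfPlane.I
      rw [mul_smul, h2, inv_smul_smul, dist_self] at h5
      linarith
  have hcov : R ⊆ ⋃ o ∈ O, (R ∩ {z | c o • z ∈ D}) := by
    intro z hz
    obtain ⟨g, hg, hgz⟩ := hΓ z
    refine Set.mem_iUnion₂.2 ⟨g • UpperHalfPlane.I, ⟨g, hg, rfl⟩, hz, ?_⟩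
    show c (g • UpperHalfPlane.I) • z ∈ D
    rw [hfix g hg]
    exact hgz
  have hmeas : ∀ g : SL(2, ℝ), Measurable fun z : ℍ => g • z := fun g =>
    (isometry_smul ℍ g).continuous.measurable
  have hinv : ∀ (g : SL(2, ℝ)) (s : Set ℍ), volume ((fun z : ℍ => g • z) ⁻¹' s) = volume s := by
    intro g s
    exact measure_preimage_smul (volume : Measure ℍ) (g : GL (Fin 2) ℝ) s
  set A : ℍ → Set ℍ := fun o => D ∩ {w | (c o)⁻¹ • w ∈ R} with hA
  have hAm : ∀ o ∈ O, MeasurableSet (A o) := fun o _ => hD.inter (hmeas _ hRm)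
  have hAd : O.PairwiseDisjoint A := by
    refine hdisj.mono_on ?_
    intro o ho w hw
    have h1 := hRb _ hw.2
    rw [← dist_smul (c o), smul_inv_smul, (hc o ho).2] at h1
    exact h1
  have heq : ∀ o, volume (R ∩ {z | c o • z ∈ D}) = volume (A o) := by
    intro o
    rw [← hinv (c o) (A o)]
    congr 1
    ext z
    simp only [hA, Set.mem_inter_iff, Set.mem_ofPred_eq, Set.mem_preimage, inv_smul_smul]
    exact and_comm
  calc ENNReal.ofReal (Real.exp (ℓ / 2) / 4) ≤ volume R := rect_volume _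
    _ ≤ volume (⋃ o ∈ O, (R ∩ {z | c o • z ∈ D})) := measure_mono hcov
    _ ≤ ∑' o : O, volume (R ∩ {z | c o • z ∈ D}) := measure_biUnion_le _ hcount _
    _ = ∑' o : O, volume (A o) := tsum_congr fun o => heq o
    _ = volume (⋃ o ∈ O, A o) := (measure_biUnion hcount hAd hAm).symm
    _ ≤ volume D := measure_mono (Set.iUnion₂_subset fun o _ => Set.inter_subset_left)

end Pool.Agent.Helper48.QH
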