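import Pool.Agent.Helper48.QH.Core

/-!
# QH, block D2: forms which are small at a point of a small square

A form is a triple `B = (α, β, γ)` with `α^2 + β γ = 1`; `ev B x y = γ (x^2 + y^2) - 2 α x - β`; `ip B B' = α α' + (β γ' + γ β') / 2`.

PROOF. Identity: `(γ x - α)^2 + γ^2 y^2 = 1 + γ * ev B x y`.
`bounds`: with `|ev| ≤ η/10 ≤ 1/1000`: `γ^2 ≤ γ^2 y^2 ≤ 1 + |γ|/1000`, so `|γ| ≤ 1.01`; `(γ x - α)^2 ≤ 1.002`, so `|α| ≤ 1.11`; and `β - γ = γ (x^2 + y^2 - 1) - 2 α x - ev`, where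
`0 ≤ x^2 + y^2 - 1 ≤ 2.02 η`, so `|β - γ| ≤ 1.01 * 2.02 η + 2.22 η + 0.1 η ≤ 5 η`. From `α^2 + γ^2 = 1 + γ (γ - β) ≥ 1 - 1.01 * 5 η ≥ 0.94` one of `|α|`, `|γ|` is `≥ 0.68`.
`close_alpha` (`α, α' ≥ 0.68`, `|γ - γ'| ≤ η`): `α^2 - α'^2 = β' γ' - β γ = (γ'^2 - γ^2) + (β' - γ') γ' - (β - γ) γ`, so `|α^2 - α'^2| ≤ 2.02 η + 10.1 η`, and
`|α - α'| ≤ 12.2 η / 1.36 ≤ 9 η`; `|β - β'| ≤ 11 η`. `1 - ip B B' = ((α - α')^2 + (β - β')(γ - γ')) / 2` (because `α^2 + β γ = α'^2 + β' γ' = 1`), so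
`|1 - ip B B'| ≤ (81 + 11) η^2 / 2 = 46 η^2`.
`close_gamma` (`γ, γ' ≥ 0.68`, `|α - α'| ≤ η`): `γ^2 - γ'^2 = α'^2 - α^2 - (β - γ) γ + (β' - γ') γ'`, `|γ^2 - γ'^2| ≤ 2.22 η + 10.1 η`, `|γ - γ'| ≤ 9.2 η`, `|β - β'| ≤ 19.2 η`,
`|1 - ip B B'| ≤ (1 + 9.2 * 19.2) η^2 / 2 ≤ 90 η^2`.
`row_or_col`: `B` small at one point of the square. If `|γ| ≥ 1/4` then for all `x, y₁, y₂` with `y₁, y₂ ≥ 1`:
`|ev B x y₁ - ev B x y₂| = |γ| |y₁ - y₂| (y₁ + y₂) ≥ |y₁ - y₂| / 2`. If `|γ| < 1/4`: at the given point `(γ x - α)^2 ≥ 1 - 0.00025 - (1.01)^2/16 ≥ 0.93`, `|γ x - α| ≥ 0.96`, so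
for `x₁, x₂ ∈ [0, 1/100]` both `γ xᵢ - α` have the same sign and absolute value `≥ 0.95`, and
`|ev B x₁ y - ev B x₂ y| = |x₁ - x₂| |(γ x₁ - α) + (γ x₂ - α)| ≥ 1.9 |x₁ - x₂|`.
-/

set_option autoImplicit false

noncomputable section

namespace Pool.Agent.Helper48.QH

/-- value of a form -/
def ev (B : ℝ × ℝ × ℝ) (x y : ℝ) : ℝ := B.2.2 * (x ^ 2 + y ^ 2) - 2 * B.1 * x - B.2.1

/-- inner product of forms -/
def ip (B B' : ℝ × ℝ × ℝ) : ℝ := B.1 * B'.1 + (B.2.1 * B'.2.2 + B.2.2 * B'.2.1) / 2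

/-- `B` is normalised -/
def Nrm (B : ℝ × ℝ × ℝ) : Prop := B.1 ^ 2 + B.2.1 * B.2.2 = 1

/-- `B` is small at some point of the square of side `η` -/
def Sm (η : ℝ) (B : ℝ × ℝ × ℝ) : Prop :=
  ∃ x y : ℝ, 0 ≤ x ∧ x ≤ η ∧ 1 ≤ y ∧ y ≤ 1 + η ∧ |ev B x y| ≤ η / 10

/-- the identity behind everything -/
private theorem ident67 (a b g x y : ℝ) (h : a ^ 2 + b * g = 1) :
    (g * x - a) ^ 2 + g ^ 2 * y ^ 2 = 1 + g * (g * (x ^ 2 + y ^ 2) - 2 * a * x - b) := by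
  linear_combination h

private theorem bnd67 {η a b g x y : ℝ} (h0 : 0 < η) (h1 : η ≤ 1 / 100) (h : a ^ 2 + b * g = 1)
    (hx0 : 0 ≤ x) (hx1 : x ≤ η) (hy0 : 1 ≤ y) (hy1 : y ≤ 1 + η)
    (he : |g * (x ^ 2 + y ^ 2) - 2 * a * x - b| ≤ η / 10) :
    |g| ≤ 1.01 ∧ |a| ≤ 1.11 ∧ |b - g| ≤ 5 * η ∧ (0.68 ≤ |a| ∨ 0.68 ≤ |g|) ∧
      (g * x - a) ^ 2 + g ^ 2 * y ^ 2 ≥ 1 - |g| / 1000 := by
  have hid := ident67 a b g x y h
  obtain ⟨e, hee⟩ : ∃ e, e = g * (x ^ 2 + y ^ 2) - 2 * a * x - b := ⟨_, rfl⟩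
  rw [← hee] at hid he
  have he2 : |e| ≤ 1 / 1000 := by linarith
  have hge : |g * e| ≤ |g| / 1000 := by
    rw [abs_mul]
    have := mul_le_mul_of_nonneg_left he2 (abs_nonneg g)
    linarith
  have hge' := abs_le.1 hge
  have hgg : |g| ^ 2 = g ^ 2 := sq_abs g
  have hgn := abs_nonneg g
  have hy2 : 1 ≤ y ^ 2 := by nlinarith
  have hg1 : g ^ 2 ≤ 1 + |g| / 1000 := by
    have h2 : g ^ 2 * 1 ≤ g ^ 2 * y ^ 2 := mul_le_mul_of_nonneg_left hy2 (sq_nonneg g)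
    nlinarith [sq_nonneg (g * x - a)]
  have hg : |g| ≤ 1.01 := by
    by_contra hcon
    rw [not_le] at hcon
    nlinarith
  have hga : (g * x - a) ^ 2 ≤ 1.001 ^ 2 := by
    have h2 : 0 ≤ g ^ 2 * y ^ 2 := by positivity
    nlinarith
  have hga2 : |g * x - a| ≤ 1.001 := abs_le_of_sq_le_sq hga (by norm_num)
  have hgx : |g * x| ≤ 1.01 * η := by
    rw [abs_mul, abs_of_nonneg hx0]
    exact mul_le_mul hg hx1 hx0 (by norm_num)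
  have ha : |a| ≤ 1.11 := by
    have h2 : |a| ≤ |g * x| + |g * x - a| := by
      have := abs_sub (g * x) (g * x - a)
      rw [sub_sub_cancel] at this
      exact this
    linarith
  have hr0 : 0 ≤ x ^ 2 + y ^ 2 - 1 := by nlinarith [sq_nonneg x]
  have hr1 : x ^ 2 + y ^ 2 - 1 ≤ 2.02 * η := by nlinarith
  have hbg : |b - g| ≤ 5 * η := by
    have h2 : b - g = g * (x ^ 2 + y ^ 2 - 1) - 2 * a * x - e := by rw [hee]; ring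
    have h3 : |g * (x ^ 2 + y ^ 2 - 1)| ≤ 1.01 * (2.02 * η) := by
      rw [abs_mul, abs_of_nonneg hr0]
      exact mul_le_mul hg hr1 hr0 (by norm_num)
    have h4 : |2 * a * x| ≤ 2.22 * η := by
      rw [abs_mul, abs_mul, abs_of_nonneg hx0, abs_two]
      exact mul_le_mul (by linarith) hx1 hx0 (by norm_num)
    have h3' := abs_le.1 h3
    have h4' := abs_le.1 h4
    have h5' := abs_le.1 he
    rw [h2, abs_le]
    constructor <;> linarith [h3'.1, h3'.2, h4'.1, h4'.2, h5'.1, h5'.2]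
  refine ⟨hg, ha, hbg, ?_, ?_⟩
  · by_contra hcon
    rw [not_or, not_le, not_le] at hcon
    have h2 : a ^ 2 + g ^ 2 = 1 + g * (g - b) := by linear_combination h
    have h3 : |g * (g - b)| ≤ 1.01 * (5 * η) := by
      rw [abs_mul, abs_sub_comm]
      exact mul_le_mul hg hbg (abs_nonneg _) (by norm_num)
    have h3' := abs_le.1 h3
    have h4 : |a| ^ 2 = a ^ 2 := sq_abs a
    have h5 : |a| ^ 2 ≤ 0.68 ^ 2 := by
      have := abs_nonneg a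
      nlinarith [hcon.1]
    have h6 : |g| ^ 2 ≤ 0.68 ^ 2 := by
      nlinarith [hcon.2]
    nlinarith [h3'.1]
  · rw [hid]
    linarith [hge'.1]

private theorem ev_def67 (B : ℝ × ℝ × ℝ) (x y : ℝ) :
    ev B x y = B.2.2 * (x ^ 2 + y ^ 2) - 2 * B.1 * x - B.2.1 := rfl

private theorem prod67 {u v c d : ℝ} (hc : 0 ≤ c) (hu : |u| ≤ c) (hv : |v| ≤ d) : |u * v| ≤ c * d := by
  rw [abs_mul]
  exact mul_le_mul hu hv (abs_nonneg _) hc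

theorem bounds {η : ℝ} (h0 : 0 < η) (h1 : η ≤ 1 / 100) {B : ℝ × ℝ × ℝ} (hB : Nrm B) (hs : Sm η B) :
    |B.2.2| ≤ 1.01 ∧ |B.1| ≤ 1.11 ∧ |B.2.1 - B.2.2| ≤ 5 * η ∧ (0.68 ≤ |B.1| ∨ 0.68 ≤ |B.2.2|) := by
  obtain ⟨x, y, hx0, hx1, hy0, hy1, he⟩ := hs
  obtain ⟨h2, h3, h4, h5, -⟩ := bnd67 h0 h1 hB hx0 hx1 hy0 hy1 he
  exact ⟨h2, h3, h4, h5⟩

theorem close_alpha {η : ℝ} (h0 : 0 < η) (h1 : η ≤ 1 / 100) {B B' : ℝ × ℝ × ℝ} (hB : Nrm B)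
    (hs : Sm η B) (hB' : Nrm B') (hs' : Sm η B') (ha : 0.68 ≤ B.1) (ha' : 0.68 ≤ B'.1)
    (hg : |B.2.2 - B'.2.2| ≤ η) : |1 - ip B B'| ≤ 90 * η ^ 2 := by
  obtain ⟨g1, a1, b1, -⟩ := bounds h0 h1 hB hs
  obtain ⟨g2, a2, b2, -⟩ := bounds h0 h1 hB' hs'
  have hB1 : B.1 ^ 2 + B.2.1 * B.2.2 = 1 := hB
  have hB2 : B'.1 ^ 2 + B'.2.1 * B'.2.2 = 1 := hB'
  have hgg : |B'.2.2 + B.2.2| ≤ 2.02 := (abs_add_le _ _).trans (by linarith)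
  have e1 := abs_le.1 (prod67 (by positivity) hg hgg)
  have e2 := abs_le.1 (prod67 (by positivity) b1 g1)
  have e3 := abs_le.1 (prod67 (by positivity) b2 g2)
  have hsq : |(B.1 - B'.1) * (B.1 + B'.1)| ≤ 12.12 * η := by
    have h2 : (B.1 - B'.1) * (B.1 + B'.1) = -((B.2.2 - B'.2.2) * (B'.2.2 + B.2.2)) -
        (B.2.1 - B.2.2) * B.2.2 + (B'.2.1 - B'.2.2) * B'.2.2 := by
      linear_combination hB1 - hB2
    rw [h2, abs_le]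
    constructor <;> linarith [e1.1, e1.2, e2.1, e2.2, e3.1, e3.2]
  have hda : |B.1 - B'.1| ≤ 9 * η := by
    rw [abs_mul, abs_of_nonneg (by linarith : 0 ≤ B.1 + B'.1)] at hsq
    have h3 := mul_le_mul_of_nonneg_left (by linarith : (1.36 : ℝ) ≤ B.1 + B'.1)
      (abs_nonneg (B.1 - B'.1))
    linarith
  have hdb : |B.2.1 - B'.2.1| ≤ 11 * η := by
    have f1 := abs_le.1 b1
    have f2 := abs_le.1 b2
    have f3 := abs_le.1 hg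
    rw [abs_le]
    constructor <;> linarith [f1.1, f1.2, f2.1, f2.2, f3.1, f3.2]
  have h4 := abs_le.1 (prod67 (by positivity) hda hda)
  have h5 := abs_le.1 (prod67 (by positivity) hdb hg)
  have h6 : 1 - ip B B' = ((B.1 - B'.1) * (B.1 - B'.1) + (B.2.1 - B'.2.1) * (B.2.2 - B'.2.2)) / 2 := by
    unfold ip
    linear_combination (-1 / 2) * hB1 + (-1 / 2) * hB2
  rw [h6, abs_le]
  constructor <;> nlinarith [h4.1, h4.2, h5.1, h5.2, sq_nonneg η]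

theorem close_gamma {η : ℝ} (h0 : 0 < η) (h1 : η ≤ 1 / 100) {B B' : ℝ × ℝ × ℝ} (hB : Nrm B)
    (hs : Sm η B) (hB' : Nrm B') (hs' : Sm η B') (ha : 0.68 ≤ B.2.2) (ha' : 0.68 ≤ B'.2.2)
    (hg : |B.1 - B'.1| ≤ η) : |1 - ip B B'| ≤ 90 * η ^ 2 := by
  obtain ⟨g1, a1, b1, -⟩ := bounds h0 h1 hB hs
  obtain ⟨g2, a2, b2, -⟩ := bounds h0 h1 hB' hs'
  have hB1 : B.1 ^ 2 + B.2.1 * B.2.2 = 1 := hB
  have hB2 : B'.1 ^ 2 + B'.2.1 * B'.2.2 = 1 := hB'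
  have hgg : |B'.1 + B.1| ≤ 2.22 := (abs_add_le _ _).trans (by linarith)
  have e1 := abs_le.1 (prod67 (by positivity) hg hgg)
  have e2 := abs_le.1 (prod67 (by positivity) b1 g1)
  have e3 := abs_le.1 (prod67 (by positivity) b2 g2)
  have hsq : |(B.2.2 - B'.2.2) * (B.2.2 + B'.2.2)| ≤ 12.32 * η := by
    have h2 : (B.2.2 - B'.2.2) * (B.2.2 + B'.2.2) = -((B.1 - B'.1) * (B'.1 + B.1)) -
        (B.2.1 - B.2.2) * B.2.2 + (B'.2.1 - B'.2.2) * B'.2.2 := by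
      linear_combination hB1 - hB2
    rw [h2, abs_le]
    constructor <;> linarith [e1.1, e1.2, e2.1, e2.2, e3.1, e3.2]
  have hda : |B.2.2 - B'.2.2| ≤ 9.2 * η := by
    rw [abs_mul, abs_of_nonneg (by linarith : 0 ≤ B.2.2 + B'.2.2)] at hsq
    have h3 := mul_le_mul_of_nonneg_left (by linarith : (1.36 : ℝ) ≤ B.2.2 + B'.2.2)
      (abs_nonneg (B.2.2 - B'.2.2))
    linarith
  have hdb : |B.2.1 - B'.2.1| ≤ 19.2 * η := by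
    have f1 := abs_le.1 b1
    have f2 := abs_le.1 b2
    have f3 := abs_le.1 hda
    rw [abs_le]
    constructor <;> linarith [f1.1, f1.2, f2.1, f2.2, f3.1, f3.2]
  have h4 := abs_le.1 (prod67 (by positivity) hg hg)
  have h5 := abs_le.1 (prod67 (by positivity) hdb hda)
  have h6 : 1 - ip B B' = ((B.1 - B'.1) * (B.1 - B'.1) + (B.2.1 - B'.2.1) * (B.2.2 - B'.2.2)) / 2 := by
    unfold ip
    linear_combination (-1 / 2) * hB1 + (-1 / 2) * hB2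
  rw [h6, abs_le]
  constructor <;> nlinarith [h4.1, h4.2, h5.1, h5.2, sq_nonneg η]

theorem row_or_col {η : ℝ} (h0 : 0 < η) (h1 : η ≤ 1 / 100) {B : ℝ × ℝ × ℝ} (hB : Nrm B)
    (hs : Sm η B) :
    (∀ x y₁ y₂ : ℝ, 1 ≤ y₁ → 1 ≤ y₂ → |y₁ - y₂| / 2 ≤ |ev B x y₁ - ev B x y₂|) ∨
    (∀ x₁ x₂ y : ℝ, 0 ≤ x₁ → x₁ ≤ η → 0 ≤ x₂ → x₂ ≤ η → |x₁ - x₂| / 2 ≤ |ev B x₁ y - ev B x₂ y|) := by
  obtain ⟨x, y, hx0, hx1, hy0, hy1, he⟩ := hs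
  obtain ⟨h2, h3, h4, -, h5⟩ := bnd67 h0 h1 hB hx0 hx1 hy0 hy1 he
  by_cases hg : 1 / 4 ≤ |B.2.2|
  · left
    intro u y₁ y₂ h6 h7
    have h8 : ev B u y₁ - ev B u y₂ = B.2.2 * ((y₁ - y₂) * (y₁ + y₂)) := by
      rw [ev_def67, ev_def67]
      ring
    rw [h8, abs_mul, abs_mul, abs_of_nonneg (by linarith : 0 ≤ y₁ + y₂)]
    have h9 : |y₁ - y₂| * 2 ≤ |y₁ - y₂| * (y₁ + y₂) :=
      mul_le_mul_of_nonneg_left (by linarith) (abs_nonneg _)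
    have h10 : 1 / 4 * (|y₁ - y₂| * (y₁ + y₂)) ≤ |B.2.2| * (|y₁ - y₂| * (y₁ + y₂)) :=
      mul_le_mul_of_nonneg_right hg (mul_nonneg (abs_nonneg _) (by linarith))
    linarith
  · right
    rw [not_le] at hg
    intro x₁ x₂ v h6 h7 h8 h9
    have h10 : ev B x₁ v - ev B x₂ v = (x₁ - x₂) * (B.2.2 * (x₁ + x₂) - 2 * B.1) := by
      rw [ev_def67, ev_def67]
      ring
    have hgg : |B.2.2| ^ 2 = B.2.2 ^ 2 := sq_abs _
    have hgn := abs_nonneg B.2.2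
    have hg2 : B.2.2 ^ 2 ≤ 1 / 16 := by
      rw [← hgg]
      nlinarith
    have hy2 : y ^ 2 ≤ 1.0201 := by nlinarith
    have hgy : B.2.2 ^ 2 * y ^ 2 ≤ 1 / 16 * 1.0201 :=
      mul_le_mul hg2 hy2 (sq_nonneg y) (by norm_num)
    have h11 : 0.96 ^ 2 ≤ (B.2.2 * x - B.1) ^ 2 := by nlinarith
    have h12 : 0.96 ≤ |B.2.2 * x - B.1| := by
      rw [← abs_of_nonneg (by norm_num : (0 : ℝ) ≤ 0.96)]
      exact sq_le_sq.1 h11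
    have h13 : |B.2.2 * (x₁ + x₂ - 2 * x)| ≤ 1 / 4 * 0.02 :=
      prod67 (by norm_num) hg.le (abs_le.2 ⟨by linarith, by linarith⟩)
    have h13' := abs_le.1 h13
    have h14 : 1.9 ≤ |B.2.2 * (x₁ + x₂) - 2 * B.1| := by
      have h15 : B.2.2 * (x₁ + x₂) - 2 * B.1 =
          2 * (B.2.2 * x - B.1) + B.2.2 * (x₁ + x₂ - 2 * x) := by ring
      rw [h15]
      rcases le_abs.1 h12 with h | h
      · exact le_abs.2 (Or.inl (by linarith [h13'.1]))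
      · exact le_abs.2 (Or.inr (by linarith [h13'.2]))
    rw [h10, abs_mul]
    have h16 := mul_le_mul_of_nonneg_left h14 (abs_nonneg (x₁ - x₂))
    have h17 := abs_nonneg (x₁ - x₂)
    linarith

end Pool.Agent.Helper48.QH
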