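import Mathlib

/-!
# Project QH (MP_fc1578_an): core definitions

`DE v U A` : the Dirichlet energy of `v` on `U` is at most `A`, in the dual form
(the supremum over smooth compactly supported fields `p` in `U` of
`-2 ∫ v div p - ∫ |p|^2`).
`IsQC K f` : quasi-invariance of the Dirichlet energy.
-/

open MeasureTheory UpperHalfPlane
open scoped ContDiff MatrixGroups

noncomputable section

namespace Pool.Agent.Helper48.QH

/-- divergence of a planar vector field -/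
def dvg (p : ℂ → ℂ) (z : ℂ) : ℝ := (fderiv ℝ p z 1).re + (fderiv ℝ p z Complex.I).im

/-- the Dirichlet energy of `v` on `U` is at most `A`, in the dual form -/
def DE (v : ℂ → ℝ) (U : Set ℂ) (A : ℝ) : Prop :=
  ∀ p : ℂ → ℂ, ContDiff ℝ ∞ p → HasCompactSupport p → tsupport p ⊆ U →
    -2 * (∫ z, v z * dvg p z) - (∫ z, ‖p z‖ ^ 2) ≤ A

/-- `f` is `K`-quasiconformal (quasi-invariance of the Dirichlet energy) -/
def IsQC (K : ℝ) (f : ℍ ≃ₜ ℍ) : Prop :=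
  ∀ (U : Set ℂ) (u : ℂ → ℝ) (p : ℂ → ℂ), IsOpen U → U ⊆ {z | 0 < z.im} →
    ContDiffOn ℝ ∞ u {z | 0 < z.im} →
    ContDiff ℝ ∞ p → HasCompactSupport p → tsupport p ⊆ U →
    ENNReal.ofReal (-2 * (∫ z, u ((f (ofComplex z) : ℍ) : ℂ) * dvg p z) - ∫ z, ‖p z‖ ^ 2) ≤
      ENNReal.ofReal K *
        ∫⁻ w in {w : ℂ | ∃ z : ℍ, (z : ℂ) ∈ U ∧ ((f z : ℍ) : ℂ) = w},
          ENNReal.ofReal (‖fderiv ℝ u w‖ ^ 2)

/-- the systole: infimum of the displacements of the elements of `Γ` other than `1` and `-1` -/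
def sys (Γ : Subgroup SL(2, ℝ)) : ℝ :=
  sInf {d | ∃ g ∈ Γ, g ≠ 1 ∧ g ≠ -1 ∧ ∃ z : ℍ, d = dist z (g • z)}

/-- `ℍ/Γ` is `K`-quasiconformally homogeneous -/
def Homog (K : ℝ) (Γ : Subgroup SL(2, ℝ)) : Prop :=
  ∀ x y : ℍ, ∃ f : ℍ ≃ₜ ℍ, IsQC K f ∧
    (∀ g ∈ Γ, ∃ g' ∈ Γ, ∀ z, f (g • z) = g' • f z) ∧
    (∀ g' ∈ Γ, ∃ g ∈ Γ, ∀ z, f (g • z) = g' • f z) ∧ f x = y

/-- the open strip of height `π` -/
def Strip : Set ℂ := {w | 0 < w.im ∧ w.im < Real.pi}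

/-- a homeomorphism `F` of the strip onto itself, inverse `G`, with `F (w + a) = F w + b` -/
structure StripMap (a b : ℝ) (F G : ℂ → ℂ) : Prop where
  apos : 0 < a
  bpos : 0 < b
  contF : ContinuousOn F Strip
  contG : ContinuousOn G Strip
  mapsF : ∀ w ∈ Strip, F w ∈ Strip
  mapsG : ∀ w ∈ Strip, G w ∈ Strip
  GF : ∀ w ∈ Strip, G (F w) = w
  FG : ∀ w ∈ Strip, F (G w) = w
  per : ∀ w ∈ Strip, F (w + a) = F w + b

/-- energy hypothesis on a real function `v` attached to `F` -/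
def StripEn (K : ℝ) (F : ℂ → ℂ) (v : ℂ → ℝ) : Prop :=
  ∀ U : Set ℂ, IsOpen U → U ⊆ Strip → ∀ A : ℝ, 0 ≤ A →
    volume (F '' U) ≤ ENNReal.ofReal A → DE v U (K * A)

/-- convolution with `ρ` -/
def mol (ρ v : ℂ → ℝ) (z : ℂ) : ℝ := ∫ w, ρ (z - w) * v w

/-- `ρ` is a smooth nonnegative bump of integral one supported in the closed ball of radius `r` -/
structure Bump (r : ℝ) (ρ : ℂ → ℝ) : Prop where
  rpos : 0 < r
  smooth : ContDiff ℝ ∞ ρ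
  nonneg : ∀ z, 0 ≤ ρ z
  supp : ∀ z, r < ‖z‖ → ρ z = 0
  int_one : ∫ z, ρ z = 1

/-- conformal equivalence between open sets -/
structure Conf (φ ψ : ℂ → ℂ) (Ω V : Set ℂ) : Prop where
  openΩ : IsOpen Ω
  openV : IsOpen V
  diffφ : DifferentiableOn ℂ φ Ω
  diffψ : DifferentiableOn ℂ ψ V
  mapsφ : ∀ z ∈ Ω, φ z ∈ V
  mapsψ : ∀ w ∈ V, ψ w ∈ Ω
  ψφ : ∀ z ∈ Ω, ψ (φ z) = z
  φψ : ∀ w ∈ V, φ (ψ w) = w

open Classical in
/-- pull-back of a vector field by a conformal map -/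
def pull (φ : ℂ → ℂ) (Ω : Set ℂ) (q : ℂ → ℂ) (z : ℂ) : ℂ :=
  if z ∈ Ω then q (φ z) * (starRingEnd ℂ) (deriv φ z) else 0

/-- the form `Q_A(z)` -/
def Qf (A : SL(2, ℝ)) (z : ℍ) : ℝ :=
  (A 1 0 * (z.re ^ 2 + z.im ^ 2) + (A 1 1 - A 0 0) * z.re - A 0 1) / z.im

/-- trace -/
def tr (A : SL(2, ℝ)) : ℝ := A 0 0 + A 1 1

/-- the chart `log (M z)` -/
def chart (M : SL(2, ℝ)) (z : ℂ) : ℂ := Complex.log ((M • ofComplex z : ℍ) : ℂ)

/-- inverse of the chart -/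
def chartInv (M : SL(2, ℝ)) (w : ℂ) : ℂ := ((M⁻¹ • ofComplex (Complex.exp w) : ℍ) : ℂ)

end Pool.Agent.Helper48.QH
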