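import Pool.Agent.Helper48.QH.Core
import Pool.Agent.Helper48.QH.Cells

/-!
# QH, block D3: a family of separated forms leaves a point of the square uncovered

PROOF. Let `η = 1/(100 √c) ≤ 1/100`, `η^2 = 10⁻⁴/c`, `n` a natural number with `5/η + 1 < n ≤ 5/η + 3 ≤ 6/η` (`η ≤ 1/100`, so `3 ≤ 0.03/η`), `σ = η / n ≥ η^2/6 = 10⁻⁴/(6 c)`,
`ε = 4 · 10⁻⁶ / c`; so `4 ε < σ` and `ε ≤ η / 10` (`η/10 = 10⁻³/√c ≥ 10⁻³/c`). Suppose every grid point `(j σ, 1 + k σ)`, `0 ≤ j, k < n`, has a `B_{jk} ∈ 𝓑` with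
`|ev B_{jk}| ≤ ε` there. Each `B_{jk}` is normalised and `Sm η`. By `bounds` choose a sign `B̃ = ± B_{jk}` with `B̃.1 ≥ 0.68` (kind 0) or, if that is impossible,
`B̃.2.2 ≥ 0.68` (kind 1), and the cell `(0, ⌊B̃.2.2/η⌋)` or `(1, ⌊B̃.1/η⌋)`. (`Nrm`, `Sm`, are invariant under `B → -B`, `ev (-B) = - ev B`, `ip` is bilinear.)
The cells lie in a finite set of cardinality at most `(2.02/η + 2) + (2.22/η + 2) ≤ 5/η < n`
(`⌊t/η⌋` with `|t| ≤ 1.01`: integers in an interval `[⌊-1.01/η⌋, ⌊1.01/η⌋]`, `Int.card_Icc`).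
Two grid points in the same cell: `|1 - ip B̃ B̃'| ≤ 90 η^2 = 0.009/c < 1/(6 c)`, so `hsep` gives `B_{j'k'} = ± B_{jk}` (the other two alternatives contradict
`||ip B B'| - 1| < 1/(6c)`). So the grid points of one cell are all covered by `± B`, one form `B`. By `row_or_col`, with `|ev| ≤ ε` at all of them: in the first case two of them in
the same column `x` would have `σ/2 ≤ |y₁ - y₂|/2 ≤ 2 ε`, a contradiction, so at most `n` of them (injective `(j, k) ↦ j`); in the second case the same with rows. So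
`n^2 ≤ (number of cells) * n < n^2` (`Finset.exists_lt_card_fiber_of_mul_lt_card_of_maps_to` or `Finset.card_le_mul_card_image`), contradiction.
-/

set_option autoImplicit false

noncomputable section

namespace Pool.Agent.Helper48.QH

private theorem ev_neg50 (B : ℝ × ℝ × ℝ) (x y : ℝ) : ev (-B) x y = -ev B x y := by
  simp only [ev, Prod.fst_neg, Prod.snd_neg]
  ring

private theorem nrm_neg50 {B : ℝ × ℝ × ℝ} (h : Nrm B) : Nrm (-B) := by
  unfold Nrm at h ⊢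
  simp only [Prod.fst_neg, Prod.snd_neg]
  linear_combination h

private theorem sm_neg50 {η : ℝ} {B : ℝ × ℝ × ℝ} (h : Sm η B) : Sm η (-B) := by
  obtain ⟨x, y, h1, h2, h3, h4, h5⟩ := h
  exact ⟨x, y, h1, h2, h3, h4, by rw [ev_neg50, abs_neg]; exact h5⟩

private theorem ip_neg_left50 (B B' : ℝ × ℝ × ℝ) : ip (-B) B' = -ip B B' := by
  simp only [ip, Prod.fst_neg, Prod.snd_neg]
  ring

private theorem ip_neg_right50 (B B' : ℝ × ℝ × ℝ) : ip B (-B') = -ip B B' := by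
  simp only [ip, Prod.fst_neg, Prod.snd_neg]
  ring

/-- the cell `c` of the form `B` -/
private def Cell50 (η : ℝ) (B : ℝ × ℝ × ℝ) (c : Bool × ℤ) : Prop :=
  ∃ B' : ℝ × ℝ × ℝ, (B' = B ∨ B' = -B) ∧
    ((c.1 = true ∧ 0.68 ≤ B'.1 ∧ ⌊B'.2.2 / η⌋ = c.2) ∨
      (c.1 = false ∧ 0.68 ≤ B'.2.2 ∧ ⌊B'.1 / η⌋ = c.2))

private theorem floor_mem50 {η t : ℝ} (h0 : 0 < η) (ht : |t| ≤ 1.11) :
    ⌊t / η⌋ ∈ Finset.Icc ⌊-(1.11 / η)⌋ ⌊1.11 / η⌋ := by
  rw [abs_le] at ht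
  rw [Finset.mem_Icc]
  constructor
  · apply Int.floor_le_floor
    rw [← neg_div]
    exact div_le_div_of_nonneg_right ht.1 h0.le
  · apply Int.floor_le_floor
    exact div_le_div_of_nonneg_right ht.2 h0.le

private theorem cell_exists50 {η : ℝ} (h0 : 0 < η) (h1 : η ≤ 1 / 100) {B : ℝ × ℝ × ℝ} (hB : Nrm B)
    (hs : Sm η B) : ∃ c ∈ (Finset.univ : Finset Bool) ×ˢ Finset.Icc ⌊-(1.11 / η)⌋ ⌊1.11 / η⌋,
      Cell50 η B c := by
  obtain ⟨b1, b2, -, b4⟩ := bounds h0 h1 hB hs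
  have b1' : |B.2.2| ≤ 1.11 := b1.trans (by norm_num)
  rcases b4 with h | h
  · rcases le_abs.1 h with h | h
    · refine ⟨(true, ⌊B.2.2 / η⌋), ?_, B, Or.inl rfl, Or.inl ⟨rfl, h, rfl⟩⟩
      rw [Finset.mem_product]
      exact ⟨Finset.mem_univ _, floor_mem50 h0 b1'⟩
    · refine ⟨(true, ⌊(-B).2.2 / η⌋), ?_, -B, Or.inr rfl, Or.inl ⟨rfl, by
        rw [Prod.fst_neg]; exact h, rfl⟩⟩
      rw [Finset.mem_product]
      refine ⟨Finset.mem_univ _, floor_mem50 h0 ?_⟩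
      rw [Prod.snd_neg, Prod.snd_neg, abs_neg]
      exact b1'
  · rcases le_abs.1 h with h | h
    · refine ⟨(false, ⌊B.1 / η⌋), ?_, B, Or.inl rfl, Or.inr ⟨rfl, h, rfl⟩⟩
      rw [Finset.mem_product]
      exact ⟨Finset.mem_univ _, floor_mem50 h0 b2⟩
    · refine ⟨(false, ⌊(-B).1 / η⌋), ?_, -B, Or.inr rfl, Or.inr ⟨rfl, by
        rw [Prod.snd_neg, Prod.snd_neg]; exact h, rfl⟩⟩
      rw [Finset.mem_product]
      refine ⟨Finset.mem_univ _, floor_mem50 h0 ?_⟩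
      rw [Prod.fst_neg, abs_neg]
      exact b2

private theorem same_cell50 {η : ℝ} (h0 : 0 < η) (h1 : η ≤ 1 / 100) {B B' : ℝ × ℝ × ℝ} (hB : Nrm B)
    (hs : Sm η B) (hB' : Nrm B') (hs' : Sm η B') {c : Bool × ℤ} (hc : Cell50 η B c)
    (hc' : Cell50 η B' c) : |(|ip B B'|) - 1| ≤ 90 * η ^ 2 := by
  obtain ⟨A, hA, hcA⟩ := hc
  obtain ⟨A', hA', hcA'⟩ := hc'
  have nA : Nrm A := by
    rcases hA with rfl | rfl
    · exact hB
    · exact nrm_neg50 hB
  have nA' : Nrm A' := by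
    rcases hA' with rfl | rfl
    · exact hB'
    · exact nrm_neg50 hB'
  have sA : Sm η A := by
    rcases hA with rfl | rfl
    · exact hs
    · exact sm_neg50 hs
  have sA' : Sm η A' := by
    rcases hA' with rfl | rfl
    · exact hs'
    · exact sm_neg50 hs'
  have hip : |ip B B'| = |ip A A'| := by
    rcases hA with rfl | rfl <;> rcases hA' with rfl | rfl
    · rfl
    · rw [ip_neg_right50, abs_neg]
    · rw [ip_neg_left50, abs_neg]
    · rw [ip_neg_right50, ip_neg_left50, neg_neg]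
  have key : |1 - ip A A'| ≤ 90 * η ^ 2 := by
    have fl : ∀ s t : ℝ, ⌊s / η⌋ = ⌊t / η⌋ → |s - t| ≤ η := by
      intro s t hst
      have h2 := Int.abs_sub_lt_one_of_floor_eq_floor hst
      rw [← sub_div, abs_div, abs_of_pos h0, div_lt_one h0] at h2
      exact h2.le
    rcases hcA with ⟨k1, a1, z1⟩ | ⟨k1, a1, z1⟩ <;> rcases hcA' with ⟨k2, a2, z2⟩ | ⟨k2, a2, z2⟩
    · exact close_alpha h0 h1 nA sA nA' sA' a1 a2 (fl _ _ (z1.trans z2.symm))
    · rw [k1] at k2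
      exact absurd k2 (by decide)
    · rw [k1] at k2
      exact absurd k2 (by decide)
    · exact close_gamma h0 h1 nA sA nA' sA' a1 a2 (fl _ _ (z1.trans z2.symm))
  rw [hip]
  have h2 : |(|ip A A'|) - 1| ≤ |ip A A' - 1| := by
    have h3 := abs_abs_sub_abs_le_abs_sub (ip A A') 1
    rwa [abs_one] at h3
  rw [abs_sub_comm] at key
  exact h2.trans key

private theorem grid50 {n : ℕ} {σ : ℝ} (h0 : 0 < σ) {j k : Fin n} (h : j ≠ k) :
    σ ≤ |(j : ℝ) * σ - (k : ℝ) * σ| := by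
  rw [← sub_mul, abs_mul, abs_of_pos h0]
  have h1 : (1 : ℝ) ≤ |(j : ℝ) - (k : ℝ)| := by
    have h2 : ((j : ℕ) : ℤ) - ((k : ℕ) : ℤ) ≠ 0 := by
      intro h3
      apply h
      apply Fin.ext
      omega
    have h3 := Int.one_le_abs h2
    have h4 : ((1 : ℤ) : ℝ) ≤ ((|((j : ℕ) : ℤ) - ((k : ℕ) : ℤ)| : ℤ) : ℝ) := Int.cast_le.2 h3
    rw [Int.cast_abs] at h4
    push_cast at h4
    exact h4
  nlinarith

theorem uncovered {c : ℝ} (hc : 1 ≤ c) (S : Set (ℝ × ℝ × ℝ)) (hN : ∀ B ∈ S, Nrm B)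
    (hsep : ∀ B ∈ S, ∀ B' ∈ S, B' = B ∨ B' = -B ∨ |ip B B'| ≤ 1 - 1 / (6 * c) ∨
      1 + 1 / (6 * c) ≤ |ip B B'|) :
    ∃ x y : ℝ, 0 ≤ x ∧ x ≤ 1 / 100 ∧ 1 ≤ y ∧ y ≤ 1 + 1 / 100 ∧
      ∀ B ∈ S, 4 / 10 ^ 6 / c < |ev B x y| := by
  have hc0 : 0 < c := by linarith
  have hsq : 1 ≤ Real.sqrt c := by
    rw [Real.one_le_sqrt]
    exact hc
  obtain ⟨η, hη⟩ : ∃ η : ℝ, η = 1 / (100 * Real.sqrt c) := ⟨_, rfl⟩
  have h0 : 0 < η := by
    rw [hη]
    positivity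
  have h1 : η ≤ 1 / 100 := by
    rw [hη]
    apply one_div_le_one_div_of_le
    · norm_num
    · linarith
  have hηc : 1 / c = 10 ^ 4 * η ^ 2 := by
    rw [hη, div_pow, mul_pow, Real.sq_sqrt hc0.le]
    field_simp
    norm_num
  have hε : 4 / 10 ^ 6 / c = 0.04 * η ^ 2 := by
    rw [div_eq_mul_one_div, hηc]
    ring
  have hgap : 1 / (6 * c) = 10 ^ 4 / 6 * η ^ 2 := by
    rw [one_div, mul_inv, ← one_div c, hηc]
    ring
  rw [hε]
  rw [hgap] at hsep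
  by_contra hcon
  push Not at hcon
  obtain ⟨n, hn⟩ : ∃ n : ℕ, n = ⌊5 / η⌋₊ + 2 := ⟨_, rfl⟩
  have hpos : 0 ≤ 5 / η := by positivity
  have hn1 : 5 / η + 1 < n := by
    have := Nat.lt_floor_add_one (5 / η)
    rw [hn]
    push_cast
    linarith
  have hn2 : (n : ℝ) ≤ 5 / η + 2 := by
    have := Nat.floor_le hpos
    rw [hn]
    push_cast
    linarith
  have hinv : 100 ≤ 1 / η := by
    rw [le_div_iff₀ h0]
    linarith
  have hn0 : (0 : ℝ) < n := by linarith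
  have hn3 : (n : ℝ) * η ≤ 6 := by
    have h2 : (n : ℝ) * η ≤ (5 / η + 2) * η := mul_le_mul_of_nonneg_right hn2 h0.le
    have h3 : (5 / η + 2) * η = 5 + 2 * η := by
      rw [add_mul, div_mul_cancel₀ _ h0.ne']
    linarith
  obtain ⟨σ, hσ⟩ : ∃ σ : ℝ, σ = η / n := ⟨_, rfl⟩
  have hσ0 : 0 < σ := by
    rw [hσ]
    exact div_pos h0 hn0
  have hσ1 : η ^ 2 / 6 ≤ σ := by
    rw [hσ, le_div_iff₀ hn0]
    have h2 : η * (n * η) ≤ η * 6 := mul_le_mul_of_nonneg_left hn3 h0.le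
    nlinarith
  have hη2 : 0 < η ^ 2 := by positivity
  have hrange : ∀ j : Fin n, 0 ≤ (j : ℝ) * σ ∧ (j : ℝ) * σ ≤ η := by
    intro j
    constructor
    · positivity
    · have h2 : (j : ℝ) ≤ n := by exact_mod_cast j.2.le
      calc (j : ℝ) * σ ≤ n * σ := mul_le_mul_of_nonneg_right h2 hσ0.le
        _ = η := by rw [hσ, mul_div_cancel₀ _ hn0.ne']
  have hex : ∀ q : Fin n × Fin n, ∃ B ∈ S, |ev B ((q.1 : ℝ) * σ) (1 + (q.2 : ℝ) * σ)| ≤ 0.04 * η ^ 2 := by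
    intro q
    have r1 := hrange q.1
    have r2 := hrange q.2
    exact hcon _ _ r1.1 (r1.2.trans h1) (by linarith) (by linarith)
  choose Bf hBS hBe using hex
  have hsm : ∀ q, Sm η (Bf q) := by
    intro q
    have r1 := hrange q.1
    have r2 := hrange q.2
    refine ⟨_, _, r1.1, r1.2, by linarith [r2.1], by linarith [r2.2], (hBe q).trans ?_⟩
    nlinarith
  have hnrm : ∀ q, Nrm (Bf q) := fun q => hN _ (hBS q)
  have hcell : ∀ q, ∃ c ∈ (Finset.univ : Finset Bool) ×ˢ Finset.Icc ⌊-(1.11 / η)⌋ ⌊1.11 / η⌋,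
      Cell50 η (Bf q) c := fun q => cell_exists50 h0 h1 (hnrm q) (hsm q)
  choose cf hcf hcc using hcell
  have hcard : ((Finset.univ : Finset Bool) ×ˢ Finset.Icc ⌊-(1.11 / η)⌋ ⌊1.11 / η⌋).card < n := by
    rw [Finset.card_product, Finset.card_univ, Fintype.card_bool, Int.card_Icc]
    have h2 : (⌊1.11 / η⌋ : ℝ) ≤ 1.11 / η := Int.floor_le _
    have h3 : -(1.11 / η) < (⌊-(1.11 / η)⌋ : ℝ) + 1 := Int.lt_floor_add_one _
    have h4 : (((⌊1.11 / η⌋ + 1 - ⌊-(1.11 / η)⌋).toNat : ℕ) : ℝ) ≤ 2.22 * (1 / η) + 2 := by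
      have h5 : (((⌊1.11 / η⌋ + 1 - ⌊-(1.11 / η)⌋).toNat : ℕ) : ℝ) =
          ((max (⌊1.11 / η⌋ + 1 - ⌊-(1.11 / η)⌋) 0 : ℤ) : ℝ) := by
        rw [← Int.toNat_eq_max, Int.cast_natCast]
      rw [h5, Int.cast_max, max_le_iff]
      have e1 : 1.11 / η = 1.11 * (1 / η) := by ring
      rw [e1] at h2 h3 ⊢
      constructor
      · push_cast
        linarith
      · push_cast
        linarith
    have h5 : ((2 * (⌊1.11 / η⌋ + 1 - ⌊-(1.11 / η)⌋).toNat : ℕ) : ℝ) < n := by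
      push_cast
      have e2 : 5 / η = 5 * (1 / η) := by ring
      rw [e2] at hn1
      linarith
    exact_mod_cast h5
  have hnN : 0 < n := by exact_mod_cast hn0
  obtain ⟨c0, -, hfib⟩ := Finset.exists_lt_card_fiber_of_mul_lt_card_of_maps_to
    (s := (Finset.univ : Finset (Fin n × Fin n)))
    (t := (Finset.univ : Finset Bool) ×ˢ Finset.Icc ⌊-(1.11 / η)⌋ ⌊1.11 / η⌋) (f := cf) (n := n)
    (fun q _ => hcf q) (by
      rw [Finset.card_univ, Fintype.card_prod, Fintype.card_fin]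
      exact Nat.mul_lt_mul_of_pos_right hcard hnN)
  have hne : (Finset.univ.filter (fun q => cf q = c0)).Nonempty := by
    rw [← Finset.card_pos]
    omega
  obtain ⟨q0, hq0⟩ := hne
  rw [Finset.mem_filter] at hq0
  have hall : ∀ q ∈ Finset.univ.filter (fun q => cf q = c0),
      |ev (Bf q0) ((q.1 : ℝ) * σ) (1 + (q.2 : ℝ) * σ)| ≤ 0.04 * η ^ 2 := by
    intro q hq
    rw [Finset.mem_filter] at hq
    have hcq : Cell50 η (Bf q) c0 := by
      rw [← hq.2]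
      exact hcc q
    have hcq0 : Cell50 η (Bf q0) c0 := by
      rw [← hq0.2]
      exact hcc q0
    have h2 := same_cell50 h0 h1 (hnrm q0) (hsm q0) (hnrm q) (hsm q) hcq0 hcq
    rw [abs_le] at h2
    rcases hsep _ (hBS q0) _ (hBS q) with h3 | h3 | h3 | h3
    · rw [← h3]
      exact hBe q
    · have h4 := hBe q
      rw [h3, ev_neg50, abs_neg] at h4
      exact h4
    · exfalso
      nlinarith
    · exfalso
      nlinarith
  have hσε : 4 * (0.04 * η ^ 2) < σ := by nlinarith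
  rcases row_or_col h0 h1 (hnrm q0) (hsm q0) with hrow | hcol
  · obtain ⟨q1, m1, q2, m2, hne12, heq⟩ := Finset.exists_ne_map_eq_of_card_lt_of_maps_to
      (s := Finset.univ.filter (fun q => cf q = c0)) (t := (Finset.univ : Finset (Fin n)))
      (f := Prod.fst) (by rw [Finset.card_univ, Fintype.card_fin]; exact hfib)
      (fun _ _ => Finset.mem_univ _)
    have hk : q1.2 ≠ q2.2 := fun h => hne12 (Prod.ext heq h)
    have a1 := hall q1 m1
    have a2 := hall q2 m2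
    have r1 := hrange q1.2
    have r2 := hrange q2.2
    rw [← heq] at a2
    have h2 := hrow ((q1.1 : ℝ) * σ) (1 + (q1.2 : ℝ) * σ) (1 + (q2.2 : ℝ) * σ) (by linarith)
      (by linarith)
    have h3 := grid50 hσ0 hk
    have h4 : |1 + (q1.2 : ℝ) * σ - (1 + (q2.2 : ℝ) * σ)| = |(q1.2 : ℝ) * σ - (q2.2 : ℝ) * σ| := by
      congr 1
      ring
    rw [h4] at h2
    have h5 := abs_sub (ev (Bf q0) ((q1.1 : ℝ) * σ) (1 + (q1.2 : ℝ) * σ))
      (ev (Bf q0) ((q1.1 : ℝ) * σ) (1 + (q2.2 : ℝ) * σ))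
    linarith
  · obtain ⟨q1, m1, q2, m2, hne12, heq⟩ := Finset.exists_ne_map_eq_of_card_lt_of_maps_to
      (s := Finset.univ.filter (fun q => cf q = c0)) (t := (Finset.univ : Finset (Fin n)))
      (f := Prod.snd) (by rw [Finset.card_univ, Fintype.card_fin]; exact hfib)
      (fun _ _ => Finset.mem_univ _)
    have hk : q1.1 ≠ q2.1 := fun h => hne12 (Prod.ext h heq)
    have a1 := hall q1 m1
    have a2 := hall q2 m2
    have r1 := hrange q1.1
    have r2 := hrange q2.1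
    rw [← heq] at a2
    have h2 := hcol ((q1.1 : ℝ) * σ) ((q2.1 : ℝ) * σ) (1 + (q1.2 : ℝ) * σ) r1.1 r1.2 r2.1 r2.2
    have h3 := grid50 hσ0 hk
    have h5 := abs_sub (ev (Bf q0) ((q1.1 : ℝ) * σ) (1 + (q1.2 : ℝ) * σ))
      (ev (Bf q0) ((q2.1 : ℝ) * σ) (1 + (q1.2 : ℝ) * σ))
    linarith

end Pool.Agent.Helper48.QH
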