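import Pool.Agent.Helper48.QH.Core

/-!
# QH, block D1: separation of the axes of two near-systolic elements

PROOF. `pair_sep`: Let `X = C C' - S S'`. Identity: `X - 1 = ((S - S')^2 - (C - C')^2)/2` (from `S^2 = C^2 - 1`), so `X - 1 ≤ (S - S')^2 / 2`. Let `s = sqrt (c^2 - 1)`,
`c̃ = c + (c - 1)/(4 c)`, `s̃ = sqrt (c̃^2 - 1)`; `S, S' ∈ [s, s̃]`, and `(s̃ - s)^2 ≤ (c̃ - c)^2 (c̃ + c)^2 / (4 s^2) ≤ (c-1)^2/(16 c^2) * (2.25 c)^2 / (4 (c - 1)(c + 1)) ≤ c - 1`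
(`c̃ + c ≤ 2.25 c`). So `X - 1 ≤ (c - 1)/2`. (Direct: `|S - S'| (S + S') = |C - C'| (C + C') ≤ (c - 1)/(4c) * 2.5 c`, `S + S' ≥ 2 s`,
`(S - S')^2 ≤ (0.625 (c - 1))^2 / (4 (c^2 - 1)) ≤ (c - 1)/10`.)
`S S' ≤ c̃^2 - 1 = (c̃ - 1)(c̃ + 1) ≤ (5/4)(c - 1) * (9/4) c ≤ 3 c (c - 1)`. Replacing `β` by `-β` exchanges the two hypotheses, so let `β ≥ 0`. `|C C' - S S' β| ≥ c` means
`S S' β ≤ C C' - c`, and then `S S' (1 - β) ≥ S S' - C C' + c = c - X ≥ (c - 1)/2`, so `1 - β ≥ 1/(6 c)`; or `S S' β ≥ C C' + c`, and then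
`S S' (β - 1) ≥ X + c ≥ 1 + c` (`X ≥ 1`, because `X^2 ≥ 1`... or from `C C' - S S' ≥ 1`, equivalent to `(C C' - 1)^2 ≥ S^2 S'^2`, i.e. `(C - C')^2 ≥ 0`), so
`β - 1 ≥ 1/(6 c)`.
-/

set_option autoImplicit false

noncomputable section

namespace Pool.Agent.Helper48.QH

/-- The case `0 ≤ b`, only the second hypothesis is needed. -/
private theorem pair_sep_aux {c C C' S S' b : ℝ} (hc : 1 < c) (hC : c ≤ C)
    (hC2 : C ≤ c + (c - 1) / (4 * c)) (hC' : c ≤ C') (hC2' : C' ≤ c + (c - 1) / (4 * c))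
    (hS : S ^ 2 = C ^ 2 - 1) (hS0 : 0 < S) (hS' : S' ^ 2 = C' ^ 2 - 1) (hS0' : 0 < S')
    (h2 : c ≤ |C * C' - S * S' * b|) : b ≤ 1 - 1 / (6 * c) ∨ 1 + 1 / (6 * c) ≤ b := by
  have hc0 : 0 < c := by linarith
  obtain ⟨d, hd⟩ : ∃ d, d = (c - 1) / (4 * c) := ⟨_, rfl⟩
  rw [← hd] at hC2 hC2'
  have hd4 : d * (4 * c) = c - 1 := by rw [hd]; field_simp
  have hd0 : 0 < d := by rw [hd]; exact div_pos (by linarith) (by linarith)
  have hd1 : d ≤ 1 / 4 := by nlinarith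
  have hd2 : d ≤ (c - 1) / 4 := by nlinarith
  have hSS0 : 0 < S * S' := mul_pos hS0 hS0'
  -- `S S' ≤ 3 c (c - 1)`
  have key : ∀ x y : ℝ, c ≤ x → x ≤ c + d → y ^ 2 = x ^ 2 - 1 → y ^ 2 ≤ 3 * c * (c - 1) := by
    intro x y h1 h2 h3
    have h4 : x - 1 ≤ 5 / 4 * (c - 1) := by linarith
    have h5 : x + 1 ≤ 9 / 4 * c := by linarith
    have h6 : (x - 1) * (x + 1) ≤ (5 / 4 * (c - 1)) * (9 / 4 * c) :=
      mul_le_mul h4 h5 (by linarith) (by linarith)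
    nlinarith [mul_pos hc0 (sub_pos.2 hc)]
  have hSb := key C S hC hC2 hS
  have hSb' := key C' S' hC' hC2' hS'
  have hSS : S * S' ≤ 3 * c * (c - 1) := by nlinarith [sq_nonneg (S - S')]
  have hq : S * S' / (6 * c) ≤ (c - 1) / 2 := by
    rw [div_le_iff₀ (by linarith)]; nlinarith
  -- `S S' ≥ c ^ 2 - 1`
  have hl : c ^ 2 - 1 ≤ S * S' := by
    have a1 : c ^ 2 - 1 ≤ S ^ 2 := by rw [hS]; nlinarith
    have a2 : c ^ 2 - 1 ≤ S' ^ 2 := by rw [hS']; nlinarith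
    have a3 : (c ^ 2 - 1) ^ 2 ≤ (S * S') ^ 2 := by
      have : 0 ≤ c ^ 2 - 1 := by nlinarith
      calc (c ^ 2 - 1) ^ 2 = (c ^ 2 - 1) * (c ^ 2 - 1) := by ring
        _ ≤ S ^ 2 * S' ^ 2 := mul_le_mul a1 a2 this (by positivity)
        _ = (S * S') ^ 2 := by ring
    exact le_of_sq_le_sq a3 hSS0.le
  -- `X ≤ 1 + (c - 1) / 2`
  have hX : C * C' - S * S' ≤ 1 + (c - 1) / 2 := by
    have e1 : (S - S') ^ 2 * (S + S') ^ 2 = (C - C') ^ 2 * (C + C') ^ 2 := by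
      have : (S - S') * (S + S') = (C - C') * (C + C') := by nlinarith
      calc (S - S') ^ 2 * (S + S') ^ 2 = ((S - S') * (S + S')) ^ 2 := by ring
        _ = _ := by rw [this]; ring
    have e2 : (C - C') ^ 2 ≤ d ^ 2 := by
      apply sq_le_sq'
      · linarith
      · linarith
    have e3 : (C + C') ^ 2 ≤ (5 / 2 * c) ^ 2 := by
      apply sq_le_sq'
      · linarith
      · linarith
    have e4 : (C - C') ^ 2 * (C + C') ^ 2 ≤ d ^ 2 * (5 / 2 * c) ^ 2 :=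
      mul_le_mul e2 e3 (sq_nonneg _) (sq_nonneg _)
    have e5 : d ^ 2 * (5 / 2 * c) ^ 2 = 25 / 64 * (c - 1) ^ 2 := by
      rw [← hd4]; ring
    have e6 : 4 * (c ^ 2 - 1) ≤ (S + S') ^ 2 := by nlinarith [sq_nonneg (S - S')]
    have e7 : (S - S') ^ 2 * (4 * (c ^ 2 - 1)) ≤ 25 / 64 * (c - 1) ^ 2 := by
      calc (S - S') ^ 2 * (4 * (c ^ 2 - 1)) ≤ (S - S') ^ 2 * (S + S') ^ 2 :=
            mul_le_mul_of_nonneg_left e6 (sq_nonneg _)
        _ ≤ _ := by rw [e1]; linarith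
    have e8 : (S - S') ^ 2 * (4 * (c + 1)) ≤ 25 / 64 * (c - 1) := by
      have : (S - S') ^ 2 * (4 * (c + 1)) * (c - 1) ≤ 25 / 64 * (c - 1) * (c - 1) := by nlinarith
      exact le_of_mul_le_mul_right this (by linarith)
    have e9 : (S - S') ^ 2 ≤ (c - 1) := by nlinarith [sq_nonneg (S - S')]
    nlinarith [sq_nonneg (C - C')]
  have hX0 : 0 ≤ C * C' - S * S' := by
    have a1 : S ≤ C := le_of_sq_le_sq (by linarith) (by linarith)
    have a2 : S' ≤ C' := le_of_sq_le_sq (by linarith) (by linarith)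
    have := mul_le_mul a1 a2 hS0'.le (by linarith)
    linarith
  rcases le_abs'.1 h2 with h | h
  · right
    by_contra hcon
    push Not at hcon
    have : S * S' * (b - 1) < S * S' * (1 / (6 * c)) :=
      mul_lt_mul_of_pos_left (by linarith) hSS0
    rw [mul_one_div] at this
    nlinarith
  · left
    by_contra hcon
    push Not at hcon
    have : S * S' * (1 - b) < S * S' * (1 / (6 * c)) :=
      mul_lt_mul_of_pos_left (by linarith) hSS0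
    rw [mul_one_div] at this
    nlinarith

theorem pair_sep {c C C' S S' β : ℝ} (hc : 1 < c) (hC : c ≤ C) (hC2 : C ≤ c + (c - 1) / (4 * c))
    (hC' : c ≤ C') (hC2' : C' ≤ c + (c - 1) / (4 * c)) (hS : S ^ 2 = C ^ 2 - 1) (hS0 : 0 < S)
    (hS' : S' ^ 2 = C' ^ 2 - 1) (hS0' : 0 < S') (h1 : c ≤ |C * C' + S * S' * β|)
    (h2 : c ≤ |C * C' - S * S' * β|) : |β| ≤ 1 - 1 / (6 * c) ∨ 1 + 1 / (6 * c) ≤ |β| := by
  rcases le_total 0 β with hβ | hβ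
  · rw [abs_of_nonneg hβ]
    exact pair_sep_aux hc hC hC2 hC' hC2' hS hS0 hS' hS0' h2
  · rw [abs_of_nonpos hβ]
    refine pair_sep_aux hc hC hC2 hC' hC2' hS hS0 hS' hS0' ?_
    rwa [mul_neg, sub_neg_eq_add]

end Pool.Agent.Helper48.QH
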