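import Pool.Agent.Helper48.QH.Core
import Pool.Agent.Helper48.QH.Disp
import Pool.Agent.Helper48.QH.Pair
import Pool.Agent.Helper48.QH.Cells
import Pool.Agent.Helper48.QH.NearAxis

/-!
# QH, block E2: the normalised forms of the near-systolic elements

For `A = (p q; r s)`, `t = p + s`, `t^2 > 4`: `S = sqrt (t^2 - 4) / 2`, `form A = sign t • ((p - s)/(2 S), q / S, r / S)`.

PROOF. `form_nrm`: `(p - s)^2 + 4 q r = t^2 - 4 = 4 S^2` by `p s - q r = 1`. `form_ev`: `ev (form A) x y = sign t * (r (x^2+y^2) - (p - s) x - q)/S = sign t * y * Qf A z / S`.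
`form_sep`: let `c = cosh (sys Γ / 2)`, `C = |t|/2`, `C' = |t'|/2`, `S, S'` as above, so `S^2 = C^2 - 1`, `C, C' ≥ c > 1` (`trace_bound`, `sys_le`). If `h' = h` or `h' = -h` then
`form h' = form h`; if `h' = h⁻¹` or `-h⁻¹` then `form h' = - form h` (`h⁻¹ = (s, -q; -r, p)`). Otherwise `h h'` and `h h'⁻¹` are elements of `Γ` different from `±1`
(`h h' = -1` means `h' = -h⁻¹`), so their traces have absolute value `≥ 2 c` (`trace_bound`). `tr (h h') = p p' + q r' + r q' + s s'` and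
`sign t * sign t' * tr (h h') = 2 (C C' + S S' ip (form h) (form h'))` because `h = sign t * (C + S (α, β; γ, -α))`; for `h'⁻¹` replace the form by its negative. Then `pair_sep`.
-/

set_option autoImplicit false

open MeasureTheory UpperHalfPlane
open scoped ContDiff MatrixGroups

noncomputable section

namespace Pool.Agent.Helper48.QH

/-- `sqrt (t^2 - 4) / 2` -/
def hS (A : SL(2, ℝ)) : ℝ := Real.sqrt (tr A ^ 2 - 4) / 2

/-- the normalised form of a hyperbolic matrix -/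
def form (A : SL(2, ℝ)) : ℝ × ℝ × ℝ :=
  (SignType.sign (tr A) * ((A 0 0 - A 1 1) / (2 * hS A)), SignType.sign (tr A) * (A 0 1 / hS A),
    SignType.sign (tr A) * (A 1 0 / hS A))

private theorem h28_sign {t : ℝ} (h : 4 < t ^ 2) :
    ((SignType.sign t : SignType) : ℝ) = 1 ∧ |t| = t ∨ ((SignType.sign t : SignType) : ℝ) = -1 ∧ |t| = -t := by
  rcases lt_trichotomy t 0 with h0 | h0 | h0
  · right
    rw [sign_neg h0, abs_of_neg h0]
    simp
  · rw [h0] at h; norm_num at h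
  · left
    rw [sign_pos h0, abs_of_pos h0]
    simp

private theorem h28_S {A : SL(2, ℝ)} (h : 4 < tr A ^ 2) :
    0 < hS A ∧ 4 * hS A ^ 2 = tr A ^ 2 - 4 := by
  have h1 : 0 < tr A ^ 2 - 4 := by linarith
  unfold hS
  refine ⟨by positivity, ?_⟩
  rw [div_pow, Real.sq_sqrt h1.le]
  ring

private theorem h28_det (A : SL(2, ℝ)) : A 0 0 * A 1 1 - A 0 1 * A 1 0 = 1 := by
  have h := A.det_coe
  rwa [Matrix.det_fin_two] at h

/-- the entries in terms of the form -/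
private theorem h28_ent {A : SL(2, ℝ)} (h : 4 < tr A ^ 2) :
    ∃ σ : ℝ, σ ^ 2 = 1 ∧ A 0 0 = σ * (|tr A| / 2 + hS A * (form A).1) ∧
      A 1 1 = σ * (|tr A| / 2 - hS A * (form A).1) ∧ A 0 1 = σ * (hS A * (form A).2.1) ∧
      A 1 0 = σ * (hS A * (form A).2.2) := by
  obtain ⟨hS0, -⟩ := h28_S h
  have hne : hS A ≠ 0 := hS0.ne'
  rcases h28_sign h with ⟨h1, h2⟩ | ⟨h1, h2⟩
  · refine ⟨1, by norm_num, ?_, ?_, ?_, ?_⟩ <;> simp only [form, h1, h2]
    all_goals (try unfold tr)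
    all_goals (field_simp)
    all_goals (try ring)
  · refine ⟨-1, by norm_num, ?_, ?_, ?_, ?_⟩ <;> simp only [form, h1, h2]
    all_goals (try unfold tr)
    all_goals (field_simp)
    all_goals (try ring)

theorem form_nrm (A : SL(2, ℝ)) (h : 4 < tr A ^ 2) : Nrm (form A) := by
  obtain ⟨hS0, hS2⟩ := h28_S h
  obtain ⟨σ, hσ, h00, h11, h01, h10⟩ := h28_ent h
  have hd := h28_det A
  have habs : |tr A| ^ 2 = tr A ^ 2 := sq_abs _
  unfold Nrm
  have h3 : A 0 0 * A 1 1 - A 0 1 * A 1 0 =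
      σ ^ 2 * (|tr A| ^ 2 / 4 - hS A ^ 2 * ((form A).1 ^ 2 + (form A).2.1 * (form A).2.2)) := by
    rw [h00, h11, h01, h10]; ring
  rw [hd, hσ, habs] at h3
  have h4 : hS A ^ 2 * ((form A).1 ^ 2 + (form A).2.1 * (form A).2.2) = hS A ^ 2 * 1 := by
    linarith
  exact mul_left_cancel₀ (by positivity) h4

theorem form_ev (A : SL(2, ℝ)) (h : 4 < tr A ^ 2) (z : ℍ) :
    |ev (form A) z.re z.im| = |Qf A z| * z.im / hS A := by
  obtain ⟨hS0, -⟩ := h28_S h
  have hz : 0 < z.im := z.im_pos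
  have hne : hS A ≠ 0 := hS0.ne'
  have hzne : z.im ≠ 0 := hz.ne'
  have key : ev (form A) z.re z.im = Qf A z * z.im / hS A ∨
      ev (form A) z.re z.im = -(Qf A z * z.im / hS A) := by
    rcases h28_sign h with ⟨h1, -⟩ | ⟨h1, -⟩
    · left
      simp only [ev, form, h1, Qf]
      field_simp
      ring
    · right
      simp only [ev, form, h1, Qf]
      field_simp
      ring
  have h2 : |ev (form A) z.re z.im| = |Qf A z * z.im / hS A| := by
    rcases key with h | h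
    · rw [h]
    · rw [h, abs_neg]
  rw [h2, abs_div, abs_mul, abs_of_pos hz, abs_of_pos hS0]

private theorem h28_form_eq {A B : SL(2, ℝ)} (h0 : A 0 0 = B 0 0) (h1 : A 0 1 = B 0 1) (h2 : A 1 0 = B 1 0)
    (h3 : A 1 1 = B 1 1) : form A = form B := by
  have hA : A = B := by
    ext i j
    fin_cases i <;> fin_cases j
    · exact h0
    · exact h1
    · exact h2
    · exact h3
  rw [hA]

private theorem h28_tr_neg (A : SL(2, ℝ)) : tr (-A) = -tr A := by
  simp [tr]; ring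

private theorem h28_hS_neg (A : SL(2, ℝ)) : hS (-A) = hS A := by
  unfold hS
  rw [h28_tr_neg, neg_sq]

private theorem h28_form_neg (A : SL(2, ℝ)) : form (-A) = form A := by
  have h1 : ((SignType.sign (-tr A) : SignType) : ℝ) = -((SignType.sign (tr A) : SignType) : ℝ) := by
    rw [Left.sign_neg]; simp
  unfold form
  rw [h28_tr_neg, h28_hS_neg, h1]
  simp only [Matrix.SpecialLinearGroup.coe_neg, Matrix.neg_apply]
  ext
  · simp only []; ring
  · simp only []; ring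
  · simp only []; ring

private theorem h28_inv (A : SL(2, ℝ)) :
    A⁻¹ 0 0 = A 1 1 ∧ A⁻¹ 0 1 = -A 0 1 ∧ A⁻¹ 1 0 = -A 1 0 ∧ A⁻¹ 1 1 = A 0 0 := by
  rw [Matrix.SpecialLinearGroup.SL2_inv_expl]
  exact ⟨rfl, rfl, rfl, rfl⟩

private theorem h28_tr_inv (A : SL(2, ℝ)) : tr A⁻¹ = tr A := by
  obtain ⟨h1, -, -, h4⟩ := h28_inv A
  unfold tr
  rw [h1, h4]; ring

private theorem h28_form_inv (A : SL(2, ℝ)) : form A⁻¹ = -form A := by
  obtain ⟨h1, h2, h3, h4⟩ := h28_inv A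
  have hS1 : hS A⁻¹ = hS A := by unfold hS; rw [h28_tr_inv]
  unfold form
  rw [h28_tr_inv, hS1, h1, h2, h3, h4]
  ext
  · simp only [Prod.fst_neg]; ring
  · simp only [Prod.snd_neg, Prod.fst_neg]; ring
  · simp only [Prod.snd_neg]; ring

private theorem h28_tr_mul (A B : SL(2, ℝ)) :
    tr (A * B) = A 0 0 * B 0 0 + A 0 1 * B 1 0 + A 1 0 * B 0 1 + A 1 1 * B 1 1 := by
  simp only [tr, Matrix.SpecialLinearGroup.coe_mul, Matrix.mul_apply, Fin.sum_univ_two]
  ring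

private theorem h28_ip {A B : SL(2, ℝ)} (hA : 4 < tr A ^ 2) (hB : 4 < tr B ^ 2) :
    ∃ σ : ℝ, σ ^ 2 = 1 ∧ tr (A * B) = 2 * (σ * (|tr A| / 2 * (|tr B| / 2) + hS A * hS B * ip (form A) (form B))) := by
  obtain ⟨σ, hσ, a00, a11, a01, a10⟩ := h28_ent hA
  obtain ⟨σ', hσ', b00, b11, b01, b10⟩ := h28_ent hB
  refine ⟨σ * σ', by rw [mul_pow, hσ, hσ', one_mul], ?_⟩
  rw [h28_tr_mul, a00, a11, a01, a10, b00, b11, b01, b10]
  unfold ip
  ring

private theorem h28_low {Γ : Subgroup SL(2, ℝ)} (hs : 0 < sys Γ) {g : SL(2, ℝ)} (hg : g ∈ Γ) (h1 : g ≠ 1)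
    (h2 : g ≠ -1) : 4 * Real.cosh (sys Γ / 2) ^ 2 ≤ tr g ^ 2 :=
  trace_bound g _ hs fun z => sys_le hg h1 h2 z

private theorem h28_abs {c x σ T : ℝ} (hc : 0 ≤ c) (hσ : σ ^ 2 = 1) (hT : T = 2 * (σ * x)) (h : 4 * c ^ 2 ≤ T ^ 2) :
    c ≤ |x| := by
  have h1 : c ^ 2 ≤ x ^ 2 := by
    have : T ^ 2 = 4 * (σ ^ 2 * x ^ 2) := by rw [hT]; ring
    rw [this, hσ] at h
    linarith
  rw [← sq_abs x] at h1
  exact (pow_le_pow_iff_left₀ hc (abs_nonneg x) (by norm_num)).mp h1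

theorem form_sep {Γ : Subgroup SL(2, ℝ)} (hs : 0 < sys Γ) {c : ℝ} (hc : c = Real.cosh (sys Γ / 2))
    {h h' : SL(2, ℝ)} (hh : h ∈ Γ) (h1 : h ≠ 1) (h2 : h ≠ -1) (ht : |tr h| ≤ 2 * (c + (c - 1) / (4 * c)))
    (hh' : h' ∈ Γ) (h1' : h' ≠ 1) (h2' : h' ≠ -1) (ht' : |tr h'| ≤ 2 * (c + (c - 1) / (4 * c))) :
    form h' = form h ∨ form h' = -form h ∨ |ip (form h) (form h')| ≤ 1 - 1 / (6 * c) ∨
      1 + 1 / (6 * c) ≤ |ip (form h) (form h')| := by
  have hc1 : 1 < c := by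
    rw [hc]
    exact Real.one_lt_cosh.mpr (by positivity)
  have hc0 : 0 ≤ c := by linarith
  have ha := h28_low hs hh h1 h2
  have hb := h28_low hs hh' h1' h2'
  rw [← hc] at ha hb
  have hA : 4 < tr h ^ 2 := by nlinarith
  have hB : 4 < tr h' ^ 2 := by nlinarith
  by_cases e1 : h * h' = 1
  · right; left
    rw [← h28_form_inv, eq_inv_of_mul_eq_one_right e1]
  by_cases e2 : h * h' = -1
  · right; left
    have e3 : h * (-h') = 1 := by rw [mul_neg, e2, neg_neg]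
    rw [← h28_form_inv, ← eq_inv_of_mul_eq_one_right e3, h28_form_neg]
  by_cases e3 : h * h'⁻¹ = 1
  · left
    rw [mul_inv_eq_one.mp e3]
  by_cases e4 : h * h'⁻¹ = -1
  · left
    have e5 : h = -h' := by
      rw [mul_inv_eq_iff_eq_mul] at e4
      rw [e4, neg_one_mul]
    rw [e5, h28_form_neg]
  right; right
  have hm := h28_low hs (Γ.mul_mem hh hh') e1 e2
  have hn := h28_low hs (Γ.mul_mem hh (Γ.inv_mem hh')) e3 e4
  rw [← hc] at hm hn
  obtain ⟨σ, hσ, hT⟩ := h28_ip hA hB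
  have hBi : 4 < tr h'⁻¹ ^ 2 := by rw [h28_tr_inv]; exact hB
  obtain ⟨σ', hσ', hT'⟩ := h28_ip hA hBi
  have hSi : hS h'⁻¹ = hS h' := by unfold hS; rw [h28_tr_inv]
  have hipn : ip (form h) (form h'⁻¹) = -ip (form h) (form h') := by
    rw [h28_form_inv]
    simp only [ip, Prod.fst_neg, Prod.snd_neg]
    ring
  rw [h28_tr_inv, hSi, hipn] at hT'
  obtain ⟨hS0, hS2⟩ := h28_S hA
  obtain ⟨hS0', hS2'⟩ := h28_S hB
  have hx := h28_abs hc0 hσ hT hm
  have hy := h28_abs hc0 hσ' hT' hn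
  have hCa : c ≤ |tr h| / 2 := by
    have : c ^ 2 ≤ (|tr h| / 2) ^ 2 := by rw [div_pow, sq_abs]; linarith
    exact (pow_le_pow_iff_left₀ hc0 (by positivity) (by norm_num)).mp this
  have hCb : c ≤ |tr h'| / 2 := by
    have : c ^ 2 ≤ (|tr h'| / 2) ^ 2 := by rw [div_pow, sq_abs]; linarith
    exact (pow_le_pow_iff_left₀ hc0 (by positivity) (by norm_num)).mp this
  refine pair_sep hc1 hCa (by linarith) hCb (by linarith) (S := hS h) (S' := hS h') ?_ hS0 ?_ hS0' hx ?_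
  · rw [div_pow, sq_abs]; linarith
  · rw [div_pow, sq_abs]; linarith
  · rw [mul_neg, ← sub_eq_add_neg] at hy
    exact hy

end Pool.Agent.Helper48.QH
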