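import Pool.Agent.Helper48.QH.Core
import Pool.Agent.Helper48.QH.Disp
import Pool.Agent.Helper48.QH.Count
import Pool.Agent.Helper48.QH.NearAxis
import Pool.Agent.Helper48.QH.Forms

/-!
# QH, block E3: the main bound

PROOF. Let `ℓ = sys Γ`, `u = ℓ/2`, `c = cosh u > 1`, `ω = 10⁻²⁰ / ((1 + ℓ^2) c^3)`, and suppose `K < 1 + ω`.
`cosh_step`: `cosh (K u) < c + (c - 1)/(4 c)`: with `K = 1 + τ`, `0 ≤ τ ≤ ω`: `cosh (u + τ u) = c cosh (τ u) + sinh u sinh (τ u) ≤ c (1 + (τ u)^2) + 2 τ u sinh u` (`τ u ≤ 1`), and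
`u^2 ≤ 2 (c - 1)`, `u sinh u ≤ u^2 c ≤ 2 c (c - 1)` (`sinh u ≤ u cosh u`), so the excess over `c` is `≤ τ (2 c τ (c-1) + 4 c (c - 1)) ≤ 5 τ c (c - 1) < (c - 1)/(4 c)` as
`τ ≤ 10⁻²⁰/c^3`. By continuity choose `κ ∈ (0, 1/100]` with `cosh (K (1 + κ) u) ≤ c + (c - 1)/(4 c)`.
Let `𝓑` be the set of the forms `form h`, `h ∈ Γ`, `h ≠ ±1`, `|tr h| ≤ 2 (c + (c-1)/(4c))`. They are normalised (`trace_bound` and `sys_le` give `tr h ^ 2 ≥ 4 c^2 > 4`), separated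
(`form_sep`), so `uncovered` gives a point `x + i y` with `|ev B x y| > 4 · 10⁻⁶ / c` for all `B ∈ 𝓑`. But `near_axis` for this point gives `h`, `b`, `δ`:
`|tr h| = 2 cosh (b/2) ≤ 2 cosh (K (1 + κ) u) ≤ 2 (c + (c-1)/(4c))`, and `K^2 - 1 ≤ (2 + ω) ω ≤ 2.1 ω`. `delta_small`: `δ ≤ 1.9 · 10⁻⁶ / c`: either
`δ ≤ 4 π sqrt (2.1 ω) ≤ 4 π sqrt (2.1 · 10⁻²⁰ / c^2)`, or `δ^3 ≤ 32 π (1.01 ℓ)^2 · 2.1 ω ≤ 2.4 · 10⁻¹⁸ / c^3` (`ℓ^2 / (1 + ℓ^2) ≤ 1`).
`|Qf h| cos δ = 2 S sin δ` so `|ev (form h)| = 2 y tan δ ≤ 2.02 * 1.01 * δ < 4 · 10⁻⁶ / c` (`cos δ ≥ 0.999`, `sin δ ≤ δ`). Contradiction.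
-/

set_option autoImplicit false

open MeasureTheory UpperHalfPlane
open scoped ContDiff MatrixGroups

noncomputable section

namespace Pool.Agent.Helper48.QH

/-- mean value theorem for `cosh` -/
theorem cosh_sub_le {x y : ℝ} (hy : 0 ≤ y) (hxy : y ≤ x) :
    Real.cosh x - Real.cosh y ≤ (x - y) * Real.sinh x := by
  rcases hxy.eq_or_lt with h | h
  · subst h; simp
  · obtain ⟨t, ht, ht2⟩ := exists_deriv_eq_slope Real.cosh h Real.continuous_cosh.continuousOn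
      Real.differentiable_cosh.differentiableOn
    rw [Real.deriv_cosh, eq_div_iff (by linarith)] at ht2
    rw [← ht2, mul_comm]
    exact mul_le_mul_of_nonneg_left (Real.sinh_le_sinh.2 ht.2.le) (by linarith)

theorem sinh_le_mul_cosh {x : ℝ} (hx : 0 ≤ x) : Real.sinh x ≤ x * Real.cosh x := by
  rcases hx.eq_or_lt with h | h
  · subst h; simp
  · obtain ⟨t, ht, ht2⟩ := exists_deriv_eq_slope Real.sinh h Real.continuous_sinh.continuousOn
      Real.differentiable_sinh.differentiableOn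
    rw [Real.deriv_sinh, eq_div_iff (by linarith)] at ht2
    have h1 : Real.cosh t ≤ Real.cosh x := by
      rw [Real.cosh_le_cosh, abs_of_pos ht.1, abs_of_pos h]
      exact ht.2.le
    rw [Real.sinh_zero] at ht2
    nlinarith

theorem sq_le_cosh (u : ℝ) : u ^ 2 ≤ 2 * (Real.cosh u - 1) := by
  have h1 : Real.cosh u = 1 + 2 * Real.sinh (u / 2) ^ 2 := by
    have h := Real.cosh_two_mul (u / 2)
    rw [mul_div_cancel₀ u two_ne_zero] at h
    rw [h, Real.cosh_sq]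
    ring
  have h2 : |u / 2| ≤ |Real.sinh (u / 2)| := by
    rcases le_total 0 (u / 2) with h | h
    · rw [abs_of_nonneg h, abs_of_nonneg (Real.sinh_nonneg_iff.2 h)]
      exact Real.self_le_sinh_iff.2 h
    · rw [abs_of_nonpos h, abs_of_nonpos (Real.sinh_nonpos_iff.2 h)]
      have := Real.sinh_le_self_iff.2 h
      linarith
  have h3 := sq_le_sq.2 h2
  rw [h1]
  nlinarith

theorem cosh_step {u K : ℝ} (hu : 0 < u) (hK : 1 ≤ K) (hK2 : K ≤ 1 + 1 / (100 * Real.cosh u ^ 2)) :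
    Real.cosh (K * u) < Real.cosh u + (Real.cosh u - 1) / (4 * Real.cosh u) := by
  have hc : 1 < Real.cosh u := Real.one_lt_cosh.2 hu.ne'
  obtain ⟨c, hcc⟩ : ∃ c, c = Real.cosh u := ⟨_, rfl⟩
  rw [← hcc] at hc hK2 ⊢
  have h1 := cosh_sub_le hu.le (show u ≤ K * u by nlinarith)
  have h2 := sinh_le_mul_cosh (show 0 ≤ K * u by positivity)
  have h3 := sq_le_cosh u
  rw [← hcc] at h1 h3
  have hX : 0 < Real.cosh (K * u) := Real.cosh_pos _
  obtain ⟨X, hXX⟩ : ∃ X, X = Real.cosh (K * u) := ⟨_, rfl⟩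
  rw [← hXX] at h1 h2 hX ⊢
  obtain ⟨τ, hτ⟩ : ∃ τ, τ = K - 1 := ⟨_, rfl⟩
  have hτ0 : 0 ≤ τ := by linarith
  have hτ1 : τ * (100 * c ^ 2) ≤ 1 := by
    have : τ ≤ 1 / (100 * c ^ 2) := by linarith
    rwa [le_div_iff₀ (by positivity)] at this
  have hK3 : K ≤ 1.01 := by
    have : τ * 100 ≤ 1 := by
      refine le_trans ?_ hτ1
      have : 1 ≤ c ^ 2 := by nlinarith
      nlinarith
    linarith
  -- X - c ≤ τ u * K u * X
  have h4 : X - c ≤ τ * u * (K * u * X) := by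
    refine h1.trans ?_
    have : K * u - u = τ * u := by rw [hτ]; ring
    rw [this]
    exact mul_le_mul_of_nonneg_left h2 (by positivity)
  have h5 : τ * u * (K * u * X) ≤ 0.0202 * (c - 1) / c ^ 2 * X := by
    have e1 : τ * u * (K * u * X) = (τ * K * u ^ 2) * X := by ring
    rw [e1]
    apply mul_le_mul_of_nonneg_right _ hX.le
    rw [le_div_iff₀ (by positivity)]
    have e2 : τ * K * u ^ 2 * c ^ 2 = (τ * (100 * c ^ 2)) * (K * u ^ 2) / 100 := by ring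
    rw [e2]
    have e3 : (τ * (100 * c ^ 2)) * (K * u ^ 2) ≤ 1 * (K * u ^ 2) :=
      mul_le_mul_of_nonneg_right hτ1 (by positivity)
    have e4 : K * u ^ 2 ≤ 1.01 * (2 * (c - 1)) :=
      mul_le_mul hK3 h3 (by positivity) (by norm_num)
    linarith
  -- conclude
  have h6 : X * (1 - 0.0202 * (c - 1) / c ^ 2) ≤ c := by nlinarith
  by_contra hcon
  push Not at hcon
  have h7 : (c - 1) / c ^ 2 ≤ 1 / 4 := by
    rw [div_le_iff₀ (by positivity)]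
    nlinarith [sq_nonneg (c - 2)]
  have h8 : 0 < 1 - 0.0202 * (c - 1) / c ^ 2 := by
    have : 0.0202 * (c - 1) / c ^ 2 = 0.0202 * ((c - 1) / c ^ 2) := by ring
    rw [this]
    linarith
  have h9 : (c + (c - 1) / (4 * c)) * (1 - 0.0202 * (c - 1) / c ^ 2) ≤ c :=
    (mul_le_mul_of_nonneg_right hcon h8.le).trans h6
  have hc0 : 0 < c := by linarith
  have e : (c + (c - 1) / (4 * c)) * (1 - 0.0202 * (c - 1) / c ^ 2) - c =
      (c - 1) / c * (1 / 4 - 0.0202 - 0.0202 / 4 * ((c - 1) / c ^ 2)) := by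
    field_simp
    ring
  have h10 : 0 < (c - 1) / c * (1 / 4 - 0.0202 - 0.0202 / 4 * ((c - 1) / c ^ 2)) := by
    apply mul_pos (div_pos (by linarith) hc0)
    linarith
  linarith

theorem delta_small {l c K δ κ : ℝ} (hl : 0 < l) (hc : 1 ≤ c) (hK : 1 ≤ K)
    (hK2 : K < 1 + 1 / 10 ^ 20 / ((1 + l ^ 2) * c ^ 3)) (hκ : 0 < κ) (hκ2 : κ ≤ 1 / 100) (h0 : 0 ≤ δ)
    (h : δ ≤ 4 * Real.pi * Real.sqrt (K ^ 2 - 1) ∨
        δ ^ 3 ≤ 32 * Real.pi * ((1 + κ) * l) ^ 2 * (K ^ 2 - 1)) :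
    δ ≤ 1.9 / 10 ^ 6 / c := by
  have hc0 : 0 < c := by linarith
  have hc3 : 0 < c ^ 3 := by positivity
  have hl2 : 0 < 1 + l ^ 2 := by positivity
  obtain ⟨om, hom⟩ : ∃ om : ℝ, om = 1 / 10 ^ 20 / ((1 + l ^ 2) * c ^ 3) := ⟨_, rfl⟩
  rw [← hom] at hK2
  have hom0 : 0 < om := by rw [hom]; positivity
  have hom1 : om * ((1 + l ^ 2) * c ^ 3) = 1 / 10 ^ 20 := by
    rw [hom]
    field_simp
  have hone : 1 ≤ (1 + l ^ 2) * c ^ 3 := by
    have h1 : 1 ≤ c ^ 3 := one_le_pow₀ hc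
    nlinarith [sq_nonneg l]
  have hom2 : om ≤ 1 / 10 ^ 20 := by
    rw [← hom1]
    nlinarith
  have hK3 : K ^ 2 - 1 ≤ 2.1 * om := by nlinarith
  have hKn : 0 ≤ K ^ 2 - 1 := by nlinarith
  have hpi : Real.pi < 3.15 := Real.pi_lt_d2
  have hpi0 := Real.pi_pos
  rcases h with h | h
  · have h1 : Real.sqrt (K ^ 2 - 1) ≤ 1.5 / 10 ^ 10 / c := by
      rw [Real.sqrt_le_left (by positivity)]
      refine hK3.trans ?_
      rw [div_pow, le_div_iff₀ (by positivity)]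
      have h2 : om * c ^ 2 ≤ 1 / 10 ^ 20 := by
        rw [← hom1]
        apply mul_le_mul_of_nonneg_left _ hom0.le
        have h1 : c ^ 2 ≤ c ^ 3 := pow_le_pow_right₀ hc (by norm_num)
        nlinarith [sq_nonneg l]
      nlinarith
    have h2 : δ ≤ 4 * 3.15 * (1.5 / 10 ^ 10 / c) :=
      h.trans (mul_le_mul (by linarith) h1 (Real.sqrt_nonneg _) (by norm_num))
    refine h2.trans ?_
    rw [← mul_div_assoc, div_le_div_iff_of_pos_right hc0]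
    norm_num
  · have h1 : δ ^ 3 ≤ (1.9 / 10 ^ 6 / c) ^ 3 := by
      refine h.trans ?_
      rw [div_pow, le_div_iff₀ hc3]
      have h2 : ((1 + κ) * l) ^ 2 ≤ 1.0201 * l ^ 2 := by
        rw [mul_pow]
        apply mul_le_mul_of_nonneg_right _ (sq_nonneg l)
        nlinarith
      have h3 : 32 * Real.pi * ((1 + κ) * l) ^ 2 * (K ^ 2 - 1) ≤ 32 * 3.15 * (1.0201 * l ^ 2) * (2.1 * om) := by
        apply mul_le_mul _ hK3 hKn (by positivity)
        apply mul_le_mul _ h2 (by positivity) (by norm_num)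
        linarith
      have h4 : 32 * Real.pi * ((1 + κ) * l) ^ 2 * (K ^ 2 - 1) * c ^ 3 ≤
          32 * 3.15 * (1.0201 * l ^ 2) * (2.1 * om) * c ^ 3 := mul_le_mul_of_nonneg_right h3 hc3.le
      refine h4.trans ?_
      have h5 : l ^ 2 * om * c ^ 3 ≤ 1 / 10 ^ 20 := by
        rw [← hom1]
        nlinarith [mul_pos hom0 hc3]
      nlinarith
    exact le_of_pow_le_pow_left₀ (by norm_num) (by positivity) h1

/-- the point of the grid as a point of the upper half-plane -/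
def pt (x y : ℝ) (hy : 1 ≤ y) : ℍ := ⟨⟨x, y⟩, by show 0 < y; linarith⟩

theorem tan_part {c δ q S y t : ℝ} (hc : 1 ≤ c) (hδ0 : 0 ≤ δ) (hδ : δ ≤ 1.9 / 10 ^ 6 / c)
    (hS : 0 < S) (hSt : 4 * S ^ 2 = t ^ 2 - 4) (hy : 1 ≤ y) (hy2 : y ≤ 1 + 1 / 100)
    (hq : q ^ 2 * Real.cos δ ^ 2 = (t ^ 2 - 4) * Real.sin δ ^ 2) :
    |q| * y / S ≤ 4 / 10 ^ 6 / c := by
  have hc0 : 0 < c := by linarith
  have hδ1 : δ ≤ 1.9 / 10 ^ 6 := by
    refine hδ.trans (div_le_self (by norm_num) hc)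
  have hsin : Real.sin δ ≤ δ := Real.sin_le hδ0
  have hsin0 : 0 ≤ Real.sin δ := Real.sin_nonneg_of_nonneg_of_le_pi hδ0 (by linarith [Real.pi_gt_three])
  have hcos : 0.999 ≤ Real.cos δ := by
    have := Real.one_sub_sq_div_two_le_cos (x := δ)
    nlinarith
  have h1 : |q| * Real.cos δ = 2 * S * Real.sin δ := by
    have e : (|q| * Real.cos δ) ^ 2 = (2 * S * Real.sin δ) ^ 2 := by
      rw [mul_pow, sq_abs, hq, ← hSt]
      ring
    have := (sq_eq_sq₀ (by positivity) (by positivity)).1 e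
    exact this
  have h2 : |q| * 0.999 ≤ 2 * S * δ := by
    have a1 : |q| * 0.999 ≤ |q| * Real.cos δ := mul_le_mul_of_nonneg_left hcos (abs_nonneg _)
    have a2 : 2 * S * Real.sin δ ≤ 2 * S * δ := mul_le_mul_of_nonneg_left hsin (by positivity)
    linarith
  have h3 : |q| * y ≤ 2.03 * S * δ := by
    have a1 : |q| * y ≤ |q| * (1 + 1 / 100) := mul_le_mul_of_nonneg_left hy2 (abs_nonneg _)
    nlinarith
  rw [div_le_iff₀ hS]
  have h4 : S * δ ≤ S * (1.9 / 10 ^ 6 / c) := mul_le_mul_of_nonneg_left hδ hS.le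
  have h5 : 2.03 * (1.9 / 10 ^ 6 / c) ≤ 4 / 10 ^ 6 / c := by
    rw [← mul_div_assoc, div_le_div_iff_of_pos_right hc0]
    norm_num
  nlinarith

theorem main_bound {Γ : Subgroup SL(2, ℝ)} (hΓ : ∃ g ∈ Γ, g ≠ 1 ∧ g ≠ -1) (hs : 0 < sys Γ) {K : ℝ}
    (hK : 1 ≤ K) (hH : Homog K Γ) :
    1 + 1 / 10 ^ 20 / ((1 + sys Γ ^ 2) * Real.cosh (sys Γ / 2) ^ 3) ≤ K := by
  by_contra hcon
  push Not at hcon
  obtain ⟨u, hu⟩ : ∃ u, u = sys Γ / 2 := ⟨_, rfl⟩
  have hu0 : 0 < u := by rw [hu]; positivity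
  obtain ⟨c, hc⟩ : ∃ c, c = Real.cosh (sys Γ / 2) := ⟨_, rfl⟩
  have hcu : c = Real.cosh u := by rw [hc, hu]
  have hc1 : 1 < c := by rw [hcu]; exact Real.one_lt_cosh.2 hu0.ne'
  rw [← hc] at hcon
  have hc3 : 1 ≤ c ^ 3 := one_le_pow₀ hc1.le
  -- the step for cosh
  have hstep : Real.cosh (K * u) < c + (c - 1) / (4 * c) := by
    rw [hcu]
    refine cosh_step hu0 hK ?_
    rw [← hcu]
    refine hcon.le.trans ?_
    have h1 : 1 / 10 ^ 20 / ((1 + sys Γ ^ 2) * c ^ 3) ≤ 1 / (100 * c ^ 2) := by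
      rw [div_div]
      apply one_div_le_one_div_of_le (by positivity)
      have h2 : c ^ 2 ≤ c ^ 3 := pow_le_pow_right₀ hc1.le (by norm_num)
      have h3 : c ^ 3 ≤ (1 + sys Γ ^ 2) * c ^ 3 := by nlinarith [sq_nonneg (sys Γ)]
      nlinarith
    linarith
  obtain ⟨κ, hκ0, hκ1, hκ2⟩ : ∃ κ : ℝ, 0 < κ ∧ κ ≤ 1 / 100 ∧
      Real.cosh (K * (1 + κ) * u) ≤ c + (c - 1) / (4 * c) := by
    have hcont : Filter.Tendsto (fun κ : ℝ => Real.cosh (K * (1 + κ) * u)) (nhdsWithin 0 (Set.Ioi 0))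
        (nhds (Real.cosh (K * (1 + 0) * u))) := by
      apply Filter.Tendsto.mono_left _ nhdsWithin_le_nhds
      exact (Real.continuous_cosh.comp (by fun_prop)).tendsto 0
    rw [add_zero, mul_one] at hcont
    have h1 := hcont.eventually (gt_mem_nhds hstep)
    have h2 : ∀ᶠ κ : ℝ in nhdsWithin 0 (Set.Ioi 0), κ ∈ Set.Ioc (0 : ℝ) (1 / 100) :=
      Ioc_mem_nhdsGT (by norm_num)
    obtain ⟨κ, h3, h4⟩ := (h1.and h2).exists
    exact ⟨κ, h4.1, h4.2, h3.le⟩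
  -- traces are large
  have htr : ∀ g ∈ Γ, g ≠ 1 → g ≠ -1 → 4 < tr g ^ 2 := by
    intro g hg h1 h2
    have h3 := trace_bound g (sys Γ) hs (fun z => sys_le hg h1 h2 z)
    rw [← hc] at h3
    nlinarith
  -- the family of forms
  let S : Set (ℝ × ℝ × ℝ) := {B | ∃ h ∈ Γ, h ≠ 1 ∧ h ≠ -1 ∧ |tr h| ≤ 2 * (c + (c - 1) / (4 * c)) ∧ B = form h}
  obtain ⟨x, y, hx0, hx1, hy0, hy1, hev⟩ := uncovered (c := c) hc1.le S
    (by
      rintro B ⟨h, hh, h1, h2, h3, rfl⟩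
      exact form_nrm h (htr h hh h1 h2))
    (by
      rintro B ⟨h, hh, h1, h2, h3, rfl⟩ B' ⟨h', hh', h1', h2', h3', rfl⟩
      exact form_sep hs hc hh h1 h2 h3 hh' h1' h2' h3')
  obtain ⟨h, hh, h1, h2, b, δ, hb, htb, hbK, hδ0, hδ1, hδ2, hQ⟩ :=
    near_axis hΓ hs hK hH hκ0 (pt x y hy0)
  have h3 : |tr h| ≤ 2 * (c + (c - 1) / (4 * c)) := by
    rw [htb]
    have h4 : Real.cosh (b / 2) ≤ Real.cosh (K * (1 + κ) * u) := by
      rw [Real.cosh_le_cosh, abs_of_pos (by positivity), abs_of_nonneg (by positivity)]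
      rw [hu]
      linarith
    linarith
  have h4 := hev (form h) ⟨h, hh, h1, h2, h3, rfl⟩
  have h5 := form_ev h (htr h hh h1 h2) (pt x y hy0)
  have h6 : (pt x y hy0).re = x := rfl
  have h7 : (pt x y hy0).im = y := rfl
  rw [h6, h7] at h5
  rw [h5] at h4
  have h8 : δ ≤ 1.9 / 10 ^ 6 / c := delta_small hs hc1.le hK hcon hκ0 hκ1 hδ0 hδ2
  have h9 : 0 < hS h := by
    have := htr h hh h1 h2
    unfold hS
    have h10 : 0 < Real.sqrt (tr h ^ 2 - 4) := Real.sqrt_pos.2 (by linarith)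
    positivity
  have h10 : 4 * hS h ^ 2 = tr h ^ 2 - 4 := by
    have := htr h hh h1 h2
    unfold hS
    rw [div_pow, Real.sq_sqrt (by linarith)]
    ring
  have h11 := tan_part hc1.le hδ0 h8 h9 h10 hy0 hy1 hQ
  linarith

end Pool.Agent.Helper48.QH
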