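import Pool.Agent.Helper48.QH.Core
import Pool.Agent.Helper48.QH.Main
import Pool.Agent.Helper48.QH.Area

/-!
# QH, final block: the bound in terms of the area
-/

set_option autoImplicit false

open MeasureTheory UpperHalfPlane
open scoped ContDiff MatrixGroups

noncomputable section

namespace Pool.Agent.Helper48.QH

theorem num_small {l A : ℝ} (hl : 0 < l) (hl2 : l ≤ 2) (hA : 0 ≤ A) :
    1 / 10 ^ 23 / (1 + A) ^ 4 ≤ 1 / 10 ^ 20 / ((1 + l ^ 2) * Real.cosh (l / 2) ^ 3) := by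
  have h1 : Real.cosh (l / 2) ≤ 2.72 := by
    have h2 : Real.cosh (l / 2) ≤ Real.exp 1 := by
      rw [Real.cosh_eq]
      have e1 : Real.exp (l / 2) ≤ Real.exp 1 := Real.exp_le_exp.2 (by linarith)
      have e2 : Real.exp (-(l / 2)) ≤ Real.exp 1 := Real.exp_le_exp.2 (by linarith)
      linarith
    exact h2.trans (by linarith [Real.exp_one_lt_d9])
  have h0 : 0 < Real.cosh (l / 2) := Real.cosh_pos _
  have h2 : Real.cosh (l / 2) ^ 3 ≤ 2.72 ^ 3 := pow_le_pow_left₀ h0.le h1 3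
  have h3 : (1 + l ^ 2) * Real.cosh (l / 2) ^ 3 ≤ 5 * 2.72 ^ 3 := by
    apply mul_le_mul _ h2 (by positivity) (by norm_num)
    nlinarith
  have h4 : (1 : ℝ) ≤ (1 + A) ^ 4 := one_le_pow₀ (by linarith)
  rw [div_div, div_div]
  apply one_div_le_one_div_of_le (by positivity)
  have h5 : (5 : ℝ) * 2.72 ^ 3 ≤ 10 ^ 3 := by norm_num
  have h6 : 10 ^ 20 * ((1 + l ^ 2) * Real.cosh (l / 2) ^ 3) ≤ 10 ^ 20 * (10 ^ 3 : ℝ) :=
    mul_le_mul_of_nonneg_left (h3.trans h5) (by positivity)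
  nlinarith

theorem num_large {l A : ℝ} (hl : 2 ≤ l) (hA : Real.exp (l / 2) / 4 ≤ A) :
    1 / 10 ^ 23 / (1 + A) ^ 4 ≤ 1 / 10 ^ 20 / ((1 + l ^ 2) * Real.cosh (l / 2) ^ 3) := by
  obtain ⟨E, hE⟩ : ∃ E, E = Real.exp (l / 2) := ⟨_, rfl⟩
  rw [← hE] at hA
  have hE0 : 0 < E := by rw [hE]; exact Real.exp_pos _
  have hE1 : 2.7 ≤ E := by
    have h1 : Real.exp 1 ≤ Real.exp (l / 2) := Real.exp_le_exp.2 (by linarith)
    have h2 := Real.exp_one_gt_d9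
    rw [hE]
    linarith
  have hA0 : 0 < A := by linarith
  have hc : Real.cosh (l / 2) ≤ 0.7 * E := by
    rw [Real.cosh_eq, ← hE]
    have h1 : Real.exp (-(l / 2)) ≤ 1 := Real.exp_le_one_iff.2 (by linarith)
    linarith
  have h0 : 0 < Real.cosh (l / 2) := Real.cosh_pos _
  have hc3 : Real.cosh (l / 2) ^ 3 ≤ (0.7 * E) ^ 3 := pow_le_pow_left₀ h0.le hc 3
  have hl2 : 1 + l ^ 2 ≤ 8 * E := by
    have h1 := Real.quadratic_le_exp_of_nonneg (show 0 ≤ l / 2 by linarith)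
    rw [← hE] at h1
    nlinarith
  have h3 : (1 + l ^ 2) * Real.cosh (l / 2) ^ 3 ≤ 8 * E * (0.7 * E) ^ 3 :=
    mul_le_mul hl2 hc3 (by positivity) (by positivity)
  have h4 : 8 * E * (0.7 * E) ^ 3 ≤ 10 ^ 3 * A ^ 4 := by
    have h5 : E ^ 4 ≤ (4 * A) ^ 4 := pow_le_pow_left₀ hE0.le (by linarith) 4
    have e1 : 8 * E * (0.7 * E) ^ 3 = 2.744 * E ^ 4 := by ring
    have e2 : (4 * A) ^ 4 = 256 * A ^ 4 := by ring
    rw [e1]
    rw [e2] at h5
    have : 0 ≤ A ^ 4 := by positivity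
    linarith
  have h5 : A ^ 4 ≤ (1 + A) ^ 4 := pow_le_pow_left₀ hA0.le (by linarith) 4
  rw [div_div, div_div]
  apply one_div_le_one_div_of_le (by positivity)
  nlinarith

theorem area_version {Γ : Subgroup SL(2, ℝ)} (hΓ : ∃ g ∈ Γ, g ≠ 1 ∧ g ≠ -1) (hs : 0 < sys Γ) {K : ℝ}
    (hK : 1 ≤ K) (hH : Homog K Γ) {D : Set ℍ} (hD : MeasurableSet D)
    (hcov : ∀ z : ℍ, ∃ g ∈ Γ, g • z ∈ D) {A : ℝ} (hA : 0 ≤ A) (hvol : volume D ≤ ENNReal.ofReal A) :
    1 + 1 / 10 ^ 23 / (1 + A) ^ 4 ≤ K := by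
  have h1 := main_bound hΓ hs hK hH
  rcases le_total (sys Γ) 2 with h | h
  · have := num_small hs h hA
    linarith
  · have h2 := (area_bound h hD hcov).trans hvol
    have h3 : Real.exp (sys Γ / 2) / 4 ≤ A := (ENNReal.ofReal_le_ofReal_iff hA).1 h2
    have := num_large h h3
    linarith

end Pool.Agent.Helper48.QH
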